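import Mathlib

set_option autoImplicit false

open NumberField Polynomial

namespace Pool.Agent.Helper80.UC

lemma ext_roots {K : Type} [Field K] [NumberField K] (Ps : Finset K[X])
    (h : ∀ p ∈ Ps, 0 < p.degree) :
    ∃ (L : Type) (_ : Field L) (_ : NumberField L) (φ : K →+* L), ∀ p ∈ Ps,
      (p.map φ).Splits ∧ ∃ x : L, (p.map φ).eval x = 0 := by
  classical
  have hne : ∏ p ∈ Ps, p ≠ 0 := Finset.prod_ne_zero_iff.mpr fun p hp h0 => by
    have := h p hp
    rw [h0, degree_zero] at this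
    exact absurd this (by simp)
  refine ⟨(∏ p ∈ Ps, p).SplittingField, inferInstance,
    NumberField.of_module_finite K _, algebraMap K _, fun p hp => ?_⟩
  have hs := SplittingField.splits (∏ p ∈ Ps, p)
  have hd : p.map (algebraMap K (∏ p ∈ Ps, p).SplittingField) ∣
      (∏ p ∈ Ps, p).map (algebraMap K (∏ p ∈ Ps, p).SplittingField) :=
    Polynomial.map_dvd _ (Finset.dvd_prod_of_mem _ hp)
  have hsp := hs.of_dvd ((Polynomial.map_ne_zero_iff (algebraMap K _).injective).mpr hne) hd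
  refine ⟨hsp, hsp.exists_eval_eq_zero ?_⟩
  rw [degree_map]
  exact (h p hp).ne'

lemma ext_pow {K : Type} [Field K] [NumberField K] (T : Finset K) (m : ℕ) (hm : 0 < m) :
    ∃ (L : Type) (_ : Field L) (_ : NumberField L) (φ : K →+* L), ∀ t ∈ T,
      ∃ x : L, x ^ m = φ t := by
  classical
  obtain ⟨L, i1, i2, φ, h⟩ := ext_roots (T.image fun t => (X ^ m - C t : K[X])) (by
    intro p hp
    obtain ⟨t, -, rfl⟩ := Finset.mem_image.mp hp
    rw [degree_X_pow_sub_C hm]
    exact_mod_cast hm)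
  refine ⟨L, i1, i2, φ, fun t ht => ?_⟩
  obtain ⟨-, x, hx⟩ := h _ (Finset.mem_image_of_mem _ ht)
  refine ⟨x, ?_⟩
  simp at hx
  linear_combination hx

lemma fin_of_map {K L : Type} [Field K] [Field L] (φ : K →+* L) {s : Set K} {t : Set L}
    (ht : t.Finite) (h : ∀ x ∈ s, φ x ∈ t) : s.Finite :=
  (ht.preimage φ.injective.injOn).subset fun x hx => h x hx

end Pool.Agent.Helper80.UC
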