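import Mathlib
import Pool.Graph.R_seed8.H437R2.Man.MWWeak
import Pool.Agent.Helper80.UC.Ext

set_option autoImplicit false

open WeierstrassCurve NumberField Polynomial

namespace Pool.Agent.Helper80.UC

open Pool.Agent.H437R2.Man.MW

variable {K : Type} [Field K]

/-- `f(x) = (x+e1)(x+e2)(x+e3)` -/
def ff (e1 e2 e3 x : K) : K := (x + e1) * (x + e2) * (x + e3)

/-- derivative of `f` -/
def fd (e1 e2 e3 x : K) : K :=
  3 * x ^ 2 + 2 * (e1 + e2 + e3) * x + (e1 * e2 + e1 * e3 + e2 * e3)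

/-- second derivative of `f` -/
def fdd (e1 e2 e3 x : K) : K := 6 * x + 2 * (e1 + e2 + e3)

/-- the 3-division polynomial -/
def psi (e1 e2 e3 x : K) : K := 2 * ff e1 e2 e3 x * fdd e1 e2 e3 x - fd e1 e2 e3 x ^ 2

lemma ff_map {L : Type} [Field L] (φ : K →+* L) (e1 e2 e3 x : K) :
    φ (ff e1 e2 e3 x) = ff (φ e1) (φ e2) (φ e3) (φ x) := by
  simp [ff]

lemma psi_map {L : Type} [Field L] (φ : K →+* L) (e1 e2 e3 x : K) :
    φ (psi e1 e2 e3 x) = psi (φ e1) (φ e2) (φ e3) (φ x) := by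
  simp only [psi, ff, fd, fdd, map_sub, map_mul, map_add, map_pow, map_ofNat]

variable [DecidableEq K] [CharZero K]

lemma double_pt {e1 e2 e3 x y : K}
    (h : (crv e1 e2 e3).toAffine.Nonsingular x y) (hy : y ≠ 0) :
    ∃ (x2 y2 : K) (h2 : (crv e1 e2 e3).toAffine.Nonsingular x2 y2),
      Affine.Point.some x y h + Affine.Point.some x y h = Affine.Point.some x2 y2 h2 ∧
      (x2 - x) * (4 * y ^ 2) = - psi e1 e2 e3 x ∧
      y2 * y = - (y ^ 2 + fd e1 e2 e3 x / 2 * (x2 - x)) := by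
  have hy' : y ≠ (crv e1 e2 e3).toAffine.negY x y := by
    simp only [Affine.negY, crv]
    intro hh
    apply hy
    have h2 : (2 : K) * y = 0 := by linear_combination hh
    rcases mul_eq_zero.mp h2 with h3 | h3
    · norm_num at h3
    · exact h3
  have e' := crv_eqn.mp h.1
  have hsl : (crv e1 e2 e3).toAffine.slope x x y y = fd e1 e2 e3 x / (2 * y) := by
    rw [Affine.slope_of_Y_ne rfl hy']
    simp only [crv, Affine.negY, fd]
    congr 1 <;> ring
  refine ⟨_, _, _, Affine.Point.add_self_of_Y_ne hy', ?_, ?_⟩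
  · rw [hsl, Affine.addX]
    simp only [crv, psi, ff, fd, fdd]
    rw [← e']
    field_simp
    ring_nf
  · rw [hsl]
    simp only [Affine.addY, Affine.negAddY, Affine.negY, Affine.addX, crv]
    field_simp
    ring

lemma triple_pt {e1 e2 e3 x y : K}
    (h : (crv e1 e2 e3).toAffine.Nonsingular x y) (hy : y ≠ 0) (hψ : psi e1 e2 e3 x ≠ 0) :
    ∃ (X Y : K) (H : (crv e1 e2 e3).toAffine.Nonsingular X Y),
      Affine.Point.some x y h + Affine.Point.some x y h + Affine.Point.some x y h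
        = Affine.Point.some X Y H ∧
      (X - x) * psi e1 e2 e3 x ^ 2 = 64 * ff e1 e2 e3 x ^ 3
        - 8 * ff e1 e2 e3 x * fd e1 e2 e3 x * psi e1 e2 e3 x := by
  obtain ⟨x2, y2, h2, e2', hx, hyy⟩ := double_pt h hy
  have e' : y ^ 2 = ff e1 e2 e3 x := crv_eqn.mp h.1
  have hne : x2 ≠ x := by
    rintro rfl
    rw [sub_self, zero_mul] at hx
    exact hψ (by linear_combination hx)
  have hadd := xRep_add h2 h hne
  rw [← e2'] at hadd
  have hne' : x2 - x ≠ 0 := sub_ne_zero.mpr hne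
  rcases hP : (Affine.Point.some x y h + Affine.Point.some x y h + Affine.Point.some x y h :
    Pt e1 e2 e3) with _ | ⟨X, Y, H⟩
  · exfalso
    rw [hP] at hadd
    have h3 := congrFun hadd 1
    simp [Affine.Point.xRep] at h3
  · refine ⟨X, Y, H, rfl, ?_⟩
    rw [hP] at hadd
    have h3 := congrFun hadd 0
    simp only [Affine.Point.xRep, Matrix.cons_val_zero] at h3
    have hN : numr e1 e2 e3 x2 x (y2 * y) = 4 * ff e1 e2 e3 x + 2 * (x2 - x) * fd e1 e2 e3 x
        + x * (x2 - x) ^ 2 := by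
      rw [hyy, e']
      simp only [numr, ff, fd]
      ring
    rw [hN, eq_div_iff (pow_ne_zero _ hne')] at h3
    have hψ' : psi e1 e2 e3 x = -(x2 - x) * (4 * ff e1 e2 e3 x) := by
      rw [← e']; linear_combination hx
    have h4 : (X - x) * (x2 - x) ^ 2 = 4 * ff e1 e2 e3 x + 2 * (x2 - x) * fd e1 e2 e3 x := by
      linear_combination h3
    rw [hψ']
    linear_combination 16 * (ff e1 e2 e3 x) ^ 2 * h4

theorem exists_mapPt {L : Type} [Field L] [DecidableEq L] (φ : K →+* L) (e1 e2 e3 : K) :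
    ∃ F : Pt e1 e2 e3 →+ Pt (φ e1) (φ e2) (φ e3), ∀ x y
      (h : (crv e1 e2 e3).toAffine.Nonsingular x y),
      ∃ h', F (Affine.Point.some x y h) = Affine.Point.some (φ x) (φ y) h' := by
  have key : ∀ W' : WeierstrassCurve L, W' = (crv e1 e2 e3).map φ →
      ∃ F : Pt e1 e2 e3 →+ W'.toAffine.Point, ∀ x y
        (h : (crv e1 e2 e3).toAffine.Nonsingular x y),
        ∃ h', F (Affine.Point.some x y h) = Affine.Point.some (φ x) (φ y) h' := by
    rintro _ rfl
    letI := φ.toAlgebra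
    exact ⟨Affine.Point.map (W' := crv e1 e2 e3) (S := K) (F := K) (K := L)
      (Algebra.ofId K L), fun x y h => ⟨_, rfl⟩⟩
  refine key _ ?_
  simp [crv, WeierstrassCurve.map]

end Pool.Agent.Helper80.UC
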