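import Mathlib
import Pool.Agent.Helper80.UC.Trip

set_option autoImplicit false

open WeierstrassCurve NumberField Polynomial

namespace Pool.Agent.Helper80.UC

open Pool.Agent.H437R2.Man.MW

section field

variable {K : Type} [Field K]

noncomputable def gF (e1 e2 e3 : K) : K[X] := (X + C e1) * (X + C e2) * (X + C e3)
noncomputable def gF1 (e1 e2 e3 : K) : K[X] :=
  3 * X ^ 2 + C (2 * (e1 + e2 + e3)) * X + C (e1 * e2 + e1 * e3 + e2 * e3)
noncomputable def gF2 (e1 e2 e3 : K) : K[X] := 6 * X + C (2 * (e1 + e2 + e3))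
noncomputable def gPs (e1 e2 e3 : K) : K[X] := 2 * gF e1 e2 e3 * gF2 e1 e2 e3 - gF1 e1 e2 e3 ^ 2

noncomputable def gpoly (e1 e2 e3 r : K) : K[X] :=
  64 * gF e1 e2 e3 ^ 3 - 8 * gF e1 e2 e3 * gF1 e1 e2 e3 * gPs e1 e2 e3 + X * gPs e1 e2 e3 ^ 2
    - C r * gPs e1 e2 e3 ^ 2

lemma gpoly_deg [CharZero K] (e1 e2 e3 r : K) : (gpoly e1 e2 e3 r).natDegree = 9 := by
  simp only [gpoly, gPs, gF, gF1, gF2]
  compute_degree
  all_goals norm_num

lemma gPs_deg [CharZero K] (e1 e2 e3 : K) : (gPs e1 e2 e3).natDegree = 4 := by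
  simp only [gPs, gF, gF1, gF2]
  compute_degree
  all_goals norm_num

lemma gF_eval (e1 e2 e3 x : K) : (gF e1 e2 e3).eval x = ff e1 e2 e3 x := by
  simp [gF, ff]

lemma gPs_eval (e1 e2 e3 x : K) : (gPs e1 e2 e3).eval x = psi e1 e2 e3 x := by
  simp [gPs, gF1, gF2, gF, psi, ff, fd, fdd]

lemma gpoly_eval (e1 e2 e3 r x : K) : (gpoly e1 e2 e3 r).eval x =
    64 * ff e1 e2 e3 x ^ 3 - 8 * ff e1 e2 e3 x * fd e1 e2 e3 x * psi e1 e2 e3 x
      + x * psi e1 e2 e3 x ^ 2 - r * psi e1 e2 e3 x ^ 2 := by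
  simp [gpoly, gPs, gF1, gF2, gF, psi, ff, fd, fdd]

lemma gpoly_map {L : Type} [Field L] (φ : K →+* L) (e1 e2 e3 r : K) :
    (gpoly e1 e2 e3 r).map φ = gpoly (φ e1) (φ e2) (φ e3) (φ r) := by
  simp [gpoly, gPs, gF1, gF2, gF, map_ofNat]

lemma gPs_map {L : Type} [Field L] (φ : K →+* L) (e1 e2 e3 : K) :
    (gPs e1 e2 e3).map φ = gPs (φ e1) (φ e2) (φ e3) := by
  simp [gPs, gF1, gF2, gF, map_ofNat]

lemma ff_zero {e1 e2 e3 x : K} (h : ff e1 e2 e3 x = 0) : x = -e1 ∨ x = -e2 ∨ x = -e3 := by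
  rcases mul_eq_zero.mp h with h | h
  · rcases mul_eq_zero.mp h with h | h
    · left; linear_combination h
    · right; left; linear_combination h
  · right; right; linear_combination h

lemma fd_ne {e1 e2 e3 x : K} (h12 : e1 ≠ e2) (h13 : e1 ≠ e3) (h23 : e2 ≠ e3)
    (h : ff e1 e2 e3 x = 0) : fd e1 e2 e3 x ≠ 0 := by
  have d12 := sub_ne_zero.mpr h12
  have d13 := sub_ne_zero.mpr h13
  have d23 := sub_ne_zero.mpr h23
  rcases ff_zero h with rfl | rfl | rfl
  · have : fd e1 e2 e3 (-e1) = (e1 - e2) * (e1 - e3) := by simp only [fd]; ring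
    rw [this]; exact mul_ne_zero d12 d13
  · have : fd e1 e2 e3 (-e2) = - ((e1 - e2) * (e2 - e3)) := by simp only [fd]; ring
    rw [this]; exact neg_ne_zero.mpr (mul_ne_zero d12 d23)
  · have : fd e1 e2 e3 (-e3) = (e1 - e3) * (e2 - e3) := by simp only [fd]; ring
    rw [this]; exact mul_ne_zero d13 d23

lemma psi_ne {e1 e2 e3 x : K} (h12 : e1 ≠ e2) (h13 : e1 ≠ e3) (h23 : e2 ≠ e3)
    (h : ff e1 e2 e3 x = 0) : psi e1 e2 e3 x ≠ 0 := by
  simp only [psi, h]
  have := pow_ne_zero 2 (fd_ne h12 h13 h23 h)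
  simpa using this

lemma ff_ne_of_psi {e1 e2 e3 x : K} (h12 : e1 ≠ e2) (h13 : e1 ≠ e3) (h23 : e2 ≠ e3)
    (h : psi e1 e2 e3 x = 0) : ff e1 e2 e3 x ≠ 0 := fun h0 => psi_ne h12 h13 h23 h0 h

variable [DecidableEq K] [CharZero K]

lemma third_of {e1 e2 e3 xR yR ξ η : K} (h12 : e1 ≠ e2) (h13 : e1 ≠ e3) (h23 : e2 ≠ e3)
    (hR : (crv e1 e2 e3).toAffine.Nonsingular xR yR)
    (hg : (gpoly e1 e2 e3 xR).eval ξ = 0) (hη : η ^ 2 = ff e1 e2 e3 ξ) :
    ∃ Q : Pt e1 e2 e3, Q + Q + Q = Affine.Point.some xR yR hR := by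
  rw [gpoly_eval] at hg
  have qR : yR ^ 2 = ff e1 e2 e3 xR := crv_eqn.mp hR.1
  by_cases hη0 : η = 0
  · subst hη0
    have hf : ff e1 e2 e3 ξ = 0 := by rw [← hη]; ring
    have hψ := psi_ne h12 h13 h23 hf
    rw [hf] at hg
    have h1 : (ξ - xR) * psi e1 e2 e3 ξ ^ 2 = 0 := by linear_combination hg
    have h2 : ξ = xR := by
      rcases mul_eq_zero.mp h1 with h | h
      · linear_combination h
      · exact absurd h (pow_ne_zero _ hψ)
    subst h2
    have hy : yR = 0 := by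
      rw [hf] at qR
      exact pow_eq_zero_iff (two_ne_zero) |>.mp qR
    subst hy
    refine ⟨Affine.Point.some ξ 0 hR, ?_⟩
    have : (Affine.Point.some ξ 0 hR : Pt e1 e2 e3) + Affine.Point.some ξ 0 hR = 0 := by
      apply Affine.Point.add_self_of_Y_eq
      simp [Affine.negY, crv]
    rw [this, zero_add]
  · have hψ : psi e1 e2 e3 ξ ≠ 0 := by
      intro h0
      rw [h0] at hg
      have h1 : ff e1 e2 e3 ξ ^ 3 = 0 := by
        have : (64 : K) * ff e1 e2 e3 ξ ^ 3 = 0 := by linear_combination hg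
        rcases mul_eq_zero.mp this with h | h
        · norm_num at h
        · exact h
      have h2 : ff e1 e2 e3 ξ = 0 := pow_eq_zero_iff (three_ne_zero) |>.mp h1
      rw [← hη] at h2
      exact hη0 (pow_eq_zero_iff (two_ne_zero) |>.mp h2)
    have hns : (crv e1 e2 e3).toAffine.Nonsingular ξ η := crv_nonsing h12 h13 h23 hη
    obtain ⟨X, Y, H, hQ, hX⟩ := triple_pt hns hη0 hψ
    have hXR : X = xR := by
      have h1 : (X - xR) * psi e1 e2 e3 ξ ^ 2 = 0 := by linear_combination hX + hg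
      rcases mul_eq_zero.mp h1 with h | h
      · linear_combination h
      · exact absurd h (pow_ne_zero _ hψ)
    subst hXR
    have qY : Y ^ 2 = ff e1 e2 e3 X := crv_eqn.mp H.1
    rw [← qR] at qY
    rcases sq_eq_sq_iff_eq_or_eq_neg.mp qY with h | h
    · subst h
      exact ⟨_, hQ⟩
    · refine ⟨-Affine.Point.some ξ η hns, ?_⟩
      have h3 : -(Affine.Point.some ξ η hns : Pt e1 e2 e3) + -Affine.Point.some ξ η hns
          + -Affine.Point.some ξ η hns = -(Affine.Point.some ξ η hns + Affine.Point.some ξ η hns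
          + Affine.Point.some ξ η hns) := by abel
      rw [h3, hQ]
      subst h
      have hR' : (crv e1 e2 e3).toAffine.Nonsingular X (- -yR) := by rw [neg_neg]; exact hR
      rw [neg_mk H hR']
      simp

end field

theorem thirds {K : Type} [Field K] [NumberField K] {e1 e2 e3 : K} (h12 : e1 ≠ e2)
    (h13 : e1 ≠ e3) (h23 : e2 ≠ e3) (U : Finset (Pt e1 e2 e3)) :
    ∃ (L : Type) (_ : Field L) (_ : NumberField L) (φ : K →+* L),
      ∀ (_ : DecidableEq L) (F : Pt e1 e2 e3 → Pt (φ e1) (φ e2) (φ e3)) (_ : F 0 = 0)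
      (_ : ∀ x y (h : (crv e1 e2 e3).toAffine.Nonsingular x y),
        ∃ h', F (Affine.Point.some x y h) = Affine.Point.some (φ x) (φ y) h'),
      ∀ u ∈ U, ∃ Q, Q + Q + Q = F u := by
  classical
  let pol : Pt e1 e2 e3 → K[X] := fun u => match u with
    | 0 => X
    | .some x _ _ => gpoly e1 e2 e3 x
  obtain ⟨L1, i1, i2, φ1, H1⟩ := ext_roots (U.image pol) (by
    intro p hp
    obtain ⟨u, -, rfl⟩ := Finset.mem_image.mp hp
    rcases u with _ | ⟨x, y, h⟩
    · simp [pol]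
    · simp only [pol]
      rw [← natDegree_pos_iff_degree_pos, gpoly_deg]
      norm_num)
  have H2 : ∀ u ∈ U, ∃ ξ : L1, ((pol u).map φ1).eval ξ = 0 := fun u hu =>
    (H1 _ (Finset.mem_image_of_mem _ hu)).2
  choose! ξ hξ using H2
  obtain ⟨L, i3, i4, φ2, H3⟩ := ext_pow
    (U.image fun u => ff (φ1 e1) (φ1 e2) (φ1 e3) (ξ u)) 2 (by norm_num)
  refine ⟨L, i3, i4, φ2.comp φ1, ?_⟩
  intro _ F hF0 hF u hu
  rcases u with _ | ⟨x, y, h⟩
  · exact ⟨0, by rw [add_zero, add_zero]; exact hF0.symm⟩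
  · obtain ⟨h', hF'⟩ := hF x y h
    rw [hF']
    obtain ⟨η, hη⟩ := H3 _ (Finset.mem_image_of_mem _ hu)
    have hξ' := hξ _ hu
    simp only [pol, gpoly_map] at hξ'
    have hinj : Function.Injective (φ2.comp φ1) := (φ2.comp φ1).injective
    refine third_of (fun h => h12 (hinj h)) (fun h => h13 (hinj h)) (fun h => h23 (hinj h)) h'
      (ξ := φ2 (ξ (Affine.Point.some x y h))) (η := η) ?_ ?_
    · have h1 := congrArg φ2 hξ'
      rw [map_zero, ← Polynomial.eval_map_apply, gpoly_map] at h1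
      exact h1
    · rw [hη, ff_map]
      rfl

end Pool.Agent.Helper80.UC
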