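import Mathlib
import Pool.Graph.R_seed8.H437R2.Man.MWWeak

set_option autoImplicit false

open IsDedekindDomain NumberField

namespace Pool.Agent.Helper80.UC

/-- finite places -/
abbrev Pl (K : Type) [Field K] [NumberField K] : Type := HeightOneSpectrum (𝓞 K)

variable {K : Type} [Field K] [NumberField K]

/-- additive order at `v` (junk value `0` at `0`) -/
noncomputable def o (v : Pl K) (x : K) : ℤ := -(WithZero.log (v.valuation K x))

lemma val_ne (v : Pl K) {x : K} (hx : x ≠ 0) : v.valuation K x ≠ 0 :=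
  (Valuation.ne_zero_iff _).mpr hx

lemma o_mul (v : Pl K) {x y : K} (hx : x ≠ 0) (hy : y ≠ 0) : o v (x * y) = o v x + o v y := by
  simp only [o]
  rw [map_mul, WithZero.log_mul (val_ne v hx) (val_ne v hy)]
  ring

lemma o_div (v : Pl K) {x y : K} (hx : x ≠ 0) (hy : y ≠ 0) : o v (x / y) = o v x - o v y := by
  simp only [o]
  rw [map_div₀, WithZero.log_div (val_ne v hx) (val_ne v hy)]
  ring

lemma o_pow (v : Pl K) (x : K) (n : ℕ) : o v (x ^ n) = n * o v x := by
  simp only [o]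
  rw [map_pow, WithZero.log_pow, nsmul_eq_mul]
  ring

lemma o_inv (v : Pl K) (x : K) : o v x⁻¹ = - o v x := by
  simp only [o]
  rw [map_inv₀, WithZero.log_inv]

@[simp] lemma o_one (v : Pl K) : o v (1 : K) = 0 := by simp [o]

@[simp] lemma o_zero (v : Pl K) : o v (0 : K) = 0 := by simp [o]

@[simp] lemma o_neg (v : Pl K) (x : K) : o v (-x) = o v x := by simp [o, Valuation.map_neg]

lemma o_sub_comm (v : Pl K) (x y : K) : o v (x - y) = o v (y - x) := by
  rw [← o_neg v (y - x), neg_sub]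

lemma val_le_iff (v : Pl K) {x y : K} (hx : x ≠ 0) (hy : y ≠ 0) :
    v.valuation K x ≤ v.valuation K y ↔ o v y ≤ o v x := by
  simp only [o]
  rw [neg_le_neg_iff, WithZero.log_le_log (val_ne v hx) (val_ne v hy)]

lemma val_lt_iff (v : Pl K) {x y : K} (hx : x ≠ 0) (hy : y ≠ 0) :
    v.valuation K x < v.valuation K y ↔ o v y < o v x := by
  simp only [o]
  rw [neg_lt_neg_iff, WithZero.log_lt_log (val_ne v hx) (val_ne v hy)]

/-- the ring of `v`-integers -/
noncomputable abbrev A (v : Pl K) : Subring K := (v.valuation K).integer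

lemma mem_A (v : Pl K) (x : K) : x ∈ A v ↔ v.valuation K x ≤ 1 := Valuation.mem_integer_iff _ _

lemma mem_A_iff (v : Pl K) {x : K} (hx : x ≠ 0) : x ∈ A v ↔ 0 ≤ o v x := by
  rw [mem_A, ← map_one (v.valuation K), val_le_iff v hx one_ne_zero, o_one]

lemma mem_A_of (v : Pl K) {x : K} (hx : 0 ≤ o v x) : x ∈ A v := by
  rcases eq_or_ne x 0 with h | h
  · rw [h]; exact zero_mem _
  · exact (mem_A_iff v h).mpr hx

lemma o_nonneg (v : Pl K) {x : K} (hx : x ∈ A v) : 0 ≤ o v x := by
  rcases eq_or_ne x 0 with h | h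
  · rw [h]; simp
  · exact (mem_A_iff v h).mp hx

lemma not_mem_A (v : Pl K) {x : K} (hx : x ∉ A v) : x ≠ 0 ∧ o v x < 0 := by
  have h0 : x ≠ 0 := by rintro rfl; exact hx (zero_mem _)
  refine ⟨h0, ?_⟩
  by_contra h
  exact hx (mem_A_of v (not_lt.mp h))

lemma o_add_lt (v : Pl K) {x y : K} (hx : x ≠ 0) (hy : y ≠ 0) (h : o v x < o v y) :
    x + y ≠ 0 ∧ o v (x + y) = o v x := by
  have h1 : v.valuation K y < v.valuation K x := (val_lt_iff v hy hx).mpr h
  have h2 : v.valuation K (x + y) = v.valuation K x := Valuation.map_add_eq_of_lt_left _ h1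
  refine ⟨?_, ?_⟩
  · intro h0
    rw [h0, map_zero] at h2
    exact val_ne v hx h2.symm
  · simp only [o, h2]

/-- if `x` has smaller order than the `v`-integral multiple `z * w` of something of
 bigger order ... basic form: `o x < k`, `y ∈` things of order `≥ k` -/
lemma o_add_lt' (v : Pl K) {x y : K} (hx : x ≠ 0) (h : y = 0 ∨ o v x < o v y) :
    x + y ≠ 0 ∧ o v (x + y) = o v x := by
  rcases eq_or_ne y 0 with hy | hy
  · subst hy
    simp [hx]
  · rcases h with h | h
    · exact absurd h hy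
    · exact o_add_lt v hx hy h

lemma o_add_ge (v : Pl K) {x y : K} (hxy : x + y ≠ 0) {k : ℤ} (hx : x = 0 ∨ k ≤ o v x)
    (hy : y = 0 ∨ k ≤ o v y) : k ≤ o v (x + y) := by
  rcases eq_or_ne x 0 with h0 | h0
  · subst h0
    rw [zero_add] at hxy ⊢
    exact hy.resolve_left hxy
  rcases eq_or_ne y 0 with h1 | h1
  · subst h1
    rw [add_zero]
    exact hx.resolve_left h0
  have hx' := hx.resolve_left h0
  have hy' := hy.resolve_left h1
  have h2 := Valuation.map_add (v.valuation K) x y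
  rcases le_max_iff.mp h2 with h3 | h3
  · rw [val_le_iff v hxy h0] at h3
    exact hx'.trans h3
  · rw [val_le_iff v hxy h1] at h3
    exact hy'.trans h3

lemma fin_o {x : K} (hx : x ≠ 0) : {v : Pl K | o v x ≠ 0}.Finite := by
  refine (Pool.Agent.H437R2.Man.MW.finite_val_ne_one x hx).subset ?_
  intro v hv h
  apply hv
  simp only [o]
  rw [h]; simp

lemma fin_A (x : K) : {v : Pl K | x ∉ A v}.Finite := by
  rcases eq_or_ne x 0 with h | h
  · subst h
    simp [zero_mem]
  · refine (fin_o h).subset ?_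
    intro v hv h0
    exact hv (mem_A_of v (by rw [h0]))

lemma toAdd_valNZ (v : Pl K) (a : Kˣ) :
    Multiplicative.toAdd (v.valuationOfNeZero a) = - o v (a : K) := by
  simp only [o, neg_neg]
  rw [← v.valuationOfNeZero_eq a]
  rfl

/-- finiteness of `K(S,2)` -/
theorem sel2 (S : Set (Pl K)) (hS : S.Finite) :
    ∃ T : Finset K, (∀ t ∈ T, t ≠ 0) ∧ ∀ a : K, a ≠ 0 →
      (∀ v : Pl K, v ∉ S → Even (o v a)) →
      ∃ t ∈ T, ∃ b : K, b ≠ 0 ∧ a = t * b ^ 2 := by
  obtain ⟨T, hT0, hT⟩ := Pool.Agent.H437R2.Man.MW.sel_finite S hS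
  refine ⟨T, hT0, fun a ha hev => ?_⟩
  obtain ⟨t, ht, b, hb, h⟩ := hT (Units.mk0 a ha) (fun v hv => by
    rw [toAdd_valNZ, even_neg]
    exact hev v hv)
  exact ⟨t, ht, b, hb, h⟩

end Pool.Agent.Helper80.UC
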