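import Mathlib
import Pool.Agent.Helper80.UC.Val
import Pool.Agent.Helper80.UC.Third

set_option autoImplicit false

open IsDedekindDomain NumberField

namespace Pool.Agent.Helper80.UC

open Pool.Agent.H437R2.Man.MW

variable {K : Type} [Field K] [NumberField K]

lemma o_add_int (v : Pl K) {x e : K} (hx : o v x < 0) (he : e ∈ A v) :
    x + e ≠ 0 ∧ o v (x + e) = o v x := by
  have hx0 : x ≠ 0 := by rintro rfl; simp at hx
  apply o_add_lt' v hx0
  rcases eq_or_ne e 0 with h | h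
  · exact Or.inl h
  · exact Or.inr (hx.trans_le (o_nonneg v he))

lemma o_sub_int (v : Pl K) {x e : K} (hx : o v x < 0) (he : e ∈ A v) :
    x - e ≠ 0 ∧ o v (x - e) = o v x := by
  rw [sub_eq_add_neg]
  exact o_add_int v hx (neg_mem he)

lemma loc1 (v : Pl K) {e1 e2 e3 x y : K} (i1 : e1 ∈ A v) (i2 : e2 ∈ A v) (i3 : e3 ∈ A v)
    (hx : o v x < 0) (h : y ^ 2 = ff e1 e2 e3 x) :
    ∃ n : ℤ, 0 < n ∧ o v x = -2 * n ∧ o v y = -3 * n ∧ y ≠ 0 := by
  obtain ⟨n1, o1⟩ := o_add_int v hx i1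
  obtain ⟨n2, o2⟩ := o_add_int v hx i2
  obtain ⟨n3, o3⟩ := o_add_int v hx i3
  have h1 := congrArg (o v) h
  have hy0 : y ≠ 0 := by
    rintro rfl
    have : ff e1 e2 e3 x ≠ 0 := mul_ne_zero (mul_ne_zero n1 n2) n3
    rw [← h] at this
    simp at this
  rw [o_pow, ff, o_mul v (mul_ne_zero n1 n2) n3, o_mul v n1 n2, o1, o2, o3] at h1
  push_cast at h1
  refine ⟨o v x - o v y, ?_, ?_, ?_, hy0⟩ <;> omega

lemma loc2 (v : Pl K) {e1 e2 e3 x1 y1 x2 y2 X : K} (i1 : e1 ∈ A v) (i2 : e2 ∈ A v)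
    (i3 : e3 ∈ A v) (hx2 : x2 ∈ A v) (hy20 : y2 ≠ 0) (hy2 : o v y2 = 0) (h2 : o v (2 : K) = 0)
    {n : ℤ} (hn : 0 < n) (hx1 : o v x1 = -2 * n) (hy1 : o v y1 = -3 * n) (hy10 : y1 ≠ 0)
    (hX : X * (x1 - x2) ^ 2 = numr e1 e2 e3 x1 x2 (y1 * y2)) :
    X - x2 ≠ 0 ∧ o v (X - x2) = n := by
  have hx10 : x1 ≠ 0 := by rintro rfl; simp at hx1; omega
  have hlt : o v x1 < 0 := by omega
  obtain ⟨hd0, hd⟩ := o_sub_int v hlt hx2
  set p := fd e1 e2 e3 x2 * x1 + ((e1 * e2 + e1 * e3 + e2 * e3) * x2 + 2 * (e1 * e2 * e3) - x2 ^ 3)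
    with hp
  have hN : (X - x2) * (x1 - x2) ^ 2 = -(2 * (y1 * y2)) + p := by
    have : (X - x2) * (x1 - x2) ^ 2 = numr e1 e2 e3 x1 x2 (y1 * y2) - x2 * (x1 - x2) ^ 2 := by
      rw [← hX]; ring
    rw [this, hp]
    simp only [numr, fd]
    ring
  have hq0 : -(2 * (y1 * y2)) ≠ 0 :=
    neg_ne_zero.mpr (mul_ne_zero two_ne_zero (mul_ne_zero hy10 hy20))
  have hq : o v (-(2 * (y1 * y2))) = -3 * n := by
    rw [o_neg, o_mul v two_ne_zero (mul_ne_zero hy10 hy20), o_mul v hy10 hy20, h2, hy1, hy2]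
    ring
  have hfd : fd e1 e2 e3 x2 ∈ A v := by unfold fd; (repeat (first | assumption | exact zero_mem _ | exact one_mem _ | exact natCast_mem _ _ | exact ofNat_mem _ _ | apply add_mem | apply sub_mem | apply mul_mem | apply pow_mem | apply neg_mem))
  have hc : ((e1 * e2 + e1 * e3 + e2 * e3) * x2 + 2 * (e1 * e2 * e3) - x2 ^ 3) ∈ A v := by (repeat (first | assumption | exact zero_mem _ | exact one_mem _ | exact natCast_mem _ _ | exact ofNat_mem _ _ | apply add_mem | apply sub_mem | apply mul_mem | apply pow_mem | apply neg_mem))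
  have hpo : p = 0 ∨ -2 * n ≤ o v p := by
    rcases eq_or_ne p 0 with h | h
    · exact Or.inl h
    · right
      refine o_add_ge v h ?_ ?_
      · rcases eq_or_ne (fd e1 e2 e3 x2) 0 with h0 | h0
        · left; rw [h0, zero_mul]
        · right
          rw [o_mul v h0 hx10, hx1]
          have := o_nonneg v hfd
          omega
      · right
        have := o_nonneg v hc
        omega
  have hsum := o_add_lt' v (y := p) hq0 (by
    rcases hpo with h | h
    · exact Or.inl h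
    · right; rw [hq]; omega)
  rw [← hN, hq] at hsum
  obtain ⟨s1, s2⟩ := hsum
  have hX0 : X - x2 ≠ 0 := left_ne_zero_of_mul s1
  refine ⟨hX0, ?_⟩
  rw [o_mul v hX0 (pow_ne_zero _ hd0), o_pow, hd, hx1] at s2
  push_cast at s2
  omega

/-- positivity in the maximal ideal -/
lemma lt_one_of (v : Pl K) {x : K} (h : x = 0 ∨ 0 < o v x) : v.valuation K x < 1 := by
  rcases eq_or_ne x 0 with h0 | h0
  · subst h0; simp
  · rw [← map_one (v.valuation K), val_lt_iff v h0 one_ne_zero, o_one]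
    exact h.resolve_left h0

lemma lt_one_iff (v : Pl K) {x : K} : v.valuation K x < 1 ↔ (x = 0 ∨ 0 < o v x) := by
  refine ⟨fun h => ?_, lt_one_of v⟩
  rcases eq_or_ne x 0 with h0 | h0
  · exact Or.inl h0
  · right
    rwa [← map_one (v.valuation K), val_lt_iff v h0 one_ne_zero, o_one] at h

lemma lt_one_mul (v : Pl K) {x y : K} (hx : v.valuation K x < 1) (hy : y ∈ A v) :
    v.valuation K (x * y) < 1 := by
  rw [map_mul]
  exact mul_lt_one_of_lt_of_le hx ((mem_A v y).mp hy)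

lemma lt_one_add (v : Pl K) {x y : K} (hx : v.valuation K x < 1) (hy : v.valuation K y < 1) :
    v.valuation K (x + y) < 1 := Valuation.map_add_lt _ hx hy

lemma lt_one_neg (v : Pl K) {x : K} (hx : v.valuation K x < 1) :
    v.valuation K (-x) < 1 := by rwa [Valuation.map_neg]

lemma not_lt_one (v : Pl K) {x : K} (h0 : x ≠ 0) (hx : o v x = 0) : ¬ v.valuation K x < 1 := by
  rw [lt_one_iff]
  rintro (h | h)
  · exact h0 h
  · omega

lemma lt_one_of_pow (v : Pl K) {x : K} {n : ℕ} (h : v.valuation K (x ^ n) < 1) :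
    v.valuation K x < 1 := by
  rcases lt_or_ge (v.valuation K x) 1 with h' | h'
  · exact h'
  · rw [map_pow] at h
    exact absurd (one_le_pow₀ h' : 1 ≤ v.valuation K x ^ n) (not_le.mpr h)

lemma loc3a (v : Pl K) {e1 e2 e3 x : K} (i1 : e1 ∈ A v) (i2 : e2 ∈ A v)
    (i3 : e3 ∈ A v) (hx : x ∈ A v) (h12 : e1 ≠ e2) (h13 : e1 ≠ e3) (h23 : e2 ≠ e3)
    (u12 : o v (e1 - e2) = 0) (u13 : o v (e1 - e3) = 0) (u23 : o v (e2 - e3) = 0)
    (hk : v.valuation K (psi e1 e2 e3 x) < 1) :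
    ff e1 e2 e3 x ≠ 0 ∧ o v (ff e1 e2 e3 x) = 0 := by
  have d12 := sub_ne_zero.mpr h12
  have d13 := sub_ne_zero.mpr h13
  have d23 := sub_ne_zero.mpr h23
  have hffA : ff e1 e2 e3 x ∈ A v := by unfold ff; (repeat (first | assumption | exact zero_mem _ | exact one_mem _ | exact natCast_mem _ _ | exact ofNat_mem _ _ | apply add_mem | apply sub_mem | apply mul_mem | apply pow_mem | apply neg_mem))
  by_contra hcon
  have hlt : v.valuation K (ff e1 e2 e3 x) < 1 := by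
    apply lt_one_of
    rcases eq_or_ne (ff e1 e2 e3 x) 0 with h | h
    · exact Or.inl h
    · right
      have h1 := o_nonneg v hffA
      have h2 : o v (ff e1 e2 e3 x) ≠ 0 := fun h3 => hcon ⟨h, h3⟩
      omega
  have hfd : v.valuation K (fd e1 e2 e3 x) < 1 := by
    apply lt_one_of_pow v (n := 2)
    have h1 : fd e1 e2 e3 x ^ 2 = ff e1 e2 e3 x * (2 * fdd e1 e2 e3 x) + -psi e1 e2 e3 x := by
      simp only [psi]; ring
    rw [h1]
    refine lt_one_add v (lt_one_mul v hlt ?_) (lt_one_neg v hk)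
    unfold fdd; (repeat (first | assumption | exact zero_mem _ | exact one_mem _ | exact natCast_mem _ _ | exact ofNat_mem _ _ | apply add_mem | apply sub_mem | apply mul_mem | apply pow_mem | apply neg_mem))
  have hcase : ∀ e e' e'' : K, e ∈ A v → e' ∈ A v → e'' ∈ A v → (e - e') ≠ 0 → (e - e'') ≠ 0 →
      o v (e - e') = 0 → o v (e - e'') = 0 → fd e1 e2 e3 x =
        3 * x ^ 2 + 2 * (e + e' + e'') * x + (e * e' + e * e'' + e' * e'') →
      v.valuation K (x + e) < 1 → False := by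
    intro e e' e'' j1 j2 j3 n1 n2 o1 o2 hfd' hlt'
    have h1 : (e - e') * (e - e'') = fd e1 e2 e3 x + -((x + e) * (3 * x - e + 2 * e' + 2 * e'')) := by
      rw [hfd']; ring
    have h2 : v.valuation K ((e - e') * (e - e'')) < 1 := by
      rw [h1]
      refine lt_one_add v hfd (lt_one_neg v (lt_one_mul v hlt' ?_))
      (repeat (first | assumption | exact zero_mem _ | exact one_mem _ | exact natCast_mem _ _ | exact ofNat_mem _ _ | apply add_mem | apply sub_mem | apply mul_mem | apply pow_mem | apply neg_mem))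
    refine not_lt_one v (mul_ne_zero n1 n2) ?_ h2
    rw [o_mul v n1 n2, o1, o2, add_zero]
  have hprod : v.valuation K (x + e1) < 1 ∨ v.valuation K (x + e2) < 1 ∨
      v.valuation K (x + e3) < 1 := by
    by_contra hno
    push Not at hno
    obtain ⟨g1, g2, g3⟩ := hno
    apply absurd hlt
    rw [not_lt, ff, map_mul, map_mul]
    have h5 := mul_le_mul' (mul_le_mul' g1 g2) g3
    simpa using h5
  rcases hprod with h | h | h
  · exact hcase e1 e2 e3 i1 i2 i3 d12 d13 u12 u13 (by simp only [fd]) h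
  · refine hcase e2 e1 e3 i2 i1 i3 ?_ d23 ?_ u23 (by simp only [fd]; ring) h
    · exact sub_ne_zero.mpr h12.symm
    · rw [o_sub_comm]; exact u12
  · refine hcase e3 e1 e2 i3 i1 i2 ?_ ?_ ?_ ?_ (by simp only [fd]; ring) h
    · exact sub_ne_zero.mpr h13.symm
    · exact sub_ne_zero.mpr h23.symm
    · rw [o_sub_comm]; exact u13
    · rw [o_sub_comm]; exact u23

lemma loc3 (v : Pl K) {e1 e2 e3 x X : K} (i1 : e1 ∈ A v) (i2 : e2 ∈ A v)
    (i3 : e3 ∈ A v) (hx : x ∈ A v) (h12 : e1 ≠ e2) (h13 : e1 ≠ e3) (h23 : e2 ≠ e3)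
    (u12 : o v (e1 - e2) = 0) (u13 : o v (e1 - e3) = 0) (u23 : o v (e2 - e3) = 0)
    (h2 : o v (2 : K) = 0) (hψ : psi e1 e2 e3 x ≠ 0) (hk : 0 < o v (psi e1 e2 e3 x))
    (hX : (X - x) * psi e1 e2 e3 x ^ 2 = 64 * ff e1 e2 e3 x ^ 3
        - 8 * ff e1 e2 e3 x * fd e1 e2 e3 x * psi e1 e2 e3 x) :
    X ≠ 0 ∧ o v X = -2 * o v (psi e1 e2 e3 x) := by
  have hlt : v.valuation K (psi e1 e2 e3 x) < 1 := lt_one_of v (Or.inr hk)
  obtain ⟨f0, fo⟩ := loc3a v i1 i2 i3 hx h12 h13 h23 u12 u13 u23 hlt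
  have hψA : psi e1 e2 e3 x ∈ A v := by unfold psi ff fd fdd; (repeat (first | assumption | exact zero_mem _ | exact one_mem _ | exact natCast_mem _ _ | exact ofNat_mem _ _ | apply add_mem | apply sub_mem | apply mul_mem | apply pow_mem | apply neg_mem))
  have h64 : (64 : K) * ff e1 e2 e3 x ^ 3 ≠ 0 := mul_ne_zero (by norm_num) (pow_ne_zero _ f0)
  have ho64 : o v ((64 : K) * ff e1 e2 e3 x ^ 3) = 0 := by
    rw [o_mul v (by norm_num) (pow_ne_zero _ f0), o_pow, fo]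
    have : (64 : K) = 2 ^ 6 := by norm_num
    rw [this, o_pow, h2]; simp
  have hrest : X * psi e1 e2 e3 x ^ 2 = 64 * ff e1 e2 e3 x ^ 3 +
      psi e1 e2 e3 x * (x * psi e1 e2 e3 x - 8 * ff e1 e2 e3 x * fd e1 e2 e3 x) := by
    linear_combination hX
  have hr : v.valuation K (psi e1 e2 e3 x *
      (x * psi e1 e2 e3 x - 8 * ff e1 e2 e3 x * fd e1 e2 e3 x)) < 1 := by
    apply lt_one_mul v hlt
    have h1 : ff e1 e2 e3 x ∈ A v := by unfold ff; (repeat (first | assumption | exact zero_mem _ | exact one_mem _ | exact natCast_mem _ _ | exact ofNat_mem _ _ | apply add_mem | apply sub_mem | apply mul_mem | apply pow_mem | apply neg_mem))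
    have h2 : fd e1 e2 e3 x ∈ A v := by unfold fd; (repeat (first | assumption | exact zero_mem _ | exact one_mem _ | exact natCast_mem _ _ | exact ofNat_mem _ _ | apply add_mem | apply sub_mem | apply mul_mem | apply pow_mem | apply neg_mem))
    (repeat (first | assumption | exact zero_mem _ | exact one_mem _ | exact natCast_mem _ _ | exact ofNat_mem _ _ | apply add_mem | apply sub_mem | apply mul_mem | apply pow_mem | apply neg_mem))
  rw [lt_one_iff] at hr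
  have hs := o_add_lt' v h64 (y := psi e1 e2 e3 x *
      (x * psi e1 e2 e3 x - 8 * ff e1 e2 e3 x * fd e1 e2 e3 x)) (by rw [ho64]; exact hr)
  rw [← hrest, ho64] at hs
  obtain ⟨s1, s2⟩ := hs
  have hX0 := left_ne_zero_of_mul s1
  refine ⟨hX0, ?_⟩
  rw [o_mul v hX0 (pow_ne_zero _ hψ), o_pow] at s2
  push_cast at s2
  omega

lemma loc4 (v : Pl K) {e1 e2 e3 x t : K} (i1 : e1 ∈ A v) (i2 : e2 ∈ A v)
    (i3 : e3 ∈ A v) (hx : x ∈ A v) (ht : t ∈ A v) (h2 : o v (2 : K) = 0) (h3 : o v (3 : K) = 0)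
    (hψt : psi e1 e2 e3 t = 0) (hft : ff e1 e2 e3 t ≠ 0) (hfto : o v (ff e1 e2 e3 t) = 0)
    (hxt : x - t ≠ 0) (hk : 0 < o v (x - t)) :
    psi e1 e2 e3 x ≠ 0 ∧ o v (psi e1 e2 e3 x) = o v (x - t) := by
  have h12 : (12 : K) * ff e1 e2 e3 t ≠ 0 := mul_ne_zero (by norm_num) hft
  have ho12 : o v ((12 : K) * ff e1 e2 e3 t) = 0 := by
    rw [o_mul v (by norm_num) hft, hfto]
    have : (12 : K) = 2 ^ 2 * 3 := by norm_num
    rw [this, o_mul v (by norm_num) (by norm_num), o_pow, h2, h3]; simp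
  have hid : psi e1 e2 e3 x = (x - t) * (12 * ff e1 e2 e3 t + (x - t) *
      (3 * (x ^ 2 + 2 * x * t + 3 * t ^ 2) + 4 * (e1 + e2 + e3) * (x + 2 * t)
        + 6 * (e1 * e2 + e1 * e3 + e2 * e3))) := by
    have : psi e1 e2 e3 x = psi e1 e2 e3 x - psi e1 e2 e3 t := by rw [hψt, sub_zero]
    rw [this]
    simp only [psi, ff, fd, fdd]
    ring
  have hr : v.valuation K ((x - t) *
      (3 * (x ^ 2 + 2 * x * t + 3 * t ^ 2) + 4 * (e1 + e2 + e3) * (x + 2 * t)
        + 6 * (e1 * e2 + e1 * e3 + e2 * e3))) < 1 := by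
    apply lt_one_mul v (lt_one_of v (Or.inr hk))
    (repeat (first | assumption | exact zero_mem _ | exact one_mem _ | exact natCast_mem _ _ | exact ofNat_mem _ _ | apply add_mem | apply sub_mem | apply mul_mem | apply pow_mem | apply neg_mem))
  rw [lt_one_iff] at hr
  have hs := o_add_lt' v h12 (y := (x - t) *
      (3 * (x ^ 2 + 2 * x * t + 3 * t ^ 2) + 4 * (e1 + e2 + e3) * (x + 2 * t)
        + 6 * (e1 * e2 + e1 * e3 + e2 * e3))) (by rw [ho12]; exact hr)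
  obtain ⟨s1, s2⟩ := hs
  rw [ho12] at s2
  refine ⟨by rw [hid]; exact mul_ne_zero hxt s1, ?_⟩
  rw [hid, o_mul v hxt s1, s2, add_zero]

lemma loc6 (v : Pl K) {e1 e2 e3 x : K} (i1 : e1 ∈ A v) (i2 : e2 ∈ A v)
    (i3 : e3 ∈ A v) (hx : o v x < 0) (h3 : o v (3 : K) = 0) :
    psi e1 e2 e3 x ≠ 0 ∧ o v (psi e1 e2 e3 x) = 4 * o v x := by
  have hx0 : x ≠ 0 := by rintro rfl; simp at hx
  have hw : x⁻¹ ∈ A v := mem_A_of v (by rw [o_inv]; omega)
  set r := 4 * (e1 + e2 + e3) + 6 * (e1 * e2 + e1 * e3 + e2 * e3) * x⁻¹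
    + 12 * (e1 * e2 * e3) * x⁻¹ ^ 2
    + (4 * (e1 + e2 + e3) * (e1 * e2 * e3) - (e1 * e2 + e1 * e3 + e2 * e3) ^ 2) * x⁻¹ ^ 3 with hr
  have hrA : r ∈ A v := by rw [hr]; (repeat (first | assumption | exact zero_mem _ | exact one_mem _ | exact natCast_mem _ _ | exact ofNat_mem _ _ | apply add_mem | apply sub_mem | apply mul_mem | apply pow_mem | apply neg_mem))
  have hid : psi e1 e2 e3 x = 3 * x ^ 4 + x ^ 3 * r := by
    rw [hr]
    simp only [psi, ff, fd, fdd]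
    field_simp
    ring
  have h30 : (3 : K) * x ^ 4 ≠ 0 := mul_ne_zero (by norm_num) (pow_ne_zero _ hx0)
  have ho3 : o v ((3 : K) * x ^ 4) = 4 * o v x := by
    rw [o_mul v (by norm_num) (pow_ne_zero _ hx0), o_pow, h3]; simp
  have hs := o_add_lt' v h30 (y := x ^ 3 * r) (by
    rcases eq_or_ne r 0 with h | h
    · left; rw [h, mul_zero]
    · right
      rw [ho3, o_mul v (pow_ne_zero _ hx0) h, o_pow]
      have := o_nonneg v hrA
      push_cast
      omega)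
  rw [← hid, ho3] at hs
  exact hs

/-- the combined local statement -/
lemma loc5 (v : Pl K) {e1 e2 e3 t xB yB x y X3 Y3 X r : K} (i1 : e1 ∈ A v) (i2 : e2 ∈ A v)
    (i3 : e3 ∈ A v) (h12 : e1 ≠ e2) (h13 : e1 ≠ e3) (h23 : e2 ≠ e3)
    (u12 : o v (e1 - e2) = 0) (u13 : o v (e1 - e3) = 0) (u23 : o v (e2 - e3) = 0)
    (h2 : o v (2 : K) = 0) (h3 : o v (3 : K) = 0)
    (ht : t ∈ A v) (hψt : psi e1 e2 e3 t = 0) (hft : ff e1 e2 e3 t ≠ 0)
    (hfto : o v (ff e1 e2 e3 t) = 0)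
    (hxB : xB ∈ A v) (hyB0 : yB ≠ 0) (hyB : o v yB = 0)
    (hxy : y ^ 2 = ff e1 e2 e3 x) (hψ : psi e1 e2 e3 x ≠ 0)
    (hX3 : (X3 - x) * psi e1 e2 e3 x ^ 2 = 64 * ff e1 e2 e3 x ^ 3
        - 8 * ff e1 e2 e3 x * fd e1 e2 e3 x * psi e1 e2 e3 x)
    (hY3 : Y3 ^ 2 = ff e1 e2 e3 X3)
    (hX : X3 ≠ xB → X * (X3 - xB) ^ 2 = numr e1 e2 e3 X3 xB (Y3 * yB))
    (hr : X - xB = r ^ 2) (hxt : x ≠ t) :
    Even (o v (psi e1 e2 e3 x)) ∧ Even (o v (x - t)) := by
  by_cases hxA : x ∈ A v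
  · have hψA : psi e1 e2 e3 x ∈ A v := by unfold psi ff fd fdd; (repeat (first | assumption | exact zero_mem _ | exact one_mem _ | exact natCast_mem _ _ | exact ofNat_mem _ _ | apply add_mem | apply sub_mem | apply mul_mem | apply pow_mem | apply neg_mem))
    have hE : Even (o v (psi e1 e2 e3 x)) := by
      rcases (o_nonneg v hψA).eq_or_lt with hk | hk
      · rw [← hk]; exact Even.zero
      · obtain ⟨X30, oX3⟩ := loc3 v i1 i2 i3 hxA h12 h13 h23 u12 u13 u23 h2 hψ hk hX3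
        have hlt : o v X3 < 0 := by omega
        obtain ⟨n, hn, on1, on2, hY30⟩ := loc1 v i1 i2 i3 hlt hY3
        have hne : X3 ≠ xB := by
          rintro rfl
          exact absurd (o_nonneg v hxB) (by omega)
        obtain ⟨g1, g2⟩ := loc2 v i1 i2 i3 hxB hyB0 hyB h2 hn on1 on2 hY30 (hX hne)
        rw [hr, o_pow] at g2
        have : o v (psi e1 e2 e3 x) = n := by omega
        rw [this, ← g2]
        exact even_two.mul_right _
    refine ⟨hE, ?_⟩
    have hxtA : x - t ∈ A v := sub_mem hxA ht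
    rcases (o_nonneg v hxtA).eq_or_lt with hk | hk
    · rw [← hk]; exact Even.zero
    · rw [← (loc4 v i1 i2 i3 hxA ht h2 h3 hψt hft hfto (sub_ne_zero.mpr hxt) hk).2]
      exact hE
  · obtain ⟨x0, hlt⟩ := not_mem_A v hxA
    obtain ⟨n, hn, on1, on2, hy0⟩ := loc1 v i1 i2 i3 hlt hxy
    refine ⟨?_, ?_⟩
    · rw [(loc6 v i1 i2 i3 hlt h3).2, on1]
      exact ⟨-4 * n, by ring⟩
    · rw [(o_sub_int v hlt ht).2, on1]
      exact ⟨-n, by ring⟩

end Pool.Agent.Helper80.UC
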