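import Mathlib
import Pool.Agent.Helper80.UC.Loc

set_option autoImplicit false

open WeierstrassCurve IsDedekindDomain NumberField

namespace Pool.Agent.Helper80.UC

open Pool.Agent.H437R2.Man.MW

/-- the set of the next round -/
def DD {L : Type} [Field L] (e1 e2 e3 t : L) : Set L :=
  {x | (∃ y, y ^ 2 = ff e1 e2 e3 x) ∧ (∃ r, r ^ 2 = x + e1) ∧ (∃ r, r ^ 2 = psi e1 e2 e3 x) ∧
    ∃ r, r ^ 2 = x - t}

/-- five branch points: `-e1, -e2, -e3, ∞` and `-a` -/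
def A5 {L : Type} [Field L] (e1 e2 e3 a : L) : Set L :=
  {x | (∃ y, y ^ 2 = ff e1 e2 e3 x) ∧ ∃ r, r ^ 2 = x + a}

section fld

variable {L : Type} [Field L]

/-- coordinates -/
def coord {e1 e2 e3 : L} (P : Pt e1 e2 e3) : L × L := match P with
  | 0 => (0, 0)
  | .some x y _ => (x, y)

lemma fin_sq (F : Set L) (hF : F.Finite) (g : L → L) : {y : L | ∃ x ∈ F, y ^ 2 = g x}.Finite := by
  have : {y : L | ∃ x ∈ F, y ^ 2 = g x} = ⋃ x ∈ F, {y : L | y ^ 2 = g x} := by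
    ext y; simp
  rw [this]
  refine hF.biUnion fun x _ => ?_
  by_cases h : ∃ s, s ^ 2 = g x
  · obtain ⟨s, hs⟩ := h
    refine (Set.toFinite {s, -s}).subset ?_
    intro y hy
    have hy' : y ^ 2 = s ^ 2 := by rw [hs]; exact hy
    rcases sq_eq_sq_iff_eq_or_eq_neg.mp hy' with h | h <;> simp [h]
  · convert Set.finite_empty
    ext y
    simp only [Set.mem_setOf_eq, Set.mem_empty_iff_false, iff_false]
    exact fun hy => h ⟨y, hy⟩

lemma fin_pts {e1 e2 e3 : L} (F : Set L) (hF : F.Finite) :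
    {Q : Pt e1 e2 e3 | Q = 0 ∨ ∃ x y h, Q = Affine.Point.some x y h ∧ x ∈ F}.Finite := by
  have h2 : {Q : Pt e1 e2 e3 | ∃ x y h, Q = Affine.Point.some x y h ∧ x ∈ F}.Finite := by
    have himg : (coord '' {Q : Pt e1 e2 e3 | ∃ x y h, Q = Affine.Point.some x y h ∧ x ∈ F}).Finite := by
      refine (hF.prod (fin_sq F hF (fun x => ff e1 e2 e3 x))).subset ?_
      rintro _ ⟨Q, ⟨x, y, h, rfl, hx⟩, rfl⟩
      exact ⟨hx, x, hx, crv_eqn.mp h.1⟩
    refine Set.Finite.of_finite_image himg ?_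
    rintro Q ⟨x, y, h, rfl, hx⟩ Q' ⟨x', y', h', rfl, hx'⟩ heq
    simp only [coord, Prod.mk.injEq] at heq
    obtain ⟨rfl, rfl⟩ := heq
    rfl
  refine ((Set.finite_singleton (0 : Pt e1 e2 e3)).union h2).subset ?_
  rintro Q (h | h)
  · exact Or.inl h
  · exact Or.inr h

end fld

variable {K : Type} [Field K] [NumberField K]

lemma reps3 [DecidableEq K] {e1 e2 e3 : K} (h12 : e1 ≠ e2) (h13 : e1 ≠ e3) (h23 : e2 ≠ e3) :
    ∃ U : Finset (Pt e1 e2 e3), ∀ P : Pt e1 e2 e3, ∃ u ∈ U, ∃ Q : Pt e1 e2 e3,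
      P = u + (Q + Q + Q) := by
  classical
  have : AddGroup.FG (Pt e1 e2 e3) := pt_fg h12 h13 h23
  have h := AddSubgroup.finiteIndex_range_nsmulAddMonoidHom_of_fg (Pt e1 e2 e3) (n := 3) (by norm_num)
  have : Finite (Pt e1 e2 e3 ⧸ (nsmulAddMonoidHom (α := Pt e1 e2 e3) 3).range) :=
    AddSubgroup.finite_quotient_of_finiteIndex
  have := Fintype.ofFinite (Pt e1 e2 e3 ⧸ (nsmulAddMonoidHom (α := Pt e1 e2 e3) 3).range)
  refine ⟨Finset.univ.image (fun q : Pt e1 e2 e3 ⧸ (nsmulAddMonoidHom (α := Pt e1 e2 e3) 3).range =>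
    q.out), fun u => ?_⟩
  refine ⟨(QuotientAddGroup.mk (s := (nsmulAddMonoidHom (α := Pt e1 e2 e3) 3).range) u).out,
    Finset.mem_image_of_mem _ (Finset.mem_univ _), ?_⟩
  have h1 : QuotientAddGroup.mk (s := (nsmulAddMonoidHom (α := Pt e1 e2 e3) 3).range)
      (QuotientAddGroup.mk (s := (nsmulAddMonoidHom (α := Pt e1 e2 e3) 3).range) u).out =
      QuotientAddGroup.mk u := QuotientAddGroup.out_eq' _
  rw [QuotientAddGroup.eq] at h1
  obtain ⟨w, hw⟩ := h1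
  refine ⟨w, ?_⟩
  rw [nsmulAddMonoidHom_apply] at hw
  have : w + w + w = 3 • w := by rw [succ_nsmul, two_nsmul]
  rw [this, hw, add_neg_cancel_left]

lemma psi_fin {e1 e2 e3 : K} : {x : K | psi e1 e2 e3 x = 0}.Finite := by
  have h : gPs e1 e2 e3 ≠ 0 := by
    intro h0
    have := gPs_deg e1 e2 e3
    rw [h0] at this
    simp at this
  refine (Polynomial.finite_setOf_isRoot h).subset ?_
  intro x hx
  simp only [Set.mem_setOf_eq, Polynomial.IsRoot.def, gPs_eval]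
  exact hx

/-- global statement over the field where everything is a triple -/
lemma roundW [DecidableEq K] {e1 e2 e3 t xB yB : K} (h12 : e1 ≠ e2) (h13 : e1 ≠ e3)
    (h23 : e2 ≠ e3) (hψt : psi e1 e2 e3 t = 0)
    (hB : (crv e1 e2 e3).toAffine.Nonsingular xB yB) (hyB : yB ≠ 0)
    (H : ∀ (L : Type) [Field L] [NumberField L] (φ : K →+* L),
      (DD (φ e1) (φ e2) (φ e3) (φ t)).Finite) :
    {x : K | ∃ (y : K) (h : (crv e1 e2 e3).toAffine.Nonsingular x y) (X Y : K)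
      (hX : (crv e1 e2 e3).toAffine.Nonsingular X Y),
      (Affine.Point.some x y h + Affine.Point.some x y h + Affine.Point.some x y h) +
        Affine.Point.some xB yB hB = Affine.Point.some X Y hX ∧ ∃ r, X - xB = r ^ 2}.Finite := by
  have hft := ff_ne_of_psi h12 h13 h23 hψt
  have d12 := sub_ne_zero.mpr h12
  have d13 := sub_ne_zero.mpr h13
  have d23 := sub_ne_zero.mpr h23
  obtain ⟨T1, hT10, hT1⟩ := crv_class h12 h13 h23
  set S : Set (Pl K) := {v | e1 ∉ A v} ∪ {v | e2 ∉ A v} ∪ {v | e3 ∉ A v} ∪ {v | t ∉ A v} ∪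
    {v | xB ∉ A v} ∪ {v | o v yB ≠ 0} ∪ {v | o v (e1 - e2) ≠ 0} ∪ {v | o v (e1 - e3) ≠ 0} ∪
    {v | o v (e2 - e3) ≠ 0} ∪ {v | o v (2 : K) ≠ 0} ∪ {v | o v (3 : K) ≠ 0} ∪
    {v | o v (ff e1 e2 e3 t) ≠ 0} with hSdef
  have hS : S.Finite := by
    rw [hSdef]
    refine ((((((((((((fin_A _).union (fin_A _)).union (fin_A _)).union (fin_A _)).union
      (fin_A _)).union (fin_o hyB)).union (fin_o d12)).union (fin_o d13)).union (fin_o d23)).union
      (fin_o two_ne_zero)).union (fin_o three_ne_zero)).union (fin_o hft))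
  obtain ⟨T2, hT20, hT2⟩ := sel2 S hS
  classical
  obtain ⟨L, i1, i2, φ, hφ⟩ := ext_pow (T1 ∪ T2) 2 (by norm_num)
  have hbad : ({-e1, -e2, -e3, t} ∪ {x : K | psi e1 e2 e3 x = 0} : Set K).Finite :=
    (Set.toFinite _).union psi_fin
  have hgood := (H L φ).preimage φ.injective.injOn
  refine (hbad.union hgood).subset ?_
  rintro x ⟨y, h, X, Y, hX, hP, r, hr⟩
  by_cases hxb : x ∈ ({-e1, -e2, -e3, t} ∪ {x : K | psi e1 e2 e3 x = 0} : Set K)
  · exact Or.inl hxb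
  · right
    simp only [Set.mem_union, Set.mem_insert_iff, Set.mem_singleton_iff, Set.mem_setOf_eq,
      not_or] at hxb
    obtain ⟨⟨b1, b2, b3, b4⟩, b5⟩ := hxb
    have hxy : y ^ 2 = ff e1 e2 e3 x := crv_eqn.mp h.1
    have hff : ff e1 e2 e3 x ≠ 0 := by
      intro h0
      rcases ff_zero h0 with h' | h' | h'
      · exact b1 h'
      · exact b2 h'
      · exact b3 h'
    have hy0 : y ≠ 0 := by
      rintro rfl
      apply hff
      rw [← hxy]; ring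
    obtain ⟨X3, Y3, H3, h3Q, hX3⟩ := triple_pt h hy0 b5
    have hY3 : Y3 ^ 2 = ff e1 e2 e3 X3 := crv_eqn.mp H3.1
    rw [h3Q] at hP
    have hXn : X3 ≠ xB → X * (X3 - xB) ^ 2 = numr e1 e2 e3 X3 xB (Y3 * yB) := by
      intro hne
      have hadd := xRep_add H3 hB hne
      rw [hP] at hadd
      have h3 := congrFun hadd 0
      simp only [Affine.Point.xRep, Matrix.cons_val_zero] at h3
      rw [h3, div_mul_cancel₀ _ (pow_ne_zero _ (sub_ne_zero.mpr hne))]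
    have hloc : ∀ v : Pl K, v ∉ S → Even (o v (psi e1 e2 e3 x)) ∧ Even (o v (x - t)) := by
      intro v hv
      simp only [hSdef, Set.mem_union, Set.mem_setOf_eq, not_or, not_not] at hv
      obtain ⟨⟨⟨⟨⟨⟨⟨⟨⟨⟨⟨v1, v2⟩, v3⟩, v4⟩, v5⟩, v6⟩, v7⟩, v8⟩, v9⟩, v10⟩, v11⟩, v12⟩ := hv
      exact loc5 v v1 v2 v3 h12 h13 h23 v7 v8 v9 v10 v11 v4 hψt hft v12 v5 hyB v6 hxy b5 hX3 hY3
        hXn hr b4
    obtain ⟨t1, ht1, _, _, _, _, r1, _, _, _, _, _, w1, _, _⟩ := hT1 x y hy0 hxy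
    obtain ⟨t2, ht2, r2, _, w2⟩ := hT2 _ b5 (fun v hv => (hloc v hv).1)
    obtain ⟨t3, ht3, r3, _, w3⟩ := hT2 _ (sub_ne_zero.mpr b4) (fun v hv => (hloc v hv).2)
    obtain ⟨s1, hs1⟩ := hφ t1 (Finset.mem_union_left _ ht1)
    obtain ⟨s2, hs2⟩ := hφ t2 (Finset.mem_union_right _ ht2)
    obtain ⟨s3, hs3⟩ := hφ t3 (Finset.mem_union_right _ ht3)
    refine ⟨⟨φ y, ?_⟩, ⟨s1 * φ r1, ?_⟩, ⟨s2 * φ r2, ?_⟩, ⟨s3 * φ r3, ?_⟩⟩
    · rw [← map_pow, hxy, ff_map]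
    · rw [mul_pow, hs1, ← map_pow, ← map_mul, ← w1, map_add]
    · rw [mul_pow, hs2, ← map_pow, ← map_mul, ← w2, psi_map]
    · rw [mul_pow, hs3, ← map_pow, ← map_mul, ← w3, map_sub]

lemma round' {e1 e2 e3 t a b : K} (h12 : e1 ≠ e2) (h13 : e1 ≠ e3)
    (h23 : e2 ≠ e3) (hψt : psi e1 e2 e3 t = 0) (hb : b ^ 2 = ff e1 e2 e3 (-a)) (hb0 : b ≠ 0)
    (H : ∀ (L : Type) [Field L] [NumberField L] (φ : K →+* L),
      (DD (φ e1) (φ e2) (φ e3) (φ t)).Finite) :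
    (A5 e1 e2 e3 a).Finite := by
  classical
  obtain ⟨U, hU⟩ := reps3 h12 h13 h23
  obtain ⟨L, i1, i2, φ, hφ⟩ := thirds h12 h13 h23 U
  obtain ⟨F, hF⟩ := exists_mapPt φ e1 e2 e3
  have hinj := φ.injective
  have hB : (crv e1 e2 e3).toAffine.Nonsingular (-a) b := crv_nonsing h12 h13 h23 hb
  obtain ⟨hB', hFB⟩ := hF (-a) b hB
  have hW := roundW (K := L) (e1 := φ e1) (e2 := φ e2) (e3 := φ e3) (t := φ t)
    (fun h => h12 (hinj h)) (fun h => h13 (hinj h)) (fun h => h23 (hinj h))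
    (by rw [← psi_map, hψt, map_zero]) hB' (by simpa using hb0)
    (fun L' _ _ φ' => H L' (φ'.comp φ))
  have hZ := fin_pts (e1 := φ e1) (e2 := φ e2) (e3 := φ e3) _ hW
  have hZ' := hZ.image (fun Q : Pt (φ e1) (φ e2) (φ e3) =>
    (coord ((Q + Q + Q) + Affine.Point.some (φ (-a)) (φ b) hB')).1)
  refine fin_of_map φ hZ' ?_
  rintro x ⟨⟨y, hxy⟩, r, hr⟩
  have hP : (crv e1 e2 e3).toAffine.Nonsingular x y := crv_nonsing h12 h13 h23 hxy
  obtain ⟨u, hu, Q0, hQ0⟩ := hU (Affine.Point.some x y hP - Affine.Point.some (-a) b hB)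
  obtain ⟨Qu, hQu⟩ := hφ (Classical.decEq L) F (map_zero F) hF u hu
  obtain ⟨hP', hFP⟩ := hF x y hP
  have key : ((Qu + F Q0) + (Qu + F Q0) + (Qu + F Q0)) + Affine.Point.some (φ (-a)) (φ b) hB'
      = Affine.Point.some (φ x) (φ y) hP' := by
    have h1 : (Qu + F Q0) + (Qu + F Q0) + (Qu + F Q0) = (Qu + Qu + Qu) + (F Q0 + F Q0 + F Q0) := by
      abel
    have h2 : (F Q0 + F Q0 + F Q0) = F (Q0 + Q0 + Q0) := by rw [map_add, map_add]
    rw [h1, h2, hQu, ← map_add, ← hQ0, ← hFB, ← map_add, sub_add_cancel, hFP]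
  refine ⟨Qu + F Q0, ?_, ?_⟩
  · rcases hQ : Qu + F Q0 with _ | ⟨x', y', h'⟩
    · exact Or.inl rfl
    · right
      refine ⟨x', y', h', rfl, y', h', φ x, φ y, hP', ?_, φ r, ?_⟩
      · rw [← hQ]; exact key
      · rw [← map_pow, hr, ← map_sub]; congr 1; ring
  · simp only [key, coord]

/-- **The round lemma.** -/
theorem round {e1 e2 e3 t a : K} (h12 : e1 ≠ e2) (h13 : e1 ≠ e3)
    (h23 : e2 ≠ e3) (hψt : psi e1 e2 e3 t = 0) (ha : ff e1 e2 e3 (-a) ≠ 0)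
    (H : ∀ (L : Type) [Field L] [NumberField L] (φ : K →+* L),
      (DD (φ e1) (φ e2) (φ e3) (φ t)).Finite) :
    (A5 e1 e2 e3 a).Finite := by
  obtain ⟨L, i1, i2, φ, hφ⟩ := ext_pow ({ff e1 e2 e3 (-a)} : Finset K) 2 (by norm_num)
  obtain ⟨b, hb⟩ := hφ _ (Finset.mem_singleton_self _)
  have hinj := φ.injective
  have hb' : b ^ 2 = ff (φ e1) (φ e2) (φ e3) (-(φ a)) := by
    rw [hb, ff_map, map_neg]
  have hb0 : b ≠ 0 := by
    rintro rfl
    apply ha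
    apply hinj
    rw [map_zero, ← hb]; ring
  refine fin_of_map φ (round' (K := L) (fun h => h12 (hinj h)) (fun h => h13 (hinj h))
    (fun h => h23 (hinj h)) (t := φ t) (by rw [← psi_map, hψt, map_zero]) hb' hb0
    (fun L' _ _ φ' => H L' (φ'.comp φ))) ?_
  rintro x ⟨⟨y, hy⟩, r, hr⟩
  refine ⟨⟨φ y, ?_⟩, φ r, ?_⟩
  · rw [← map_pow, hy, ff_map]
  · rw [← map_pow, hr, map_add]

end Pool.Agent.Helper80.UC
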