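import Mathlib
import Pool.Agent.Helper80.UC.Round
import Pool.Graph.R_seed8.H437R2.Man.Mord

set_option autoImplicit false

open IsDedekindDomain NumberField

namespace Pool.Agent.Helper80.UC

open Pool.Agent.H437R2.Man.MW

lemma ff_w {K : Type} [Field K] {w : K} (hw : w ^ 2 + w + 1 = 0) (x : K) :
    ff 1 w (w ^ 2) x = x ^ 3 + 1 := by
  have h3 : w ^ 3 = 1 := by linear_combination (w - 1) * hw
  simp only [ff]
  linear_combination (x ^ 2 + x * w) * hw + h3

section w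

variable {K : Type} [Field K] [CharZero K]

lemma w_ne {w : K} (hw : w ^ 2 + w + 1 = 0) : (1 : K) ≠ w ∧ (1 : K) ≠ w ^ 2 ∧ w ≠ w ^ 2 := by
  have h3 : w ^ 3 = 1 := by linear_combination (w - 1) * hw
  have h30 : (3 : K) ≠ 0 := by norm_num
  have hw1 : (1 : K) ≠ w := by
    rintro rfl
    apply h30
    linear_combination hw
  have hw0 : w ≠ 0 := by
    rintro rfl
    norm_num at hw
  have hw2 : (1 : K) ≠ w ^ 2 := by
    intro h
    apply hw1
    have h4 : w * (w ^ 2 - 1) = 1 - w := by linear_combination h3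
    have h5 : w ^ 2 - 1 = 0 := by rw [← h]; ring
    rw [h5, mul_zero] at h4
    linear_combination -h4
  have hw3 : w ≠ w ^ 2 := by
    intro h
    apply hw1
    have h4 : w * (w - 1) = 0 := by linear_combination -h
    rcases mul_eq_zero.mp h4 with h5 | h5
    · exact absurd h5 hw0
    · linear_combination -h5
  exact ⟨hw1, hw2, hw3⟩

lemma psi_w {w : K} (hw : w ^ 2 + w + 1 = 0) : psi 1 w (w ^ 2) 0 = 0 := by
  have h3 : w ^ 3 = 1 := by linear_combination (w - 1) * hw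
  simp only [psi, ff, fd, fdd]
  have h1 : w + w ^ 2 + w * w ^ 2 = 0 := by linear_combination w * hw
  have h2 : (1 + w + w ^ 2 : K) = 0 := by linear_combination hw
  have e1 : (2 * ((0 + 1) * (0 + w) * (0 + w ^ 2)) * (6 * 0 + 2 * (1 + w + w ^ 2)) -
      (3 * 0 ^ 2 + 2 * (1 + w + w ^ 2) * 0 + (1 * w + 1 * w ^ 2 + w * w ^ 2)) ^ 2 : K) =
      4 * w ^ 3 * (1 + w + w ^ 2) - (w + w ^ 2 + w * w ^ 2) ^ 2 := by ring
  rw [e1, h1, h2]
  ring

end w

/-- the curves `y² = z³+1`, `z + a` a square. -/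
lemma A5_w {K : Type} [Field K] [NumberField K] {w a : K} (hw : w ^ 2 + w + 1 = 0)
    (ha : ff 1 w (w ^ 2) (-a) ≠ 0) : (A5 1 w (w ^ 2) a).Finite := by
  obtain ⟨h1, h2, h3⟩ := w_ne hw
  refine round h1 h2 h3 (psi_w hw) ha ?_
  intro L _ _ φ
  have hM := Pool.Agent.H437R2.Man.mordell L
  refine (hM.image (fun r => r ^ 2)).subset ?_
  rintro x ⟨⟨y, hy⟩, -, -, r, hr⟩
  rw [map_zero, sub_zero] at hr
  refine ⟨r, ⟨y, ?_⟩, hr⟩
  rw [hy, map_one, map_pow, ff_w (by rw [← map_pow, ← map_add, ← map_one φ, ← map_add, hw, map_zero]), ← hr]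
  ring

section moebius

variable {K : Type} [Field K] [CharZero K]

/-- `κ` -/
noncomputable def kap (e1 e2 e3 t : K) : K :=
  (fd e1 e2 e3 t / (6 * ff e1 e2 e3 t)) ^ 3 - 1 / (4 * ff e1 e2 e3 t)

lemma kap_ne {e1 e2 e3 t : K} (h12 : e1 ≠ e2) (h13 : e1 ≠ e3) (h23 : e2 ≠ e3)
    (h : psi e1 e2 e3 t = 0) : kap e1 e2 e3 t ≠ 0 := by
  have hf := ff_ne_of_psi h12 h13 h23 h
  have d12 := sub_ne_zero.mpr h12
  have d13 := sub_ne_zero.mpr h13
  have d23 := sub_ne_zero.mpr h23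
  have hid : fd e1 e2 e3 t ^ 3 - 54 * ff e1 e2 e3 t ^ 2 =
      2 * ((e1 - e2) * (e1 - e3) * (e2 - e3)) ^ 2 := by
    have h' : (fdd e1 e2 e3 t ^ 2 / 2 - 9 * fd e1 e2 e3 t) * psi e1 e2 e3 t = 0 := by
      rw [h, mul_zero]
    have : fd e1 e2 e3 t ^ 3 - 54 * ff e1 e2 e3 t ^ 2 -
      2 * ((e1 - e2) * (e1 - e3) * (e2 - e3)) ^ 2 =
        (fdd e1 e2 e3 t ^ 2 / 2 - 9 * fd e1 e2 e3 t) * psi e1 e2 e3 t := by
      simp only [psi, ff, fd, fdd]
      ring
    rw [h'] at this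
    linear_combination this
  have hk : kap e1 e2 e3 t * (216 * ff e1 e2 e3 t ^ 3) =
      fd e1 e2 e3 t ^ 3 - 54 * ff e1 e2 e3 t ^ 2 := by
    simp only [kap]
    field_simp
    ring
  intro h0
  rw [h0, zero_mul, hid] at hk
  have : (2 : K) * ((e1 - e2) * (e1 - e3) * (e2 - e3)) ^ 2 ≠ 0 :=
    mul_ne_zero two_ne_zero (pow_ne_zero _ (mul_ne_zero (mul_ne_zero d12 d13) d23))
  exact this hk.symm

/-- Moebius map -/
noncomputable def zz (e1 e2 e3 t β x : K) : K :=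
  β * (1 / (x - t) + fd e1 e2 e3 t / (6 * ff e1 e2 e3 t))

lemma zz_cube {e1 e2 e3 t β x : K} (hf : ff e1 e2 e3 t ≠ 0)
    (h : psi e1 e2 e3 t = 0) (hβ : β ^ 3 * kap e1 e2 e3 t = -1) (hx : x ≠ t) :
    zz e1 e2 e3 t β x ^ 3 + 1 =
      β ^ 3 * psi e1 e2 e3 x / (12 * ff e1 e2 e3 t * (x - t) ^ 4) := by
  have hx' := sub_ne_zero.mpr hx
  have hψ : psi e1 e2 e3 x = 12 * ff e1 e2 e3 t * (x - t) + 6 * fd e1 e2 e3 t * (x - t) ^ 2
      + 2 * fdd e1 e2 e3 t * (x - t) ^ 3 + 3 * (x - t) ^ 4 := by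
    have : psi e1 e2 e3 x = psi e1 e2 e3 x - psi e1 e2 e3 t := by rw [h, sub_zero]
    rw [this]
    simp only [psi, ff, fd, fdd]
    ring
  have h1 : (1 : K) = - (β ^ 3 * kap e1 e2 e3 t) := by rw [hβ]; ring
  have h' : 2 * ff e1 e2 e3 t * fdd e1 e2 e3 t = fd e1 e2 e3 t ^ 2 := by
    have := h
    simp only [psi] at this
    linear_combination this
  have hfdd : fdd e1 e2 e3 t = fd e1 e2 e3 t ^ 2 / (2 * ff e1 e2 e3 t) := by
    rw [eq_div_iff (mul_ne_zero two_ne_zero hf)]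
    linear_combination h'
  rw [hψ, hfdd]
  conv_lhs => rw [h1]
  simp only [zz, kap]
  field_simp
  ring

lemma zz_sub {e1 e2 e3 t β x : K} (hx : x ≠ t) (he : -e1 ≠ t) :
    zz e1 e2 e3 t β x - zz e1 e2 e3 t β (-e1) = β / (e1 + t) * (x + e1) / (x - t) := by
  have hx' := sub_ne_zero.mpr hx
  have he' : e1 + t ≠ 0 := fun h => he (by linear_combination -h)
  have he'' : -e1 - t ≠ 0 := sub_ne_zero.mpr he
  have : -e1 - t = -(e1 + t) := by ring
  simp only [zz]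
  rw [this]
  field_simp
  ring

lemma zz_inj {e1 e2 e3 t β x x' : K} (hβ : β ≠ 0) (h : zz e1 e2 e3 t β x = zz e1 e2 e3 t β x') :
    x = x' := by
  simp only [zz] at h
  have h1 := mul_left_cancel₀ hβ h
  have h2 : 1 / (x - t) = 1 / (x' - t) := by linear_combination h1
  rw [one_div, one_div, inv_inj] at h2
  linear_combination h2

end moebius

/-- the set of the second round is finite -/
lemma DD_fin {K : Type} [Field K] [NumberField K] {e1 e2 e3 t : K}
    (h12 : e1 ≠ e2) (h13 : e1 ≠ e3) (h23 : e2 ≠ e3) (h : psi e1 e2 e3 t = 0) :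
    (DD e1 e2 e3 t).Finite := by
  classical
  have hf := ff_ne_of_psi h12 h13 h23 h
  have hk := kap_ne h12 h13 h23 h
  -- first extension
  obtain ⟨L1, i1, i2, φ1, H1⟩ := ext_roots
    ({Polynomial.X ^ 2 + Polynomial.X + 1, Polynomial.X ^ 3 - Polynomial.C (-(kap e1 e2 e3 t)⁻¹)} :
      Finset (Polynomial K)) (by
    intro p hp
    simp only [Finset.mem_insert, Finset.mem_singleton] at hp
    rcases hp with rfl | rfl
    · have : (Polynomial.X ^ 2 + Polynomial.X + 1 : Polynomial K).natDegree = 2 := by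
        compute_degree!
      rw [← Polynomial.natDegree_pos_iff_degree_pos, this]; norm_num
    · rw [Polynomial.degree_X_pow_sub_C (by norm_num)]; norm_num)
  obtain ⟨-, w, hw⟩ := H1 _ (Finset.mem_insert_self _ _)
  obtain ⟨-, β, hβ⟩ := H1 _ (Finset.mem_insert_of_mem (Finset.mem_singleton_self _))
  simp only [Polynomial.map_add, Polynomial.map_pow, Polynomial.map_X, Polynomial.map_one,
    Polynomial.eval_add, Polynomial.eval_pow, Polynomial.eval_X, Polynomial.eval_one] at hw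
  simp only [Polynomial.map_sub, Polynomial.map_pow, Polynomial.map_X, Polynomial.map_C,
    Polynomial.eval_sub, Polynomial.eval_pow, Polynomial.eval_X, Polynomial.eval_C] at hβ
  have hβ3 : β ^ 3 * φ1 (kap e1 e2 e3 t) = -1 := by
    have h1 : β ^ 3 = φ1 (-(kap e1 e2 e3 t)⁻¹) := by linear_combination hβ
    rw [h1, ← map_mul, neg_mul, inv_mul_cancel₀ hk, map_neg, map_one]
  have hβ0 : β ≠ 0 := by
    rintro rfl
    norm_num at hβ3
  have he1t : -e1 ≠ t := by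
    rintro rfl
    apply hf
    simp [ff]
  obtain ⟨L, i3, i4, φ2, H2⟩ := ext_pow
    ({β ^ 3 / (12 * φ1 (ff e1 e2 e3 t)), β / φ1 (e1 + t)} : Finset L1) 2 (by norm_num)
  obtain ⟨s1, hs1⟩ := H2 _ (Finset.mem_insert_self _ _)
  obtain ⟨s2, hs2⟩ := H2 _ (Finset.mem_insert_of_mem (Finset.mem_singleton_self _))
  set φ : K →+* L := φ2.comp φ1 with hφ
  have hinj := φ.injective
  -- everything in `L`
  have hwL : (φ2 w) ^ 2 + φ2 w + 1 = 0 := by
    rw [← map_pow, ← map_add, ← map_one φ2, ← map_add, hw, map_zero]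
  have hkm : φ (kap e1 e2 e3 t) = kap (φ e1) (φ e2) (φ e3) (φ t) := by
    simp only [kap, map_sub, map_pow, map_div₀, map_mul, map_one, ff_map, map_ofNat]
    congr 3
    simp only [fd, map_add, map_mul, map_pow, map_ofNat]
  have hβL : (φ2 β) ^ 3 * kap (φ e1) (φ e2) (φ e3) (φ t) = -1 := by
    rw [← hkm, hφ, RingHom.comp_apply, ← map_pow, ← map_mul, hβ3, map_neg, map_one]
  have hfL : ff (φ e1) (φ e2) (φ e3) (φ t) ≠ 0 := by
    rw [← ff_map]; exact fun h0 => hf (hinj (by rw [h0, map_zero]))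
  have hψL : psi (φ e1) (φ e2) (φ e3) (φ t) = 0 := by rw [← psi_map, h, map_zero]
  have heL : -(φ e1) ≠ φ t := by
    rw [← map_neg]; exact fun h0 => he1t (hinj h0)
  have hβL0 : φ2 β ≠ 0 := by simpa using hβ0
  have hA := A5_w (K := L) (a := -(zz (φ e1) (φ e2) (φ e3) (φ t) (φ2 β) (-(φ e1)))) hwL (by
    rw [neg_neg, ff_w hwL, zz_cube hfL hψL hβL heL]
    have hψe : psi (φ e1) (φ e2) (φ e3) (-(φ e1)) ≠ 0 := by
      apply psi_ne (fun h => h12 (hinj h)) (fun h => h13 (hinj h)) (fun h => h23 (hinj h))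
      simp [ff]
    exact div_ne_zero (mul_ne_zero (pow_ne_zero _ hβL0) hψe)
      (mul_ne_zero (mul_ne_zero (by norm_num) hfL) (pow_ne_zero _ (sub_ne_zero.mpr heL))))
  have hfin : (DD e1 e2 e3 t \ {t}).Finite := by
    refine Set.Finite.of_finite_image (f := fun x => zz (φ e1) (φ e2) (φ e3) (φ t) (φ2 β) (φ x))
      (hA.subset ?_) ?_
    · rintro _ ⟨x, ⟨⟨⟨y, hy⟩, ⟨r1, hr1⟩, ⟨r2, hr2⟩, ⟨r3, hr3⟩⟩, hxt⟩, rfl⟩
      have hxt' : x ≠ t := hxt
      have hxL : φ x ≠ φ t := fun h0 => hxt' (hinj h0)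
      have hxL' := sub_ne_zero.mpr hxL
      have hr30 : φ r3 ≠ 0 := by
        intro h0
        apply hxL'
        rw [← map_sub, ← hr3, map_pow, h0]; ring
      refine ⟨⟨s1 * φ r2 / (φ x - φ t) ^ 2, ?_⟩, s2 * φ r1 / φ r3, ?_⟩
      · rw [ff_w hwL, zz_cube hfL hψL hβL hxL, div_pow, mul_pow, hs1, ← map_pow, hr2, psi_map,
          map_div₀, map_mul, map_pow, map_ofNat, ← RingHom.comp_apply, ← hφ, ff_map]
        field_simp
      · rw [← sub_eq_add_neg, zz_sub hxL heL, div_pow, mul_pow, hs2, ← map_pow, hr1, ← map_pow, hr3,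
          map_div₀, ← RingHom.comp_apply, ← hφ, map_add, map_add, map_sub]
    · intro x _ x' _ hxx'
      exact hinj (zz_inj hβL0 hxx')
  exact (hfin.union (Set.finite_singleton t)).subset (by
    intro x hx
    by_cases hxt : x = t
    · exact Or.inr hxt
    · exact Or.inl ⟨hx, hxt⟩)

/-- **Five branch points suffice.** -/
theorem A5_fin {K : Type} [Field K] [NumberField K] {e1 e2 e3 a : K}
    (h12 : e1 ≠ e2) (h13 : e1 ≠ e3) (h23 : e2 ≠ e3) (ha : ff e1 e2 e3 (-a) ≠ 0) :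
    (A5 e1 e2 e3 a).Finite := by
  obtain ⟨L, i1, i2, φ, H⟩ := ext_roots ({gPs e1 e2 e3} : Finset (Polynomial K)) (by
    intro p hp
    rw [Finset.mem_singleton] at hp
    subst hp
    rw [← Polynomial.natDegree_pos_iff_degree_pos, gPs_deg]; norm_num)
  obtain ⟨-, t, ht⟩ := H _ (Finset.mem_singleton_self _)
  rw [gPs_map, gPs_eval] at ht
  have hinj := φ.injective
  refine fin_of_map φ (round (K := L) (a := φ a) (fun h => h12 (hinj h)) (fun h => h13 (hinj h))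
    (fun h => h23 (hinj h)) ht ?_ ?_) ?_
  · rw [← map_neg, ← ff_map]
    exact fun h0 => ha (hinj (by rw [h0, map_zero]))
  · intro L' _ _ φ'
    have hinj' := φ'.injective
    exact DD_fin (fun h => h12 (hinj (hinj' h))) (fun h => h13 (hinj (hinj' h)))
      (fun h => h23 (hinj (hinj' h))) (by rw [← psi_map, ht, map_zero])
  · rintro x ⟨⟨y, hy⟩, r, hr⟩
    refine ⟨⟨φ y, ?_⟩, φ r, ?_⟩
    · rw [← map_pow, hy, ff_map]
    · rw [← map_pow, hr, map_add]

end Pool.Agent.Helper80.UC
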