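import Mathlib
import Pool.Agent.Helper80.UC.BT

set_option autoImplicit false

open IsDedekindDomain NumberField Polynomial

namespace Pool.Agent.Helper80.UC

variable {K : Type} [Field K] [NumberField K]

lemma o_prod (v : Pl K) {ι : Type*} (s : Finset ι) (g : ι → K) (h : ∀ i ∈ s, g i ≠ 0) :
    o v (∏ i ∈ s, g i) = ∑ i ∈ s, o v (g i) := by
  classical
  induction s using Finset.induction_on with
  | empty => simp
  | insert a s ha ih =>
    rw [Finset.prod_insert ha, Finset.sum_insert ha, o_mul v (h _ (Finset.mem_insert_self _ _))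
      (Finset.prod_ne_zero_iff.mpr fun i hi => h i (Finset.mem_insert_of_mem hi)),
      ih fun i hi => h i (Finset.mem_insert_of_mem hi)]

/-- local statement for split polynomials -/
lemma he_loc (v : Pl K) (s : Finset K) (c : K) (hc : c ≠ 0) (hco : o v c = 0)
    (hs : ∀ ρ ∈ s, ρ ∈ A v) (hd : ∀ ρ ∈ s, ∀ ρ' ∈ s, ρ ≠ ρ' → o v (ρ - ρ') = 0)
    {x y : K} (hx : ∀ ρ ∈ s, x ≠ ρ) (hxy : y ^ 2 = c * ∏ ρ ∈ s, (x - ρ))
    {ρ ρ' : K} (hρ : ρ ∈ s) (hρ' : ρ' ∈ s) : Even (o v ((x - ρ) / (x - ρ'))) := by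
  have hn : ∀ ρ ∈ s, x - ρ ≠ 0 := fun ρ hρ => sub_ne_zero.mpr (hx ρ hρ)
  rw [o_div v (hn ρ hρ) (hn ρ' hρ')]
  by_cases hxA : x ∈ A v
  · have key : ∀ ρ ∈ s, Even (o v (x - ρ)) := by
      intro ρ hρ
      have hA : x - ρ ∈ A v := sub_mem hxA (hs ρ hρ)
      rcases (o_nonneg v hA).eq_or_lt with hk | hk
      · rw [← hk]; exact Even.zero
      · have h1 := congrArg (o v) hxy
        rw [o_pow, o_mul v hc (Finset.prod_ne_zero_iff.mpr hn), hco, o_prod v s _ hn,
          Finset.sum_eq_single_of_mem ρ hρ, zero_add] at h1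
        · rw [← h1]
          exact even_two.mul_right _
        · intro τ hτ hne
          have hA' : x - τ ∈ A v := sub_mem hxA (hs τ hτ)
          by_contra hne0
          have hpos : 0 < o v (x - τ) := lt_of_le_of_ne (o_nonneg v hA') (Ne.symm hne0)
          have h2 : v.valuation K (ρ - τ) < 1 := by
            have : ρ - τ = (x - τ) + -(x - ρ) := by ring
            rw [this]
            exact lt_one_add v (lt_one_of v (Or.inr hpos)) (lt_one_neg v (lt_one_of v (Or.inr hk)))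
          exact not_lt_one v (sub_ne_zero.mpr hne.symm) (hd ρ hρ τ hτ hne.symm) h2
    exact (key ρ hρ).sub (key ρ' hρ')
  · obtain ⟨-, hlt⟩ := not_mem_A v hxA
    rw [(o_sub_int v hlt (hs ρ hρ)).2, (o_sub_int v hlt (hs ρ' hρ')).2, sub_self]
    exact Even.zero

/-- **Mordell's conjecture for hyperelliptic curves**, split case. -/
lemma he_split (s : Finset K) (hcard : 5 ≤ s.card) (c : K) (hc : c ≠ 0) :
    {x : K | ∃ y, y ^ 2 = c * ∏ ρ ∈ s, (x - ρ)}.Finite := by
  classical
  have hemb : Nonempty (Fin 5 ↪ s) := by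
    apply Function.Embedding.nonempty_of_card_le
    simpa using hcard
  obtain ⟨f⟩ := hemb
  have hf : ∀ i j : Fin 5, i ≠ j → (f i : K) ≠ f j := fun i j hij h =>
    hij (f.injective (Subtype.ext h))
  set S : Set (Pl K) := {v | o v c ≠ 0} ∪ (⋃ ρ ∈ s, {v | ρ ∉ A v}) ∪
    (⋃ ρ ∈ s, ⋃ ρ' ∈ s, {v | ρ ≠ ρ' ∧ o v (ρ - ρ') ≠ 0}) with hSdef
  have hS : S.Finite := by
    rw [hSdef]
    refine ((fin_o hc).union ?_).union ?_
    · exact s.finite_toSet.biUnion fun ρ _ => fin_A ρ
    · refine s.finite_toSet.biUnion fun ρ _ => s.finite_toSet.biUnion fun ρ' _ => ?_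
      by_cases h : ρ = ρ'
      · simp [h]
      · refine (fin_o (sub_ne_zero.mpr h)).subset ?_
        rintro v ⟨-, hv⟩
        exact hv
  obtain ⟨T, hT0, hT⟩ := sel2 S hS
  obtain ⟨L, i1, i2, φ, hφ⟩ := ext_pow (T ∪ Finset.image (fun i => ((f 0 : K) - f i)⁻¹) Finset.univ) 2
    (by norm_num)
  have hinj := φ.injective
  set e : Fin 5 → K := fun i => ((f 0 : K) - f i)⁻¹ with he
  have hd0 : ∀ i : Fin 5, i ≠ 0 → (f 0 : K) - f i ≠ 0 := fun i hi =>
    sub_ne_zero.mpr (hf 0 i hi.symm)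
  have hene : ∀ i j : Fin 5, i ≠ j → e i ≠ e j := by
    intro i j hij h
    apply hf i j hij
    simp only [he, inv_inj] at h
    linear_combination -h
  have h5 : ff (φ (e 1)) (φ (e 2)) (φ (e 3)) (-(φ (e 4))) ≠ 0 := by
    intro h0
    rcases ff_zero h0 with h | h | h
    · exact hene 4 1 (by decide) (hinj (neg_injective h))
    · exact hene 4 2 (by decide) (hinj (neg_injective h))
    · exact hene 4 3 (by decide) (hinj (neg_injective h))
  have hfin := A5_fin (fun h => hene 1 2 (by decide) (hinj h)) (fun h => hene 1 3 (by decide) (hinj h))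
    (fun h => hene 2 3 (by decide) (hinj h)) h5
  have hfin2 : {x : K | x ∉ s ∧ ∃ y, y ^ 2 = c * ∏ ρ ∈ s, (x - ρ)}.Finite := by
    refine Set.Finite.of_finite_image (f := fun x => φ (1 / (x - f 0))) (hfin.subset ?_) ?_
    · rintro _ ⟨x, ⟨hxs, y, hxy⟩, rfl⟩
      have hx : ∀ ρ ∈ s, x ≠ ρ := fun ρ hρ h => hxs (h ▸ hρ)
      have hx0 : x - f 0 ≠ 0 := sub_ne_zero.mpr (hx _ (f 0).2)
      have key : ∀ i : Fin 5, i ≠ 0 → ∃ r : L, r ^ 2 = φ (1 / (x - f 0)) + φ (e i) := by
        intro i hi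
        have hxi : x - f i ≠ 0 := sub_ne_zero.mpr (hx _ (f i).2)
        have hd0i := hd0 i hi
        have hid : 1 / (x - f 0) + e i = (x - f i) / (x - f 0) * ((f 0 : K) - f i)⁻¹ := by
          simp only [he]
          field_simp
          ring
        obtain ⟨t, ht, b, hb, w⟩ := hT ((x - f i) / (x - f 0)) (div_ne_zero hxi hx0) (by
          intro v hv
          simp only [hSdef, Set.mem_union, Set.mem_iUnion, Set.mem_setOf_eq, not_or, not_exists,
            not_not, not_and] at hv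
          obtain ⟨⟨v1, v2⟩, v3⟩ := hv
          exact he_loc v s c hc v1 (fun ρ hρ => v2 ρ hρ) (fun ρ hρ ρ' hρ' hne => v3 ρ hρ ρ' hρ' hne)
            hx hxy (f i).2 (f 0).2)
        obtain ⟨r1, hr1⟩ := hφ t (Finset.mem_union_left _ ht)
        obtain ⟨r2, hr2⟩ := hφ (((f 0 : K) - f i)⁻¹)
          (Finset.mem_union_right _ (Finset.mem_image_of_mem _ (Finset.mem_univ i)))
        refine ⟨r1 * φ b * r2, ?_⟩
        rw [mul_pow, mul_pow, hr1, hr2, ← map_pow, ← map_mul, ← w, ← map_mul, ← map_add, hid]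
      obtain ⟨r1, h1⟩ := key 1 (by decide)
      obtain ⟨r2, h2⟩ := key 2 (by decide)
      obtain ⟨r3, h3⟩ := key 3 (by decide)
      obtain ⟨r4, h4⟩ := key 4 (by decide)
      refine ⟨⟨r1 * r2 * r3, ?_⟩, r4, h4⟩
      rw [ff, ← h1, ← h2, ← h3]; ring
    · intro x _ x' _ h
      have h1 := hinj h
      rw [one_div, one_div, inv_inj] at h1
      linear_combination h1
  refine (hfin2.union s.finite_toSet).subset ?_
  intro x hx
  by_cases hxs : x ∈ s
  · exact Or.inr hxs
  · exact Or.inl ⟨hxs, hx⟩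

/-- **Mordell's conjecture (Faltings' theorem) for hyperelliptic curves over number fields.** -/
theorem hyperelliptic (F : K[X]) (hsep : F.Separable) (hdeg : 5 ≤ F.natDegree) :
    {x : K | ∃ y, y ^ 2 = F.eval x}.Finite := by
  classical
  obtain ⟨L, i1, i2, φ, H⟩ := ext_roots ({F} : Finset K[X]) (by
    intro p hp
    rw [Finset.mem_singleton] at hp
    subst hp
    rw [← natDegree_pos_iff_degree_pos]; omega)
  obtain ⟨hsp, -⟩ := H F (Finset.mem_singleton_self _)
  have hsep' : (F.map φ).Separable := hsep.map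
  have hne : F.map φ ≠ 0 := hsep'.ne_zero
  have hnd : (F.map φ).roots.Nodup := nodup_roots hsep'
  have hcard : 5 ≤ (F.map φ).roots.toFinset.card := by
    rw [Multiset.toFinset_card_of_nodup hnd, ← hsp.natDegree_eq_card_roots, natDegree_map]
    exact hdeg
  have hlead : (F.map φ).leadingCoeff ≠ 0 := leadingCoeff_ne_zero.mpr hne
  refine fin_of_map φ (he_split (F.map φ).roots.toFinset hcard (F.map φ).leadingCoeff hlead) ?_
  rintro x ⟨y, hy⟩
  refine ⟨φ y, ?_⟩
  have h1 := hsp.eq_prod_roots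
  have h2 : (F.map φ).eval (φ x) = φ (F.eval x) := by rw [eval_map_apply]
  rw [← map_pow, hy, ← h2]
  conv_lhs => rw [h1]
  rw [eval_mul, eval_C, eval_multiset_prod]
  congr 1
  rw [Finset.prod, Multiset.toFinset_val, Multiset.dedup_eq_self.mpr hnd, Multiset.map_map]
  congr 1
  apply Multiset.map_congr rfl
  intro a _
  simp

end Pool.Agent.Helper80.UC
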