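import Mathlib
import Pool.Agent.Helper80.UC.Val

set_option autoImplicit false

open IsDedekindDomain NumberField
open scoped nonZeroDivisors

namespace Pool.Agent.Helper80.UC

lemma multiset_mod {α : Type*} [DecidableEq α] (m : ℕ) (s : Multiset α) :
    ∃ t d : Multiset α, s = m • t + d ∧ ∀ a, d.count a = s.count a % m := by
  refine ⟨Finsupp.toMultiset (s.toFinsupp.mapRange (· / m) (by simp)),
    Finsupp.toMultiset (s.toFinsupp.mapRange (· % m) (by simp)), ?_, ?_⟩
  · ext a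
    simp only [Multiset.count_add, Multiset.count_nsmul, Finsupp.count_toMultiset,
      Finsupp.mapRange_apply, Multiset.toFinsupp_apply]
    exact (Nat.div_add_mod _ _).symm
  · intro a
    simp only [Finsupp.count_toMultiset, Finsupp.mapRange_apply, Multiset.toFinsupp_apply]

variable {K : Type} [Field K] [NumberField K]

/-- structure of ideals with orders divisible by `m` away from `S` -/
lemma ideal_mod (m : ℕ) (hm : 0 < m) (S : Set (HeightOneSpectrum (𝓞 K))) (hS : S.Finite) :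
    ∃ D : Finset (Ideal (𝓞 K)), ∀ I : Ideal (𝓞 K), I ≠ 0 →
      (∀ v : HeightOneSpectrum (𝓞 K), v ∉ S →
        m ∣ ((UniqueFactorizationMonoid.normalizedFactors I).count v.asIdeal)) →
      ∃ d ∈ D, ∃ J : Ideal (𝓞 K), J ≠ 0 ∧ I = J ^ m * d := by
  classical
  set S' : Finset (Ideal (𝓞 K)) := hS.toFinset.image (fun v => v.asIdeal) with hS'
  refine ⟨(m • S'.val).powerset.toFinset.image (fun s => s.prod), fun I hI hev => ?_⟩
  obtain ⟨t, d, hs, hd⟩ := multiset_mod m (UniqueFactorizationMonoid.normalizedFactors I)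
  have hdS : ∀ p ∈ d, p ∈ S' := by
    intro p hp
    have hpI : p ∈ UniqueFactorizationMonoid.normalizedFactors I := by
      rw [hs]; exact Multiset.mem_add.mpr (Or.inr hp)
    have hpp : Prime p := UniqueFactorizationMonoid.prime_of_normalized_factor p hpI
    let v : HeightOneSpectrum (𝓞 K) := ⟨p, Ideal.isPrime_of_prime hpp, hpp.ne_zero⟩
    by_contra hn
    have hv : v ∉ S := by
      intro hv
      apply hn
      rw [hS', Finset.mem_image]
      exact ⟨v, by simpa using hv, rfl⟩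
    have h1 := hev v hv
    have h2 : Multiset.count p d = 0 := by
      rw [hd p]
      exact Nat.mod_eq_zero_of_dvd h1
    rw [Multiset.count_eq_zero] at h2
    exact h2 hp
  refine ⟨d.prod, ?_, t.prod, ?_, ?_⟩
  · rw [Finset.mem_image]
    refine ⟨d, ?_, rfl⟩
    rw [Multiset.mem_toFinset, Multiset.mem_powerset, Multiset.le_iff_count]
    intro p
    rw [Multiset.count_nsmul]
    by_cases hp : p ∈ d
    · have h1 : p ∈ S'.val := hdS p hp
      have h2 : 1 ≤ Multiset.count p S'.val := Multiset.one_le_count_iff_mem.mpr h1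
      have h3 : Multiset.count p d < m := by rw [hd p]; exact Nat.mod_lt _ hm
      nlinarith
    · rw [Multiset.count_eq_zero.mpr hp]; exact Nat.zero_le _
  · intro h0
    rw [Multiset.prod_eq_zero_iff] at h0
    have : (0 : Ideal (𝓞 K)) ∈ UniqueFactorizationMonoid.normalizedFactors I := by
      rw [hs]
      refine Multiset.mem_add.mpr (Or.inl ?_)
      rw [Multiset.mem_nsmul]
      exact ⟨hm.ne', h0⟩
    exact (UniqueFactorizationMonoid.prime_of_normalized_factor _ this).ne_zero rfl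
  · have h2 : (UniqueFactorizationMonoid.normalizedFactors I).prod = I := by
      have := UniqueFactorizationMonoid.prod_normalizedFactors hI
      exact associated_iff_eq.mp this
    conv_lhs => rw [← h2, hs]
    rw [Multiset.prod_add, Multiset.prod_nsmul]

/-- finiteness of units modulo `m`-th powers -/
lemma units_pow (K : Type) [Field K] [NumberField K] (m : ℕ) (hm : 0 < m) :
    ∃ T : Finset (𝓞 K)ˣ, ∀ u : (𝓞 K)ˣ, ∃ t ∈ T, ∃ w : (𝓞 K)ˣ, u = t * w ^ m := by
  classical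
  have : Group.FG (𝓞 K)ˣ := Group.fg_iff_monoid_fg.mpr inferInstance
  have h := Subgroup.finiteIndex_range_powMonoidHom_of_fg (𝓞 K)ˣ (n := m) hm.ne'
  have : Finite ((𝓞 K)ˣ ⧸ (powMonoidHom (α := (𝓞 K)ˣ) m).range) :=
    Subgroup.finite_quotient_of_finiteIndex
  have := Fintype.ofFinite ((𝓞 K)ˣ ⧸ (powMonoidHom (α := (𝓞 K)ˣ) m).range)
  refine ⟨Finset.univ.image (fun q : (𝓞 K)ˣ ⧸ (powMonoidHom (α := (𝓞 K)ˣ) m).range => q.out),
    fun u => ?_⟩
  refine ⟨(QuotientGroup.mk (s := (powMonoidHom (α := (𝓞 K)ˣ) m).range) u).out,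
    Finset.mem_image_of_mem _ (Finset.mem_univ _), ?_⟩
  have h1 : QuotientGroup.mk (s := (powMonoidHom (α := (𝓞 K)ˣ) m).range)
      (QuotientGroup.mk (s := (powMonoidHom (α := (𝓞 K)ˣ) m).range) u).out =
      QuotientGroup.mk u := QuotientGroup.out_eq' _
  rw [QuotientGroup.eq] at h1
  obtain ⟨w, hw⟩ := h1
  refine ⟨w, ?_⟩
  rw [powMonoidHom_apply] at hw
  rw [hw, mul_inv_cancel_left]

/-- integral version of the finiteness of `K(S,m)`. -/
lemma selm_int (m : ℕ) (hm : 0 < m) (S : Set (HeightOneSpectrum (𝓞 K))) (hS : S.Finite) :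
    ∃ T : Finset (𝓞 K), (∀ t ∈ T, t ≠ 0) ∧ ∀ a : 𝓞 K, a ≠ 0 →
      (∀ v : HeightOneSpectrum (𝓞 K), v ∉ S →
        m ∣ ((UniqueFactorizationMonoid.normalizedFactors (Ideal.span {a})).count v.asIdeal)) →
      ∃ t ∈ T, ∃ x y : 𝓞 K, x ≠ 0 ∧ y ≠ 0 ∧ x ^ m * a = t * y ^ m := by
  classical
  obtain ⟨D, hD⟩ := ideal_mod m hm S hS
  obtain ⟨U, hU⟩ := units_pow K m hm
  -- the relation between integers and (ideal, class)
  let Rel : Ideal (𝓞 K) × ClassGroup (𝓞 K) → 𝓞 K → Prop := fun c a =>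
    a ≠ 0 ∧ ∃ J : (Ideal (𝓞 K))⁰, Ideal.span {a} = (J : Ideal (𝓞 K)) ^ m * c.1 ∧
      ClassGroup.mk0 J = c.2
  let rep : Ideal (𝓞 K) × ClassGroup (𝓞 K) → 𝓞 K := fun c =>
    if h : ∃ a, Rel c a then Classical.choose h else 1
  have hrep0 : ∀ c, rep c ≠ 0 := by
    intro c
    simp only [rep]
    split_ifs with h
    · exact (Classical.choose_spec h).1
    · exact one_ne_zero
  let T : Finset (𝓞 K) := ((D ×ˢ (Finset.univ : Finset (ClassGroup (𝓞 K)))) ×ˢ U).image
    (fun c => rep c.1 * (c.2 : 𝓞 K))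
  refine ⟨T, ?_, ?_⟩
  · intro t ht
    simp only [T, Finset.mem_image] at ht
    obtain ⟨c, -, rfl⟩ := ht
    exact mul_ne_zero (hrep0 _) (Units.ne_zero _)
  · intro a ha hev
    have hI : Ideal.span {a} ≠ (0 : Ideal (𝓞 K)) := by simpa using ha
    obtain ⟨d, hd, J, hJ, hIJ⟩ := hD _ hI hev
    set J' : (Ideal (𝓞 K))⁰ := ⟨J, mem_nonZeroDivisors_iff_ne_zero.mpr hJ⟩ with hJ'
    have hR : Rel (d, ClassGroup.mk0 J') a := ⟨ha, J', hIJ, rfl⟩
    have hex : ∃ a, Rel (d, ClassGroup.mk0 J') a := ⟨a, hR⟩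
    have hrepe : rep (d, ClassGroup.mk0 J') = Classical.choose hex := by
      simp only [rep]
      rw [dif_pos hex]
    obtain ⟨hb0, J2, hJ2, hcl⟩ := Classical.choose_spec hex
    rw [← hrepe] at hb0 hJ2
    set b := rep (d, ClassGroup.mk0 J') with hb
    obtain ⟨x, y, hx, hy, hxy⟩ := ClassGroup.mk0_eq_mk0_iff.mp hcl
    -- x J2 = y J
    have h1 : Ideal.span {y ^ m * a} = Ideal.span {x ^ m * b} := by
      rw [← Ideal.span_singleton_mul_span_singleton, ← Ideal.span_singleton_mul_span_singleton,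
        ← Ideal.span_singleton_pow, ← Ideal.span_singleton_pow, hIJ, hJ2]
      have h2 : (Ideal.span {y} * (J' : Ideal (𝓞 K))) = Ideal.span {x} * (J2 : Ideal (𝓞 K)) :=
        hxy.symm
      calc Ideal.span {y} ^ m * (J ^ m * d) = (Ideal.span {y} * J) ^ m * d := by rw [mul_pow]; ring
        _ = (Ideal.span {x} * (J2 : Ideal (𝓞 K))) ^ m * d := by rw [← h2]
        _ = _ := by rw [mul_pow]; ring
    rw [Ideal.span_singleton_eq_span_singleton] at h1
    obtain ⟨u, hu⟩ := h1.symm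
    obtain ⟨t, ht, w, hw⟩ := hU u
    refine ⟨b * (t : 𝓞 K), ?_, y, x * (w : 𝓞 K), hy, mul_ne_zero hx (Units.ne_zero _), ?_⟩
    · simp only [T, Finset.mem_image]
      refine ⟨((d, ClassGroup.mk0 J'), t), ?_, rfl⟩
      simp only [Finset.mem_product, Finset.mem_univ, and_true]
      exact ⟨hd, ht⟩
    · rw [← hu, hw]
      push_cast
      rw [mul_pow]
      ring

/-- finiteness of `K(S,m)`. -/
theorem selm (m : ℕ) (hm : 0 < m) (S : Set (Pl K)) (hS : S.Finite) :
    ∃ T : Finset K, (∀ t ∈ T, t ≠ 0) ∧ ∀ a : K, a ≠ 0 →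
      (∀ v : Pl K, v ∉ S → (m : ℤ) ∣ o v a) →
      ∃ t ∈ T, ∃ b : K, b ≠ 0 ∧ a = t * b ^ m := by
  classical
  obtain ⟨T, hT0, hT⟩ := selm_int m hm S hS
  refine ⟨T.image (fun t => algebraMap (𝓞 K) K t), ?_, ?_⟩
  · intro t ht
    obtain ⟨s, hs, rfl⟩ := Finset.mem_image.mp ht
    simpa using hT0 s hs
  · intro a ha hev
    obtain ⟨p, q, hq, hpq⟩ := IsFractionRing.div_surjective (A := 𝓞 K) (a : K)
    have hq0 : q ≠ 0 := nonZeroDivisors.ne_zero hq
    have hqK : algebraMap (𝓞 K) K q ≠ 0 := by simpa using hq0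
    have hp0 : p ≠ 0 := by
      rintro rfl
      rw [map_zero, zero_div] at hpq
      exact ha hpq.symm
    have hne : p * q ^ (m - 1) ≠ 0 := mul_ne_zero hp0 (pow_ne_zero _ hq0)
    have hpqK : algebraMap (𝓞 K) K (p * q ^ (m - 1)) ≠ 0 := by
      rw [map_mul, map_pow]
      exact mul_ne_zero (by simpa using hp0) (pow_ne_zero _ hqK)
    have hval : ∀ v : Pl K, o v (algebraMap (𝓞 K) K (p * q ^ (m - 1))) =
        o v a + m * o v (algebraMap (𝓞 K) K q) := by
      intro v
      have h2 : algebraMap (𝓞 K) K (p * q ^ (m - 1)) = a * (algebraMap (𝓞 K) K q) ^ m := by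
        rw [← hpq, map_mul, map_pow]
        obtain ⟨k, rfl⟩ : ∃ k, m = k + 1 := ⟨m - 1, by omega⟩
        rw [Nat.add_sub_cancel]
        field_simp
        ring
      rw [h2, o_mul v ha (pow_ne_zero _ hqK), o_pow]
    obtain ⟨t, ht, x, y, hx, hy, hxy⟩ := hT (p * q ^ (m - 1)) hne (by
      intro v hv
      have h1 := Pool.Agent.H437R2.Man.MW.val_int v (p * q ^ (m - 1)) hne (Units.mk0 _ hpqK) rfl
      rw [toAdd_valNZ, Units.val_mk0, hval v] at h1
      have h3 : (m : ℤ) ∣ (((UniqueFactorizationMonoid.normalizedFactors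
          (Ideal.span {p * q ^ (m - 1)})).count v.asIdeal : ℕ) : ℤ) := by
        have h4 : (((UniqueFactorizationMonoid.normalizedFactors
          (Ideal.span {p * q ^ (m - 1)})).count v.asIdeal : ℕ) : ℤ) =
            o v a + m * o v (algebraMap (𝓞 K) K q) := by linarith
        rw [h4]
        exact dvd_add (hev v hv) (dvd_mul_right _ _)
      exact_mod_cast h3)
    have hxK : algebraMap (𝓞 K) K x ≠ 0 := by simpa using hx
    have hyK : algebraMap (𝓞 K) K y ≠ 0 := by simpa using hy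
    refine ⟨algebraMap (𝓞 K) K t, Finset.mem_image_of_mem _ ht,
      algebraMap (𝓞 K) K y / (algebraMap (𝓞 K) K x * algebraMap (𝓞 K) K q),
      div_ne_zero hyK (mul_ne_zero hxK hqK), ?_⟩
    have h4 := congrArg (algebraMap (𝓞 K) K) hxy
    simp only [map_mul, map_pow] at h4
    rw [← hpq]
    obtain ⟨k, rfl⟩ : ∃ k, m = k + 1 := ⟨m - 1, by omega⟩
    rw [Nat.add_sub_cancel] at h4
    rw [div_pow, mul_pow, ← mul_div_assoc, div_eq_div_iff hqK
      (mul_ne_zero (pow_ne_zero _ hxK) (pow_ne_zero _ hqK))]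
    rw [← h4]
    ring

end Pool.Agent.Helper80.UC
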