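import Mathlib
import Pool.Agent.Helper80.UC.HE
import Pool.Agent.Helper80.UC.Sel

set_option autoImplicit false

open IsDedekindDomain NumberField Polynomial

namespace Pool.Agent.Helper80.UC

variable {K : Type} [Field K] [NumberField K]

/-- `a X^(2m) + b X^m + c` is separable -/
lemma sep_quad {m : ℕ} (hm : 0 < m) {a b c : K} (hc : c ≠ 0)
    (hD : b ^ 2 - 4 * a * c ≠ 0) : (C a * X ^ (2 * m) + C b * X ^ m + C c : K[X]).Separable := by
  obtain ⟨k, rfl⟩ : ∃ k, m = k + 1 := ⟨m - 1, by omega⟩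
  rw [Polynomial.Separable]
  have hder : derivative (C a * X ^ (2 * (k + 1)) + C b * X ^ (k + 1) + C c : K[X]) =
      C ((k : K) + 1) * (X ^ k * (C (2 * a) * X ^ (k + 1) + C b)) := by
    have h2 : (2 * (k + 1)) = (2 * k + 1) + 1 := by ring
    rw [h2]
    simp only [derivative_add, derivative_mul, derivative_C, derivative_X_pow, zero_mul, zero_add,
      add_zero, Nat.add_sub_cancel, C_mul, C_add, map_one, map_natCast, map_ofNat]
    push_cast
    ring
  rw [hder]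
  have hk : ((k : K) + 1) ≠ 0 := by exact_mod_cast Nat.succ_ne_zero k
  refine IsCoprime.mul_right ?_ (IsCoprime.mul_right (IsCoprime.pow_right ?_) ?_)
  · refine ⟨0, C ((k : K) + 1)⁻¹, ?_⟩
    rw [zero_mul, zero_add, ← C_mul, inv_mul_cancel₀ hk, C_1]
  · refine ⟨C c⁻¹, -C c⁻¹ * (C a * X ^ (2 * k + 1) + C b * X ^ k), ?_⟩
    have : C c⁻¹ * C c = (1 : K[X]) := by rw [← C_mul, inv_mul_cancel₀ hc, C_1]
    linear_combination this
  · refine ⟨-4 * C a * C (b ^ 2 - 4 * a * c)⁻¹, C (b ^ 2 - 4 * a * c)⁻¹ * (C (2 * a) * X ^ (k + 1) + C b), ?_⟩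
    have h1 : C (b ^ 2 - 4 * a * c)⁻¹ * (C b ^ 2 - 4 * C a * C c) = (1 : K[X]) := by
      have : (C b ^ 2 - 4 * C a * C c : K[X]) = C (b ^ 2 - 4 * a * c) := by
        simp only [C_sub, C_mul, C_pow, map_ofNat]
      rw [this, ← C_mul, inv_mul_cancel₀ hD, C_1]
    rw [C_mul, map_ofNat]
    linear_combination h1

lemma deg_quad {m : ℕ} (hm : 0 < m) {a b c : K} (ha : a ≠ 0) :
    (C a * X ^ (2 * m) + C b * X ^ m + C c : K[X]).natDegree = 2 * m := by
  have h1 : (C b * X ^ m + C c : K[X]).degree < (C a * X ^ (2 * m) : K[X]).degree := by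
    rw [degree_C_mul_X_pow _ ha]
    refine (degree_add_le _ _).trans_lt ?_
    rw [max_lt_iff]
    refine ⟨(degree_C_mul_X_pow_le _ _).trans_lt ?_, degree_C_le.trans_lt ?_⟩
    · exact_mod_cast (by omega : m < 2 * m)
    · exact_mod_cast (by omega : 0 < 2 * m)
  rw [add_assoc, natDegree_add_eq_left_of_degree_lt h1, natDegree_C_mul_X_pow _ _ ha]

/-- the curve `(t-η1)(t-η2) = δ s^m (t-η3)(t-η4)` -/
lemma G_fin {m : ℕ} (hm : 3 ≤ m) {η1 η2 η3 η4 δ : K} (h12 : η1 ≠ η2) (h13 : η1 ≠ η3)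
    (h14 : η1 ≠ η4) (h23 : η2 ≠ η3) (h24 : η2 ≠ η4) (h34 : η3 ≠ η4) (hδ : δ ≠ 0) :
    {t : K | ∃ s : K, s ≠ 0 ∧ (t - η1) * (t - η2) = δ * s ^ m * ((t - η3) * (t - η4))}.Finite := by
  set B : K := 4 * (η1 * η2 + η3 * η4) - 2 * (η1 + η2) * (η3 + η4) with hB
  have d12 := sub_ne_zero.mpr h12
  have d13 := sub_ne_zero.mpr h13
  have d14 := sub_ne_zero.mpr h14
  have d23 := sub_ne_zero.mpr h23
  have d24 := sub_ne_zero.mpr h24
  have d34 := sub_ne_zero.mpr h34
  set F : K[X] := C ((η3 - η4) ^ 2 * δ ^ 2) * X ^ (2 * m) + C (B * δ) * X ^ m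
    + C ((η1 - η2) ^ 2) with hF
  have ha : (η3 - η4) ^ 2 * δ ^ 2 ≠ 0 := mul_ne_zero (pow_ne_zero _ d34) (pow_ne_zero _ hδ)
  have hc : (η1 - η2) ^ 2 ≠ 0 := pow_ne_zero _ d12
  have hD : (B * δ) ^ 2 - 4 * ((η3 - η4) ^ 2 * δ ^ 2) * (η1 - η2) ^ 2 ≠ 0 := by
    have : (B * δ) ^ 2 - 4 * ((η3 - η4) ^ 2 * δ ^ 2) * (η1 - η2) ^ 2 =
        16 * δ ^ 2 * ((η1 - η3) * (η1 - η4) * (η2 - η3) * (η2 - η4)) := by
      rw [hB]; ring
    rw [this]
    exact mul_ne_zero (mul_ne_zero (by norm_num) (pow_ne_zero _ hδ))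
      (mul_ne_zero (mul_ne_zero (mul_ne_zero d13 d14) d23) d24)
  have hsep : F.Separable := sep_quad (by omega) hc hD
  have hdeg : F.natDegree = 2 * m := deg_quad (by omega) ha
  have hfin := hyperelliptic F hsep (by omega)
  have hfin2 : (⋃ s ∈ {x : K | ∃ y, y ^ 2 = F.eval x},
      {t : K | s ≠ 0 ∧ (t - η1) * (t - η2) = δ * s ^ m * ((t - η3) * (t - η4))}).Finite := by
    refine hfin.biUnion fun s _ => ?_
    by_cases hs : s = 0
    · convert Set.finite_empty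
      ext t
      simp [hs]
    · set p : K[X] := (X - C η1) * (X - C η2) - C (δ * s ^ m) * ((X - C η3) * (X - C η4)) with hp
      have hp0 : p ≠ 0 := by
        intro h0
        have h1 := congrArg (Polynomial.eval η1) h0
        rw [hp] at h1
        simp only [eval_sub, eval_mul, eval_X, eval_C, eval_zero, sub_self, zero_mul, zero_sub,
          neg_eq_zero, mul_eq_zero] at h1
        rcases h1 with (h | h) | h | h
        · exact hδ h
        · exact hs (pow_eq_zero_iff (by omega) |>.mp h)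
        · exact d13 h
        · exact d14 h
      refine (Polynomial.finite_setOfPred_isRoot hp0).subset ?_
      rintro t ⟨-, ht⟩
      show p.eval t = 0
      rw [hp]
      simp only [eval_sub, eval_mul, eval_X, eval_C]
      linear_combination ht
  refine hfin2.subset ?_
  rintro t ⟨s, hs, ht⟩
  simp only [Set.mem_iUnion]
  refine ⟨s, ⟨2 * (1 - δ * s ^ m) * t - ((η1 + η2) - δ * s ^ m * (η3 + η4)), ?_⟩, hs, ht⟩
  rw [hF]
  simp only [eval_add, eval_mul, eval_C, eval_X, eval_pow, hB, pow_mul']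
  linear_combination (4 * (1 - δ * s ^ m)) * ht

/-- **key finiteness lemma** -/
lemma key_fin {m : ℕ} (hm : 3 ≤ m) {η1 η2 η3 η4 : K} (h12 : η1 ≠ η2) (h13 : η1 ≠ η3)
    (h14 : η1 ≠ η4) (h23 : η2 ≠ η3) (h24 : η2 ≠ η4) (h34 : η3 ≠ η4) (S : Set (Pl K))
    (hS : S.Finite) :
    {t : K | t ≠ η1 ∧ t ≠ η2 ∧ t ≠ η3 ∧ t ≠ η4 ∧ ∀ v : Pl K, v ∉ S →
      (m : ℤ) ∣ o v ((t - η1) * (t - η2) / ((t - η3) * (t - η4)))}.Finite := by
  obtain ⟨T, hT0, hT⟩ := selm m (by omega) S hS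
  have hfin : (⋃ δ ∈ (T : Set K), {t : K | ∃ s : K, s ≠ 0 ∧ (t - η1) * (t - η2) =
      δ * s ^ m * ((t - η3) * (t - η4))}).Finite :=
    T.finite_toSet.biUnion fun δ hδ => G_fin hm h12 h13 h14 h23 h24 h34 (hT0 δ hδ)
  refine hfin.subset ?_
  rintro t ⟨t1, t2, t3, t4, hv⟩
  have n1 := sub_ne_zero.mpr t1
  have n2 := sub_ne_zero.mpr t2
  have n3 := sub_ne_zero.mpr t3
  have n4 := sub_ne_zero.mpr t4
  obtain ⟨δ, hδ, s, hs, h⟩ := hT _ (div_ne_zero (mul_ne_zero n1 n2) (mul_ne_zero n3 n4)) hv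
  simp only [Set.mem_iUnion]
  exact ⟨δ, hδ, s, hs, by rw [← h, div_mul_cancel₀ _ (mul_ne_zero n3 n4)]⟩

/-- `t^d - 1 = δ s^(d-1)` -/
lemma SE_fin {d : ℕ} (hd : 5 ≤ d) {δ : K} (hδ : δ ≠ 0) :
    {t : K | ∃ s : K, t ^ d - 1 = δ * s ^ (d - 1)}.Finite := by
  rcases Nat.even_or_odd d with he | ho
  · -- `d` even: the polynomial `δ X^(d-1) + 1`
    obtain ⟨k, hk⟩ := he
    set F : K[X] := C δ * X ^ (d - 1) + C 1 with hF
    have hdeg : F.natDegree = d - 1 := by
      rw [hF, natDegree_add_C, natDegree_C_mul_X_pow _ _ hδ]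
    have hsep : F.Separable := by
      rw [Polynomial.Separable]
      obtain ⟨e, he⟩ : ∃ e, d - 1 = e + 1 := ⟨d - 2, by omega⟩
      rw [hF, he]
      have hder : derivative (C δ * X ^ (e + 1) + C 1 : K[X]) = C (δ * (e + 1)) * X ^ e := by
        simp only [derivative_add, derivative_mul, derivative_C, derivative_X_pow, zero_mul,
          zero_add, add_zero, Nat.add_sub_cancel, C_mul, C_add, map_one, map_natCast,
          derivative_one]
        push_cast
        ring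
      rw [hder]
      have hk : δ * ((e : K) + 1) ≠ 0 := mul_ne_zero hδ (by exact_mod_cast Nat.succ_ne_zero e)
      refine IsCoprime.mul_right ⟨0, C (δ * ((e : K) + 1))⁻¹, ?_⟩ (IsCoprime.pow_right
        ⟨1, -(C δ * X ^ e), ?_⟩)
      · rw [zero_mul, zero_add, ← C_mul, inv_mul_cancel₀ hk, C_1]
      · rw [C_1]; ring
    have hfin := hyperelliptic F hsep (by omega)
    have hfin2 : (⋃ s ∈ {x : K | ∃ y, y ^ 2 = F.eval x},
        {t : K | t ^ d = F.eval s}).Finite := by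
      refine hfin.biUnion fun s _ => ?_
      have hp0 : (X ^ d - C (F.eval s) : K[X]) ≠ 0 := X_pow_sub_C_ne_zero (by omega) _
      refine (Polynomial.finite_setOfPred_isRoot hp0).subset ?_
      intro t ht
      show (X ^ d - C (F.eval s) : K[X]).eval t = 0
      simp only [eval_sub, eval_pow, eval_X, eval_C]
      exact sub_eq_zero.mpr ht
    refine hfin2.subset ?_
    rintro t ⟨s, hs⟩
    simp only [Set.mem_iUnion]
    have h1 : t ^ d = F.eval s := by
      rw [hF]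
      simp only [eval_add, eval_mul, eval_C, eval_pow, eval_X]
      linear_combination hs
    refine ⟨s, ⟨t ^ k, ?_⟩, h1⟩
    rw [← h1, hk]; ring
  · obtain ⟨k, hk⟩ := ho
    set F : K[X] := C δ * (X ^ d - C 1) with hF
    have hsep : F.Separable := by
      rw [hF]
      refine (Polynomial.separable_X_pow_sub_C (1 : K) (by exact_mod_cast (by omega : d ≠ 0))
        one_ne_zero).unit_mul (isUnit_C.mpr (IsUnit.mk0 _ hδ))
    have hdeg : F.natDegree = d := by
      rw [hF, natDegree_C_mul hδ, natDegree_X_pow_sub_C]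
    have hfin := hyperelliptic F hsep (by omega)
    refine hfin.subset ?_
    rintro t ⟨s, hs⟩
    refine ⟨δ * s ^ k, ?_⟩
    rw [hF]
    simp only [eval_mul, eval_C, eval_sub, eval_pow, eval_X]
    rw [hs, hk, Nat.add_sub_cancel]
    ring

end Pool.Agent.Helper80.UC
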