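import Mathlib
import Pool.Agent.Helper80.UC.G

set_option autoImplicit false

open IsDedekindDomain NumberField Polynomial

namespace Pool.Agent.Helper80.UC

/-- preperiodic -/
def Pre {α : Type*} (f : α → α) (x : α) : Prop := ∃ i j : ℕ, i < j ∧ f^[i] x = f^[j] x

/-- periodic -/
def Per {α : Type*} (f : α → α) (x : α) : Prop := ∃ n : ℕ, 0 < n ∧ f^[n] x = x

section gen

variable {α : Type*} {f : α → α}

lemma Per.pre {x : α} (h : Per f x) : Pre f x := by
  obtain ⟨n, hn, h⟩ := h
  exact ⟨0, n, hn, by simpa using h.symm⟩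

lemma Pre.map {x : α} (h : Pre f x) : Pre f (f x) := by
  obtain ⟨i, j, hij, h⟩ := h
  refine ⟨i, j, hij, ?_⟩
  rw [← Function.iterate_succ_apply, ← Function.iterate_succ_apply,
    Function.iterate_succ_apply', Function.iterate_succ_apply', h]

lemma Per.map {x : α} (h : Per f x) : Per f (f x) := by
  obtain ⟨n, hn, h⟩ := h
  refine ⟨n, hn, ?_⟩
  rw [← Function.iterate_succ_apply, Function.iterate_succ_apply', h]

lemma Pre.of_map {x y : α} (h : Pre f (f x)) (hxy : f y = f x) : Pre f y := by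
  obtain ⟨i, j, hij, h⟩ := h
  refine ⟨i + 1, j + 1, by omega, ?_⟩
  rw [Function.iterate_succ_apply, Function.iterate_succ_apply, hxy, h]

lemma Pre.iter {x : α} (h : Pre f x) (n : ℕ) : Pre f (f^[n] x) := by
  induction n with
  | zero => simpa using h
  | succ n ih => rw [Function.iterate_succ_apply']; exact ih.map

lemma Per.iter {x : α} (h : Per f x) (n : ℕ) : Per f (f^[n] x) := by
  induction n with
  | zero => simpa using h
  | succ n ih => rw [Function.iterate_succ_apply']; exact ih.map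

lemma Pre.ev {x : α} (h : Pre f x) : ∃ n, Per f (f^[n] x) := by
  obtain ⟨i, j, hij, h⟩ := h
  refine ⟨i, j - i, by omega, ?_⟩
  rw [← Function.iterate_add_apply, Nat.sub_add_cancel hij.le, h]

/-- a common period -/
lemma Per.common {x y : α} (hx : Per f x) (hy : Per f y) :
    ∃ n, 0 < n ∧ f^[n] x = x ∧ f^[n] y = y := by
  obtain ⟨a, ha, hx⟩ := hx
  obtain ⟨b, hb, hy⟩ := hy
  refine ⟨a * b, Nat.mul_pos ha hb, ?_, ?_⟩
  · rw [Function.iterate_mul]
    exact Function.iterate_fixed hx b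
  · rw [Nat.mul_comm, Function.iterate_mul]
    exact Function.iterate_fixed hy a

lemma Per.inj {x y : α} (hx : Per f x) (hy : Per f y) (h : f x = f y) : x = y := by
  obtain ⟨n, hn, h1, h2⟩ := hx.common hy
  obtain ⟨k, rfl⟩ : ∃ k, n = k + 1 := ⟨n - 1, by omega⟩
  rw [← h1, ← h2, Function.iterate_succ_apply, Function.iterate_succ_apply, h]

lemma Per.inj_iter {x y : α} (hx : Per f x) (hy : Per f y) (k : ℕ) (h : f^[k] x = f^[k] y) :
    x = y := by
  induction k with
  | zero => simpa using h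
  | succ n ih =>
    rw [Function.iterate_succ_apply', Function.iterate_succ_apply'] at h
    exact ih ((hx.iter n).inj (hy.iter n) h)

/-- every periodic point is the image of a periodic point -/
lemma Per.preimage {x : α} (hx : Per f x) : ∃ w, Per f w ∧ f w = x := by
  obtain ⟨n, hn, h⟩ := hx
  obtain ⟨k, rfl⟩ : ∃ k, n = k + 1 := ⟨n - 1, by omega⟩
  refine ⟨f^[k] x, ⟨k + 1, hn, ?_⟩, ?_⟩
  · rw [← Function.iterate_add_apply, Nat.add_comm, Function.iterate_add_apply, h]
  · rw [← Function.iterate_succ_apply' f, h]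

lemma not_pre (P : α → Prop) (g : α → ℤ) (h : ∀ y, P y → P (f y) ∧ g (f y) < g y) {x : α}
    (hx : P x) : ¬ Pre f x := by
  have h1 : ∀ n, P (f^[n] x) := by
    intro n
    induction n with
    | zero => simpa using hx
    | succ n ih => rw [Function.iterate_succ_apply']; exact (h _ ih).1
  have h2 : StrictAnti (fun n => g (f^[n] x)) := by
    apply strictAnti_nat_of_succ_lt
    intro n
    rw [Function.iterate_succ_apply']
    exact (h _ (h1 n)).2
  rintro ⟨i, j, hij, he⟩
  have := h2 hij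
  simp only [he] at this
  exact lt_irrefl _ this

end gen

variable {K : Type} [Field K] [NumberField K]

/-- local behaviour of the inner polynomial `h` of degree `e` at `v` -/
structure GH (v : Pl K) (h : K → K) (e : ℕ) : Prop where
  a : ∀ x, o v x < 0 → h x ≠ 0 ∧ o v (h x) = e * o v x
  b : ∀ x y, o v x < 0 → o v y = o v x → x ≠ y → o v x < o v (x - y) →
    h x ≠ h y ∧ o v (h x - h y) = o v (x - y) + (e - 1) * o v x
  c : ∀ x, x ∈ A v → h x ∈ A v
  d : ∀ x y, x ∈ A v → y ∈ A v → ∃ q ∈ A v, h x - h y = (x - y) * q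
  e : ∀ x y w, x ∈ A v → y ∈ A v → w ∈ A v → x ≠ w → h x = h w → 0 < o v (x - y) →
    h y ≠ h w → o v (y - w) < o v (h y - h w)

lemma GH_id (v : Pl K) : GH v (fun x : K => x) 1 where
  a x hx := ⟨by rintro rfl; simp at hx, by simp⟩
  b x y _ _ hxy _ := ⟨hxy, by simp⟩
  c x hx := hx
  d x y _ _ := ⟨1, one_mem _, by simp⟩
  e x y w _ _ _ hxw h _ _ := absurd h hxw

/-- the map `z ↦ h(z)^d + c` -/
def fc (h : K → K) (d : ℕ) (c : K) : K → K := fun z => h z ^ d + c

/-- `M` consists of all the `d`-th roots of unity. -/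
structure GM0 (M : Finset K) (d : ℕ) : Prop where
  fac : ∀ x y : K, x ^ d - y ^ d = ∏ η ∈ M, (x - η * y)
  card : M.card = d
  one : (1 : K) ∈ M
  ne : ∀ η ∈ M, η ≠ 0
  mul : ∀ η ∈ M, ∀ η' ∈ M, η⁻¹ * η' ∈ M
  mem : ∀ ζ : K, ζ ^ d = 1 → ζ ∈ M

/-- good root-of-unity set at `v` -/
structure GM (v : Pl K) (M : Finset K) (d : ℕ) : Prop extends GM0 M d where
  unit : ∀ η ∈ M, o v η = 0
  diff : ∀ η ∈ M, ∀ η' ∈ M, η ≠ η' → o v (η - η') = 0

section loc

variable {v : Pl K} {h : K → K} {e d : ℕ} {c : K} {M : Finset K}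

/-- escape of large points -/
lemma esc (H : GH v h e) (he : 1 ≤ e) (hd : 2 ≤ d) {x : K} (hx : o v x < 0)
    (hxc : c = 0 ∨ d * e * o v x < o v c) : ¬ Pre (fc h d c) x := by
  refine not_pre (f := fc h d c) (fun y => o v y < 0 ∧ (c = 0 ∨ d * e * o v y < o v c)) (fun y => o v y) ?_ ⟨hx, hxc⟩
  rintro y ⟨hy, hyc⟩
  obtain ⟨n1, o1⟩ := H.a y hy
  have hpow : o v (h y ^ d) = d * e * o v y := by
    rw [o_pow, o1]; ring
  have hn : h y ^ d ≠ 0 := pow_ne_zero _ n1
  have hs := o_add_lt' v hn (y := c) (by rw [hpow]; exact hyc)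
  have he' : (1 : ℤ) ≤ e := by exact_mod_cast he
  have hd' : (2 : ℤ) ≤ d := by exact_mod_cast hd
  have hde : (2 : ℤ) ≤ d * e := by nlinarith
  have h1 : o v (fc h d c y) = d * e * o v y := by
    rw [fc, hs.2, hpow]
  have h2 : (d * e * o v y : ℤ) < o v y := by nlinarith
  refine ⟨⟨by rw [h1]; omega, ?_⟩, by rw [h1]; exact h2⟩
  rcases hyc with hyc | hyc
  · exact Or.inl hyc
  · right
    rw [h1]
    have : (d * e * (d * e * o v y) : ℤ) < d * e * o v y := by nlinarith
    omega

/-- valuation of preperiodic points at a bad place -/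
lemma bad_val (H : GH v h e) (he : 1 ≤ e) (hd : 2 ≤ d) (hc : o v c < 0) {x : K}
    (hx : Pre (fc h d c) x) : x ≠ 0 ∧ d * e * o v x = o v c := by
  have hc0 : c ≠ 0 := by rintro rfl; simp at hc
  have he' : (1 : ℤ) ≤ e := by exact_mod_cast he
  have hd' : (2 : ℤ) ≤ d := by exact_mod_cast hd
  have hde : (2 : ℤ) ≤ d * e := by nlinarith
  -- if `o v (h x ^ d) > o v c` (or zero) then `f x` escapes
  have key : ∀ y, h y ^ d = 0 ∨ o v c < o v (h y ^ d) → ¬ Pre (fc h d c) y := by
    intro y hy hpre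
    have hs := o_add_lt' v hc0 (y := h y ^ d) hy
    have h1 : o v (fc h d c y) = o v c := by rw [fc, add_comm, hs.2]
    refine esc H he hd (x := fc h d c y) (by rw [h1]; exact hc) ?_ hpre.map
    right
    rw [h1]
    nlinarith
  rcases lt_or_ge (o v x) 0 with hlt | hge
  · have hx0 : x ≠ 0 := by rintro rfl; simp at hlt
    refine ⟨hx0, ?_⟩
    obtain ⟨n1, o1⟩ := H.a x hlt
    have hpow : o v (h x ^ d) = d * e * o v x := by
      rw [o_pow, o1]; ring
    rcases lt_trichotomy (d * e * o v x : ℤ) (o v c) with h1 | h1 | h1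
    · exact absurd hx (esc H he hd hlt (Or.inr h1))
    · exact h1
    · exact absurd hx (key x (Or.inr (by rw [hpow]; exact h1)))
  · exfalso
    refine key x ?_ hx
    have hA := H.c x (mem_A_of v hge)
    by_cases h0 : h x ^ d = 0
    · exact Or.inl h0
    · right
      rw [o_pow]
      have := o_nonneg v hA
      have : (0 : ℤ) ≤ d * o v (h x) := mul_nonneg (by omega) this
      omega

lemma bad_neg (H : GH v h e) (he : 1 ≤ e) (hd : 2 ≤ d) (hc : o v c < 0) {x : K}
    (hx : Pre (fc h d c) x) : o v x < 0 := by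
  have h1 := (bad_val H he hd hc hx).2
  by_contra hcon
  push Not at hcon
  have : (0 : ℤ) ≤ d * e * o v x := mul_nonneg (by positivity) hcon
  omega

lemma bad_eq (H : GH v h e) (he : 1 ≤ e) (hd : 2 ≤ d) (hc : o v c < 0) {x y : K}
    (hx : Pre (fc h d c) x) (hy : Pre (fc h d c) y) : o v x = o v y := by
  have h1 := (bad_val H he hd hc hx).2
  have h2 := (bad_val H he hd hc hy).2
  have he' : (1 : ℤ) ≤ e := by exact_mod_cast he
  have hd' : (2 : ℤ) ≤ d := by exact_mod_cast hd
  have hde : (d * e : ℤ) ≠ 0 := by nlinarith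
  exact mul_left_cancel₀ hde (h1.trans h2.symm)

/-- the product formula when one factor is close -/
lemma prod_close (HM : GM v M d) {X Y : K} (hY : Y ≠ 0) {η : K} (hη : η ∈ M) (hne : X ≠ η * Y)
    (hlt : o v Y < o v (X - η * Y)) :
    X ^ d - Y ^ d ≠ 0 ∧ o v (X ^ d - Y ^ d) = o v (X - η * Y) + (d - 1) * o v Y := by
  classical
  have hne' := sub_ne_zero.mpr hne
  have hoth : ∀ η' ∈ M.erase η, X - η' * Y ≠ 0 ∧ o v (X - η' * Y) = o v Y := by
    intro η' hη'
    obtain ⟨h1, h2⟩ := Finset.mem_erase.mp hη'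
    have hid : X - η' * Y = (η - η') * Y + (X - η * Y) := by ring
    have hd0 : η - η' ≠ 0 := sub_ne_zero.mpr h1.symm
    have ho : o v ((η - η') * Y) = o v Y := by
      rw [o_mul v hd0 hY, HM.diff η hη η' h2 h1.symm, zero_add]
    rw [hid]
    have := o_add_lt v (mul_ne_zero hd0 hY) hne' (by rw [ho]; exact hlt)
    rw [ho] at this
    exact this
  have hall : ∀ η' ∈ M, X - η' * Y ≠ 0 := by
    intro η' hη'
    by_cases h1 : η' = η
    · rw [h1]; exact hne'
    · exact (hoth η' (Finset.mem_erase.mpr ⟨h1, hη'⟩)).1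
  rw [HM.fac X Y]
  refine ⟨Finset.prod_ne_zero_iff.mpr hall, ?_⟩
  rw [o_prod v M _ hall, ← Finset.add_sum_erase M _ hη,
    Finset.sum_congr rfl (fun η' hη' => (hoth η' hη').2), Finset.sum_const,
    Finset.card_erase_of_mem hη, HM.card, nsmul_eq_mul]
  have hd1 : 1 ≤ d := by
    rw [← HM.card]; exact Finset.card_pos.mpr ⟨η, hη⟩
  push_cast [hd1]
  ring

/-- `(de-1) ∣ o(x-y) - o(y)` for distinct preperiodic points at a bad place -/
lemma bad_pair (H : GH v h e) (HM : GM v M d) (he : 1 ≤ e) (hd : 2 ≤ d) (hc : o v c < 0) :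
    ∀ (n : ℕ) (x y : K), Pre (fc h d c) x → Pre (fc h d c) y → x ≠ y →
      (o v (x - y) - o v y).toNat = n → ((d * e - 1 : ℤ)) ∣ o v (x - y) - o v y := by
  intro n
  induction n using Nat.strong_induction_on with
  | _ n ih =>
    intro x y hx hy hxy hn
    have he' : (1 : ℤ) ≤ e := by exact_mod_cast he
    have hd' : (2 : ℤ) ≤ d := by exact_mod_cast hd
    have hde : (2 : ℤ) ≤ d * e := by nlinarith
    have hoxy := bad_eq H he hd hc hx hy
    have hyneg := bad_neg H he hd hc hy
    have hxneg := bad_neg H he hd hc hx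
    have hsub0 := sub_ne_zero.mpr hxy
    have hge : o v y ≤ o v (x - y) := by
      rw [sub_eq_add_neg] at hsub0 ⊢
      exact o_add_ge v hsub0 (Or.inr hoxy.ge) (Or.inr (by rw [o_neg]))
    rcases hge.eq_or_lt with heq | hlt
    · rw [← heq, sub_self]; exact dvd_zero _
    · obtain ⟨hhne, hho⟩ := H.b x y hxneg hoxy.symm hxy (by rw [hoxy]; exact hlt)
      obtain ⟨hy0, hyo⟩ := H.a y hyneg
      have hpc := prod_close HM (X := h x) (Y := h y) hy0 HM.one (by rw [one_mul]; exact hhne) (by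
        rw [one_mul, hho, hyo, hoxy]
        nlinarith)
      rw [one_mul, hho, hyo] at hpc
      obtain ⟨p1, p2⟩ := hpc
      have hff : fc h d c x - fc h d c y = h x ^ d - h y ^ d := by simp [fc]
      have hfne : fc h d c x ≠ fc h d c y := by
        rw [← sub_ne_zero, hff]; exact p1
      have hofy : o v (fc h d c y) = o v y := bad_eq H he hd hc hy.map hy
      have hE : o v (fc h d c x - fc h d c y) - o v (fc h d c y) =
          (o v (x - y) - o v y) + (d * e - 1) * o v y := by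
        rw [hff, p2, hofy, hoxy]; ring
      have hlt2 : (o v (fc h d c x - fc h d c y) - o v (fc h d c y)).toNat < n := by
        rw [hE, ← hn]
        have : ((d * e - 1) * o v y : ℤ) < 0 := by nlinarith
        omega
      have := ih _ hlt2 _ _ hx.map hy.map hfne rfl
      rw [hE] at this
      exact (Int.dvd_iff_dvd_of_dvd_add this).mpr (Dvd.intro _ rfl)

/-- `(de-1) ∣ o(h x - η h y) - e o(y)` -/
lemma bad_eta (H : GH v h e) (HM : GM v M d) (he : 1 ≤ e) (hd : 2 ≤ d) (hc : o v c < 0)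
    {x y : K} (hx : Pre (fc h d c) x) (hy : Pre (fc h d c) y) {η : K} (hη : η ∈ M)
    (hne : h x ≠ η * h y) : ((d * e - 1 : ℤ)) ∣ o v (h x - η * h y) - o v (h y) := by
  have hoxy := bad_eq H he hd hc hx hy
  have hyneg := bad_neg H he hd hc hy
  have hxneg := bad_neg H he hd hc hx
  obtain ⟨hy0, hyo⟩ := H.a y hyneg
  obtain ⟨hx0, hxo⟩ := H.a x hxneg
  have hsub0 := sub_ne_zero.mpr hne
  have hge : o v (h y) ≤ o v (h x - η * h y) := by
    rw [sub_eq_add_neg] at hsub0 ⊢
    refine o_add_ge v hsub0 (Or.inr (by rw [hxo, hyo, hoxy])) (Or.inr ?_)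
    rw [o_neg, o_mul v (HM.ne η hη) hy0, HM.unit η hη, zero_add]
  rcases hge.eq_or_lt with heq | hlt
  · rw [← heq, sub_self]; exact dvd_zero _
  · obtain ⟨p1, p2⟩ := prod_close HM (X := h x) (Y := h y) hy0 hη hne hlt
    have hff : fc h d c x - fc h d c y = h x ^ d - h y ^ d := by simp [fc]
    have hfne : fc h d c x ≠ fc h d c y := by
      rw [← sub_ne_zero, hff]; exact p1
    have h1 := bad_pair H HM he hd hc _ _ _ hx.map hy.map hfne rfl
    have hofy : o v (fc h d c y) = o v y := bad_eq H he hd hc hy.map hy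
    have hE : o v (fc h d c x - fc h d c y) - o v (fc h d c y) =
          (o v (h x - η * h y) - o v (h y)) + (d * e - 1) * o v y := by
      rw [hff, p2, hofy, hyo]; ring
    rw [hE] at h1
    exact (Int.dvd_iff_dvd_of_dvd_add h1).mpr (Dvd.intro _ rfl)

/-! ### good places -/

lemma good_int (H : GH v h e) (he : 1 ≤ e) (hd : 2 ≤ d) (hc : c ∈ A v) {x : K}
    (hx : Pre (fc h d c) x) : x ∈ A v := by
  by_contra hcon
  obtain ⟨-, hlt⟩ := not_mem_A v hcon
  refine esc H he hd hlt ?_ hx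
  right
  have := o_nonneg v hc
  have he' : (1 : ℤ) ≤ e := by exact_mod_cast he
  have hd' : (2 : ℤ) ≤ d := by exact_mod_cast hd
  have hde : (2 : ℤ) ≤ d * e := by nlinarith
  nlinarith

/-- one step at a good place -/
lemma good_step (H : GH v h e) (HM : GM v M d) {u w : K} (hu : u ∈ A v) (hw : w ∈ A v)
    (hne : fc h d c u ≠ fc h d c w) :
    (∀ η ∈ M, h u ≠ η * h w) ∧ (∀ η ∈ M, 0 ≤ o v (h u - η * h w)) ∧
      o v (fc h d c u - fc h d c w) = ∑ η ∈ M, o v (h u - η * h w) ∧
      0 ≤ o v (u - w) ∧ o v (u - w) ≤ o v (h u - h w) := by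
  have hff : fc h d c u - fc h d c w = ∏ η ∈ M, (h u - η * h w) := by
    rw [← HM.fac]; simp [fc]
  have hprod : ∏ η ∈ M, (h u - η * h w) ≠ 0 := by
    rw [← hff]; exact sub_ne_zero.mpr hne
  have hall : ∀ η ∈ M, h u - η * h w ≠ 0 := Finset.prod_ne_zero_iff.mp hprod
  refine ⟨fun η hη => sub_ne_zero.mp (hall η hη), fun η hη => ?_, ?_, ?_, ?_⟩
  · apply o_nonneg
    exact sub_mem (H.c u hu) (mul_mem (mem_A_of v (by rw [HM.unit η hη])) (H.c w hw))
  · rw [hff, o_prod v M _ hall]
  · exact o_nonneg v (sub_mem hu hw)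
  · obtain ⟨q, hq, hqe⟩ := H.d u w hu hw
    have h1 := hall 1 HM.one
    rw [one_mul] at h1
    have h2 : (u - w) * q ≠ 0 := by rw [← hqe]; exact h1
    rw [hqe, o_mul v (left_ne_zero_of_mul h2) (right_ne_zero_of_mul h2)]
    have := o_nonneg v hq
    omega

lemma good_step' (H : GH v h e) (HM : GM v M d) {u w : K} (hu : u ∈ A v) (hw : w ∈ A v)
    (hne : fc h d c u ≠ fc h d c w) :
    o v (u - w) ≤ o v (fc h d c u - fc h d c w) ∧
      (∀ η ∈ M, η ≠ 1 → o v (h u - η * h w) + o v (h u - h w) ≤ o v (fc h d c u - fc h d c w)) ∧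
      (∀ η ∈ M, o v (h u - η * h w) ≤ o v (fc h d c u - fc h d c w)) := by
  classical
  obtain ⟨h1, h2, h3, h4, h5⟩ := good_step H HM hu hw hne
  have hle : ∀ η ∈ M, o v (h u - η * h w) ≤ o v (fc h d c u - fc h d c w) := by
    intro η hη
    rw [h3]
    exact Finset.single_le_sum (f := fun η => o v (h u - η * h w)) (fun i hi => h2 i hi) hη
  have h6 := hle 1 HM.one
  rw [one_mul] at h6
  refine ⟨h5.trans h6, fun η hη hη1 => ?_, hle⟩
  rw [h3, ← Finset.add_sum_erase M _ HM.one, one_mul, add_comm (o v (h u - h w))]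
  have hmem : η ∈ M.erase 1 := Finset.mem_erase.mpr ⟨hη1, hη⟩
  have := Finset.single_le_sum (f := fun η => o v (h u - η * h w))
    (fun i hi => h2 i (Finset.mem_of_mem_erase hi)) hmem
  linarith

lemma good_mono (H : GH v h e) (HM : GM v M d) (he : 1 ≤ e) (hd : 2 ≤ d) (hc : c ∈ A v)
    {x y : K} (hx : Pre (fc h d c) x) (hy : Pre (fc h d c) y)
    (k : ℕ) : ∀ m, (∀ n ≤ m + k, (fc h d c)^[n] x ≠ (fc h d c)^[n] y) →
    o v ((fc h d c)^[m] x - (fc h d c)^[m] y) ≤
      o v ((fc h d c)^[m + k] x - (fc h d c)^[m + k] y) := by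
  induction k with
  | zero => intro m _; simp
  | succ k ih =>
    intro m hne
    refine (ih m (fun n hn => hne n (by omega))).trans ?_
    rw [← add_assoc, Function.iterate_succ_apply', Function.iterate_succ_apply']
    refine (good_step' H HM (good_int H he hd hc (hx.iter _)) (good_int H he hd hc (hy.iter _))
      ?_).1
    rw [← Function.iterate_succ_apply' (fc h d c), ← Function.iterate_succ_apply' (fc h d c)]
    exact hne _ (by omega)

lemma good_unit (H : GH v h e) (HM : GM v M d) (he : 1 ≤ e) (hd : 2 ≤ d) (hc : c ∈ A v)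
    {x y : K} (hx : Per (fc h d c) x) (hy : Per (fc h d c) y) (hxy : x ≠ y) :
    (∀ η ∈ M, η ≠ 1 → o v (h x - η * h y) = 0) ∧ o v (h x - h y) = o v (x - y) := by
  have hxA := good_int H he hd hc hx.pre
  have hyA := good_int H he hd hc hy.pre
  have hfne : fc h d c x ≠ fc h d c y := fun h => hxy (hx.inj hy h)
  obtain ⟨h1, h2, h3, h4, h5⟩ := good_step H HM hxA hyA hfne
  obtain ⟨g1, g2, g3⟩ := good_step' H HM hxA hyA hfne
  obtain ⟨N, hN, hNx, hNy⟩ := hx.common hy
  have hmono := good_mono H HM he hd hc hx.pre hy.pre (N - 1) 1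
    (fun n _ h => hxy (hx.inj_iter hy n h))
  have hN1 : 1 + (N - 1) = N := by omega
  rw [hN1, hNx, hNy, Function.iterate_one] at hmono
  have h6 := h2 1 HM.one
  refine ⟨fun η hη hη1 => ?_, ?_⟩
  · have := g2 η hη hη1
    have := h2 η hη
    omega
  · have := g3 1 HM.one
    rw [one_mul] at this
    omega

/-- difference of a strictly preperiodic point (with periodic image) and a periodic point -/
lemma tail_unit (H : GH v h e) (HM : GM v M d) (he : 1 ≤ e) (hd : 2 ≤ d) (hc : c ∈ A v)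
    {x y w : K} (hx : Pre (fc h d c) x) (hy : Per (fc h d c) y) (hw : Per (fc h d c) w)
    (hxw : x ≠ w) (hfx : fc h d c x = fc h d c w) (hyw : y ≠ w) : o v (x - y) = 0 := by
  have hxA := good_int H he hd hc hx
  have hyA := good_int H he hd hc hy.pre
  have hwA := good_int H he hd hc hw.pre
  have hfyw : fc h d c y ≠ fc h d c w := fun h => hyw (hy.inj hw h)
  have hfxy : fc h d c x ≠ fc h d c y := by rw [hfx]; exact hfyw.symm
  obtain ⟨h1, h2, h3, h4, h5⟩ := good_step H HM hxA hyA hfxy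
  obtain ⟨u1, u2⟩ := good_unit H HM he hd hc hy hw hyw
  by_cases hxw' : h x = h w
  · by_contra hne
    have hpos : 0 < o v (x - y) := lt_of_le_of_ne h4 (Ne.symm hne)
    have hhyw : h y ≠ h w := by
      intro hh
      apply hfyw
      simp only [fc, hh]
    have := H.e x y w hxA hyA hwA hxw hxw' hpos hhyw
    omega
  · -- `h x = ζ h w` with `ζ ≠ 1`
    have hpow : h x ^ d = h w ^ d := by
      have := hfx
      simp only [fc] at this
      exact add_right_cancel this
    have hw0 : h w ≠ 0 := by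
      intro h0
      apply hxw'
      rw [h0, zero_pow (by omega)] at hpow
      rw [h0]
      exact (pow_eq_zero_iff (by omega)).mp hpow
    have hζ : (h x / h w) ∈ M := by
      apply HM.mem
      rw [div_pow, hpow, div_self (pow_ne_zero _ hw0)]
    have hζ1 : h x / h w ≠ 1 := by
      intro h0
      exact hxw' (by rwa [div_eq_one_iff_eq hw0] at h0)
    have h7 := u1 _ hζ hζ1
    rw [div_mul_cancel₀ _ hw0, o_sub_comm] at h7
    omega

end loc

/-- the exceptional root of unity of a non-merging pair -/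
lemma pair_zeta {h : K → K} {e d : ℕ} {M : Finset K} {S : Set (Pl K)} (H0 : GM0 M d)
    (H : ∀ v ∉ S, GH v h e) (HM : ∀ v ∉ S, GM v M d) (he : 1 ≤ e) (hd : 2 ≤ d) {c x y : K}
    (hx : Pre (fc h d c) x) (hy : Per (fc h d c) y)
    (hne : ∀ n, (fc h d c)^[n] x ≠ (fc h d c)^[n] y) :
    (∀ η ∈ M, h x ≠ η * h y) ∧ ∃ ζ ∈ M, ∀ η ∈ M, η ≠ ζ → ∀ v ∉ S, c ∈ A v →
      o v (h x - η * h y) = 0 := by
  classical
  refine ⟨?_, ?_⟩
  · intro η hη heq
    apply hne 1
    rw [Function.iterate_one]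
    have : h x ^ d - h y ^ d = 0 := by
      rw [H0.fac]
      exact Finset.prod_eq_zero hη (sub_eq_zero.mpr heq)
    simp only [fc]
    linear_combination this
  · by_cases hxp : Per (fc h d c) x
    · refine ⟨1, H0.one, fun η hη hη1 v hv hc => ?_⟩
      exact (good_unit (H v hv) (HM v hv) he hd hc hxp hy (hne 0)).1 η hη hη1
    · have hex : ∃ n, Per (fc h d c) ((fc h d c)^[n] x) := hx.ev
      set n := Nat.find hex with hn
      have hnP : Per (fc h d c) ((fc h d c)^[n] x) := Nat.find_spec hex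
      have hn0 : n ≠ 0 := by
        intro h0
        rw [h0] at hnP
        exact hxp (by simpa using hnP)
      obtain ⟨k, hk⟩ : ∃ k, n = k + 1 := ⟨n - 1, by omega⟩
      have hkP : ¬ Per (fc h d c) ((fc h d c)^[k] x) := Nat.find_min hex (by omega)
      rw [hk, Function.iterate_succ_apply'] at hnP
      obtain ⟨w, hw, hfw⟩ := hnP.preimage
      have hxw : (fc h d c)^[k] x ≠ w := fun h0 => hkP (by rw [h0]; exact hw)
      have hyw : (fc h d c)^[k] y ≠ w := by
        intro h0
        apply hne (k + 1)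
        rw [Function.iterate_succ_apply', Function.iterate_succ_apply', ← hfw, h0]
      rcases Nat.eq_zero_or_pos k with hk0 | hkpos
      · subst hk0
        simp only [Function.iterate_zero, id_eq] at hxw hyw hfw
        have hpow : h w ^ d = h x ^ d := by
          simp only [fc] at hfw
          exact add_right_cancel hfw
        obtain ⟨ζ, hζ, hxζ⟩ : ∃ ζ ∈ M, h x = ζ * h w := by
          by_cases hw0 : h w = 0
          · refine ⟨1, H0.one, ?_⟩
            rw [hw0, zero_pow (by omega)] at hpow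
            rw [hw0, mul_zero]
            exact (pow_eq_zero_iff (by omega)).mp hpow.symm
          · refine ⟨h x / h w, ?_, by rw [div_mul_cancel₀ _ hw0]⟩
            apply H0.mem
            rw [div_pow, ← hpow, div_self (pow_ne_zero _ hw0)]
        refine ⟨ζ, hζ, fun η hη hηζ v hv hc => ?_⟩
        have hζ0 := H0.ne ζ hζ
        have hm := H0.mul ζ hζ η hη
        have hm1 : ζ⁻¹ * η ≠ 1 := by
          intro h0
          apply hηζ
          rw [inv_mul_eq_iff_eq_mul₀ hζ0, mul_one] at h0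
          exact h0
        have hu := (good_unit (H v hv) (HM v hv) he hd hc hw hy hyw.symm).1 _ hm hm1
        have hid : h x - η * h y = ζ * (h w - ζ⁻¹ * η * h y) := by
          rw [hxζ]; field_simp
        have hne0 : h w - ζ⁻¹ * η * h y ≠ 0 := by
          have hfwy : fc h d c w ≠ fc h d c y := fun h0 => hyw.symm (hw.inj hy h0)
          exact sub_ne_zero.mpr ((good_step (H v hv) (HM v hv) (good_int (H v hv) he hd hc hw.pre)
            (good_int (H v hv) he hd hc hy.pre) hfwy).1 _ hm)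
        rw [hid, o_mul v hζ0 hne0, (HM v hv).unit ζ hζ, hu, add_zero]
      · refine ⟨1, H0.one, fun η hη _ v hv hc => ?_⟩
        have ht := tail_unit (H v hv) (HM v hv) he hd hc (hx.iter k) (hy.iter k) hw hxw hfw.symm hyw
        have hmono := good_mono (H v hv) (HM v hv) he hd hc hx hy.pre (k - 1) 1 (fun n _ => hne n)
        have hk1 : 1 + (k - 1) = k := by omega
        rw [hk1, ht, Function.iterate_one] at hmono
        have hxA := good_int (H v hv) he hd hc hx
        have hyA := good_int (H v hv) he hd hc hy.pre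
        have h1 : fc h d c x ≠ fc h d c y := by simpa using hne 1
        have h2 := (good_step (H v hv) (HM v hv) hxA hyA h1).2.1 η hη
        have h3 := (good_step' (H v hv) (HM v hv) hxA hyA h1).2.2 η hη
        omega

/-- **Finiteness of the ratios.** -/
theorem ratio_fin {h : K → K} {e d : ℕ} {M : Finset K} {S : Set (Pl K)} (H0 : GM0 M d)
    (hS : S.Finite) (H : ∀ v ∉ S, GH v h e) (HM : ∀ v ∉ S, GM v M d) (he : 1 ≤ e) (hd : 5 ≤ d) :
    ∃ F : Set K, F.Finite ∧ ∀ c x y : K, Pre (fc h d c) x → Per (fc h d c) y →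
      (∀ n, (fc h d c)^[n] x ≠ (fc h d c)^[n] y) → h y ≠ 0 → h x / h y ∈ F := by
  classical
  set m := d * e - 1 with hm
  have hde : 5 ≤ d * e := by nlinarith
  have hmZ : ((m : ℕ) : ℤ) = d * e - 1 := by
    rw [hm]; push_cast [show 1 ≤ d * e by omega]; ring
  let G : (Fin 4 ↪ M) → Set K := fun g => {t : K | t ≠ g 0 ∧ t ≠ g 1 ∧ t ≠ g 2 ∧ t ≠ g 3 ∧
    ∀ v : Pl K, v ∉ S → (m : ℤ) ∣ o v ((t - g 0) * (t - g 1) / ((t - g 2) * (t - g 3)))}
  have hG : ∀ g, (G g).Finite := by
    intro g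
    have hg : ∀ i j : Fin 4, i ≠ j → (g i : K) ≠ g j := fun i j hij h =>
      hij (g.injective (Subtype.ext h))
    exact key_fin (by omega) (hg 0 1 (by decide)) (hg 0 2 (by decide)) (hg 0 3 (by decide))
      (hg 1 2 (by decide)) (hg 1 3 (by decide)) (hg 2 3 (by decide)) S hS
  refine ⟨⋃ g, G g, Set.finite_iUnion hG, ?_⟩
  intro c x y hx hy hne hy0
  obtain ⟨hne', ζ, hζ, hpair⟩ := pair_zeta H0 H HM he (by omega) hx hy hne
  have hcard : 4 ≤ (M.erase ζ).card := by
    rw [Finset.card_erase_of_mem hζ, H0.card]; omega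
  have hemb : Nonempty (Fin 4 ↪ (M.erase ζ : Finset K)) := by
    apply Function.Embedding.nonempty_of_card_le
    simpa using hcard
  obtain ⟨g'⟩ := hemb
  let g : Fin 4 ↪ M := g'.trans ⟨fun z => ⟨z.1, Finset.mem_of_mem_erase z.2⟩, fun a b hab =>
    Subtype.ext (by simpa using hab)⟩
  have hgz : ∀ i, (g i : K) ≠ ζ := fun i => (Finset.mem_erase.mp (g' i).2).1
  have hgM : ∀ i, (g i : K) ∈ M := fun i => (g i).2
  rw [Set.mem_iUnion]
  have htn : ∀ i, h x / h y ≠ g i := by
    intro i hi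
    apply hne' _ (hgM i)
    rw [← hi, div_mul_cancel₀ _ hy0]
  have htn' : ∀ i, h x - g i * h y ≠ 0 := fun i => sub_ne_zero.mpr (hne' _ (hgM i))
  refine ⟨g, htn 0, htn 1, htn 2, htn 3, fun v hv => ?_⟩
  have hid : ∀ i, h x / h y - g i = (h x - g i * h y) / h y := by
    intro i; field_simp
  have ho : ∀ i, o v (h x / h y - g i) = o v (h x - g i * h y) - o v (h y) := by
    intro i
    rw [hid i, o_div v (htn' i) hy0]
  have hn : ∀ i, h x / h y - g i ≠ 0 := fun i => sub_ne_zero.mpr (htn i)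
  rw [o_div v (mul_ne_zero (hn 0) (hn 1)) (mul_ne_zero (hn 2) (hn 3)), o_mul v (hn 0) (hn 1),
    o_mul v (hn 2) (hn 3), ho, ho, ho, ho]
  by_cases hc : c ∈ A v
  · rw [hpair _ (hgM 0) (hgz 0) v hv hc, hpair _ (hgM 1) (hgz 1) v hv hc,
      hpair _ (hgM 2) (hgz 2) v hv hc, hpair _ (hgM 3) (hgz 3) v hv hc, sub_self]
    exact dvd_zero _
  · obtain ⟨-, hc'⟩ := not_mem_A v hc
    have hb : ∀ i, (m : ℤ) ∣ o v (h x - g i * h y) - o v (h y) := by
      intro i
      rw [hmZ]
      exact bad_eta (H v hv) (HM v hv) he (by omega) hc' hx hy.pre (hgM i) (hne' _ (hgM i))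
    exact dvd_sub (dvd_add (hb 0) (hb 1)) (dvd_add (hb 2) (hb 3))

end Pool.Agent.Helper80.UC
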