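import Mathlib
import Pool.Agent.Helper80.UC.Dyn

set_option autoImplicit false

open IsDedekindDomain NumberField Polynomial

namespace Pool.Agent.Helper80.UC

lemma not_pre' {α : Type*} {f : α → α} (P : α → Prop) (g : α → ℝ)
    (h : ∀ y, P y → P (f y) ∧ g y < g (f y)) {x : α} (hx : P x) : ¬ Pre f x := by
  have h1 : ∀ n, P (f^[n] x) := by
    intro n
    induction n with
    | zero => simpa using hx
    | succ n ih => rw [Function.iterate_succ_apply']; exact (h _ ih).1
  have h2 : StrictMono (fun n => g (f^[n] x)) := by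
    apply strictMono_nat_of_lt_succ
    intro n
    rw [Function.iterate_succ_apply']
    exact (h _ (h1 n)).2
  rintro ⟨i, j, hij, he⟩
  have := h2 hij
  simp only [he] at this
  exact lt_irrefl _ this

/-- semiconjugacy -/
lemma iter_map {α β : Type*} {f : α → α} {g : β → β} (φ : α → β) (h : ∀ x, φ (f x) = g (φ x))
    (n : ℕ) (x : α) : φ (f^[n] x) = g^[n] (φ x) := by
  induction n with
  | zero => simp
  | succ n ih => rw [Function.iterate_succ_apply', Function.iterate_succ_apply', h, ih]

lemma Pre.push {α β : Type*} {f : α → α} {g : β → β} (φ : α → β) (h : ∀ x, φ (f x) = g (φ x))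
    {x : α} (hx : Pre f x) : Pre g (φ x) := by
  obtain ⟨i, j, hij, he⟩ := hx
  exact ⟨i, j, hij, by rw [← iter_map φ h, ← iter_map φ h, he]⟩

lemma Per.push {α β : Type*} {f : α → α} {g : β → β} (φ : α → β) (h : ∀ x, φ (f x) = g (φ x))
    {x : α} (hx : Per f x) : Per g (φ x) := by
  obtain ⟨n, hn, he⟩ := hx
  exact ⟨n, hn, by rw [← iter_map φ h, he]⟩

/-- roots of unity -/
lemma GM0_of {K : Type} [Field K] [NumberField K] {d : ℕ} (hd : 0 < d) {ζ : K}
    (hζ : IsPrimitiveRoot ζ d) : GM0 (nthRootsFinset d (1 : K)) d where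
  fac x y := hζ.pow_sub_pow_eq_prod_sub_mul x y hd
  card := hζ.card_nthRootsFinset
  one := by rw [Polynomial.mem_nthRootsFinset hd]; simp
  ne η hη := by
    rw [Polynomial.mem_nthRootsFinset hd] at hη
    rintro rfl
    rw [zero_pow (by omega)] at hη
    exact zero_ne_one hη
  mul η hη η' hη' := by
    rw [Polynomial.mem_nthRootsFinset hd] at hη hη' ⊢
    rw [mul_pow, inv_pow, hη, hη']; simp
  mem ζ hζ := by rwa [Polynomial.mem_nthRootsFinset hd]

lemma GM_of {K : Type} [Field K] [NumberField K] {d : ℕ} (hd : 0 < d) {ζ : K}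
    (hζ : IsPrimitiveRoot ζ d) : ∃ S : Set (Pl K), S.Finite ∧ ∀ v ∉ S,
      GM v (nthRootsFinset d (1 : K)) d := by
  refine ⟨⋃ η ∈ nthRootsFinset d (1 : K), ⋃ η' ∈ nthRootsFinset d (1 : K),
    {v | η ≠ η' ∧ o v (η - η') ≠ 0}, ?_, ?_⟩
  · refine (nthRootsFinset d (1 : K)).finite_toSet.biUnion fun ρ _ =>
      (nthRootsFinset d (1 : K)).finite_toSet.biUnion fun ρ' _ => ?_
    by_cases h : ρ = ρ'
    · simp [h]
    · refine (fin_o (sub_ne_zero.mpr h)).subset ?_
      rintro v ⟨-, hv⟩
      exact hv
  · intro v hv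
    simp only [Set.mem_iUnion, Set.mem_ofPred_eq, not_exists, not_and, not_not] at hv
    refine ⟨GM0_of hd hζ, fun η hη => ?_, fun η hη η' hη' hne => hv η hη η' hη' hne⟩
    rw [Polynomial.mem_nthRootsFinset hd] at hη
    have := congrArg (o v) hη
    rw [o_pow, o_one] at this
    rcases mul_eq_zero.mp this with h | h
    · exact absurd h (by exact_mod_cast hd.ne')
    · exact h

/-- **Finiteness of the ratios for `z^d + c` over any number field.** -/
theorem ratioK (K : Type) [Field K] [NumberField K] {d : ℕ} (hd : 5 ≤ d) :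
    ∃ F : Set K, F.Finite ∧ ∀ c x y : K, Pre (fun z => z ^ d + c) x →
      Per (fun z => z ^ d + c) y →
      (∀ n, (fun z => z ^ d + c)^[n] x ≠ (fun z => z ^ d + c)^[n] y) → y ≠ 0 → x / y ∈ F := by
  have : NeZero d := ⟨by omega⟩
  let L := CyclotomicField d K
  have hζ : IsPrimitiveRoot (IsCyclotomicExtension.zeta d K L) d :=
    IsCyclotomicExtension.zeta_spec d K L
  obtain ⟨S, hS, HM⟩ := GM_of (by omega) hζ
  obtain ⟨F, hF, H⟩ := ratio_fin (h := fun z : L => z) (e := 1) (GM0_of (by omega) hζ) hS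
    (fun v _ => GH_id v) HM le_rfl hd
  refine ⟨(algebraMap K L) ⁻¹' F, hF.preimage (algebraMap K L).injective.injOn, ?_⟩
  intro c x y hx hy hne hy0
  have hsc : ∀ z : K, algebraMap K L ((fun z => z ^ d + c) z) =
      fc (fun z : L => z) d (algebraMap K L c) (algebraMap K L z) := by
    intro z; simp [fc]
  show algebraMap K L (x / y) ∈ F
  rw [map_div₀]
  refine H (algebraMap K L c) (algebraMap K L x) (algebraMap K L y) (hx.push _ hsc)
    (hy.push _ hsc) ?_ (by simpa using hy0)
  intro n h
  rw [← iter_map _ hsc, ← iter_map _ hsc] at h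
  exact hne n ((algebraMap K L).injective h)

/-- Northcott for `z^d + c` -/
theorem northcott (K : Type) [Field K] [NumberField K] {d : ℕ} (hd : 2 ≤ d) (c : K) :
    {x : K | Pre (fun z => z ^ d + c) x}.Finite := by
  obtain ⟨D, hD0, hD⟩ : ∃ D : ℤ, D ≠ 0 ∧ IsIntegral ℤ (D * c) := by
    have halg : IsAlgebraic ℤ c :=
      (IsFractionRing.isAlgebraic_iff ℤ ℚ K).mpr (Algebra.IsAlgebraic.isAlgebraic c)
    obtain ⟨D, hD0, hD⟩ := halg.exists_integral_multiple
    refine ⟨D, hD0, ?_⟩
    rwa [zsmul_eq_mul] at hD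
  set B : ℝ := ∑ φ : K →+* ℂ, ‖φ D‖ * (1 + ‖φ c‖) with hB
  have hfin := NumberField.Embeddings.finite_of_norm_le K ℂ B
  have hDK : (D : K) ≠ 0 := by exact_mod_cast hD0
  have hinj : Set.InjOn (fun x : K => (D : K) * x) {x : K | Pre (fun z => z ^ d + c) x} := by
    intro x _ y _ h
    exact mul_left_cancel₀ hDK h
  refine Set.Finite.of_finite_image (hfin.subset ?_) hinj
  rintro _ ⟨x, hx, rfl⟩
  have hx' : Pre (fc (fun z : K => z) d c) x := hx
  refine ⟨?_, ?_⟩
  · rcases eq_or_ne x 0 with h0 | h0
    · subst h0; simp only [mul_zero]; exact isIntegral_zero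
    have hv : ∀ v : Pl K, v.valuation K ((D : K) * x) ≤ 1 := by
      intro v
      rw [← mem_A]
      apply mem_A_of
      rw [o_mul v hDK h0]
      have hDo : 0 ≤ o v (D : K) := o_nonneg v (intCast_mem _ D)
      by_cases hc : c ∈ A v
      · have := o_nonneg v (good_int (GH_id v) le_rfl hd hc hx')
        omega
      · obtain ⟨hc0, hc'⟩ := not_mem_A v hc
        have h1 := (bad_val (GH_id v) le_rfl hd hc' hx').2
        have hneg := bad_neg (GH_id v) le_rfl hd hc' hx'
        have hDc : 0 ≤ o v ((D : K) * c) := by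
          apply o_nonneg
          rw [mem_A]
          exact v.valuation_le_one (⟨_, hD⟩ : 𝓞 K)
        rw [o_mul v hDK hc0] at hDc
        have hd' : (2 : ℤ) ≤ d := by exact_mod_cast hd
        push_cast at h1
        nlinarith
    obtain ⟨z, hz⟩ := HeightOneSpectrum.mem_integers_of_valuation_le_one K _ hv
    show IsIntegral ℤ ((D : K) * x)
    rw [← hz]
    exact z.2
  · intro φ
    have hxb : ‖φ x‖ ≤ 1 + ‖φ c‖ := by
      by_contra hcon
      push Not at hcon
      refine not_pre' (f := fun z : ℂ => z ^ d + φ c) (fun z => 1 + ‖φ c‖ < ‖z‖) (fun z => ‖z‖) ?_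
        hcon (hx.push φ (by intro z; simp))
      intro z hz
      have h1 : ‖z‖ ^ d - ‖φ c‖ ≤ ‖z ^ d + φ c‖ := by
        have := norm_sub_norm_le (z ^ d) (-(φ c))
        rw [norm_pow, norm_neg, sub_neg_eq_add] at this
        exact this
      have hc0 := norm_nonneg (φ c)
      have h2 : ‖z‖ ^ 2 ≤ ‖z‖ ^ d := pow_le_pow_right₀ (by linarith) hd
      have h3 : ‖z‖ < ‖z ^ d + φ c‖ := by nlinarith
      exact ⟨hz.trans h3, h3⟩
    rw [map_mul, norm_mul]
    calc ‖φ D‖ * ‖φ x‖ ≤ ‖φ D‖ * (1 + ‖φ c‖) := mul_le_mul_of_nonneg_left hxb (norm_nonneg _)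
      _ ≤ B := by
        rw [hB]
        exact Finset.single_le_sum (f := fun φ : K →+* ℂ => ‖φ D‖ * (1 + ‖φ c‖))
          (fun i _ => mul_nonneg (norm_nonneg _) (by positivity)) (Finset.mem_univ φ)

/-- exceptional parameters coming from a unique periodic point with a tail of length `2` -/
lemma exc_fin (K : Type) [Field K] [NumberField K] {d : ℕ} (hd : 5 ≤ d) :
    {c : K | ∃ ζ : K, ζ ^ d = 1 ∧ ζ ≠ 1 ∧ ∃ t s : K, s ≠ 0 ∧ t ^ d - 1 = (ζ - 1) * s ^ (d - 1) ∧
      c = s⁻¹ - s⁻¹ ^ d}.Finite := by
  have h1 : (⋃ ζ ∈ (nthRootsFinset d (1 : K) : Set K), ⋃ t ∈ {t : K | ∃ s : K,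
      t ^ d - 1 = (ζ - 1) * s ^ (d - 1)}, ((fun s : K => s⁻¹ - s⁻¹ ^ d) ''
        {s : K | ζ ≠ 1 ∧ t ^ d - 1 = (ζ - 1) * s ^ (d - 1)})).Finite := by
    refine (nthRootsFinset d (1 : K)).finite_toSet.biUnion fun ζ _ => ?_
    by_cases hζ : ζ = 1
    · convert Set.finite_empty
      ext c
      simp [hζ]
    have hζ' := sub_ne_zero.mpr hζ
    refine (SE_fin hd hζ').biUnion fun t _ => Set.Finite.image _ ?_
    have hp0 : (X ^ (d - 1) - C ((t ^ d - 1) / (ζ - 1)) : K[X]) ≠ 0 :=
      X_pow_sub_C_ne_zero (by omega) _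
    refine (Polynomial.finite_setOfPred_isRoot hp0).subset ?_
    rintro s ⟨-, hs⟩
    show (X ^ (d - 1) - C ((t ^ d - 1) / (ζ - 1)) : K[X]).eval s = 0
    simp only [eval_sub, eval_pow, eval_X, eval_C]
    rw [hs]
    field_simp
    ring
  refine h1.subset ?_
  rintro c ⟨ζ, hζ, hζ1, t, s, hs, hts, hc⟩
  simp only [Set.mem_iUnion]
  exact ⟨ζ, by simpa [Polynomial.mem_nthRootsFinset (show 0 < d by omega)] using hζ, t, ⟨s, hts⟩,
    s, ⟨hζ1, hts⟩, hc.symm⟩

/-- the map has a nonzero periodic point, when `c = 0` excluded etc.: the counting theorem. -/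
theorem UB1 (K : Type) [Field K] [NumberField K] {d : ℕ} (hd : 5 ≤ d) :
    ∃ B : ℕ, ∀ c : K, {x : K | Pre (fun z => z ^ d + c) x}.encard ≤ B := by
  classical
  obtain ⟨F, hF, H⟩ := ratioK K hd
  set C0 : Set K := {c | c = 0 ∨ c ^ (d - 1) = -1} with hC0
  set C1 : Set K := {c : K | ∃ ζ : K, ζ ^ d = 1 ∧ ζ ≠ 1 ∧ ∃ t s : K, s ≠ 0 ∧
    t ^ d - 1 = (ζ - 1) * s ^ (d - 1) ∧ c = s⁻¹ - s⁻¹ ^ d} with hC1
  have hC0f : C0.Finite := by
    have hp0 : (X ^ (d - 1) - C (-1) : K[X]) ≠ 0 := X_pow_sub_C_ne_zero (by omega) _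
    refine ((Set.finite_singleton (0 : K)).union (Polynomial.finite_setOfPred_isRoot hp0)).subset ?_
    rintro c (hc | hc)
    · exact Or.inl hc
    · right
      show (X ^ (d - 1) - C (-1) : K[X]).eval c = 0
      simp only [eval_sub, eval_pow, eval_X, eval_C]
      rw [hc]; ring
  have hC1f : C1.Finite := exc_fin K hd
  have hCf := hC0f.union hC1f
  -- the bound
  obtain ⟨N, hN⟩ : ∃ N : ℕ, ∀ c ∈ C0 ∪ C1, {x : K | Pre (fun z => z ^ d + c) x}.encard ≤ N := by
    refine ⟨∑ c ∈ hCf.toFinset, {x : K | Pre (fun z => z ^ d + c) x}.ncard, fun c hc => ?_⟩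
    rw [← (northcott K (by omega) c).cast_ncard_eq]
    have : c ∈ hCf.toFinset := hCf.mem_toFinset.mpr hc
    exact_mod_cast Finset.single_le_sum
      (f := fun c => {x : K | Pre (fun z => z ^ d + c) x}.ncard) (fun _ _ => Nat.zero_le _) this
  refine ⟨max N (2 * F.ncard + d), fun c => ?_⟩
  by_cases hcC : c ∈ C0 ∪ C1
  · exact (hN c hcC).trans (by exact_mod_cast le_max_left _ _)
  have hle : {x : K | Pre (fun z => z ^ d + c) x}.encard ≤ ((2 * F.ncard + d : ℕ) : ℕ∞) := by
    simp only [Set.mem_union, not_or] at hcC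
    obtain ⟨hc0, hc1⟩ := hcC
    set f : K → K := fun z => z ^ d + c with hf
    by_cases h2 : ∃ y1 y2 : K, y1 ≠ y2 ∧ y1 ≠ 0 ∧ y2 ≠ 0 ∧ Per f y1 ∧ Per f y2
    · obtain ⟨y1, y2, h12, h10, h20, hp1, hp2⟩ := h2
      have hsub : {x : K | Pre f x} ⊆ ((fun t => t * y1) '' F) ∪ ((fun t => t * y2) '' F) := by
        intro x hx
        have hor : (∀ n, f^[n] x ≠ f^[n] y1) ∨ (∀ n, f^[n] x ≠ f^[n] y2) := by
          by_contra hcon
          push Not at hcon
          obtain ⟨⟨a, ha⟩, b, hb⟩ := hcon
          apply h12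
          refine hp1.inj_iter hp2 (a + b) ?_
          calc f^[a + b] y1 = f^[b] (f^[a] y1) := by
                rw [← Function.iterate_add_apply, Nat.add_comm]
            _ = f^[b] (f^[a] x) := by rw [ha]
            _ = f^[a] (f^[b] x) := by
                rw [← Function.iterate_add_apply, ← Function.iterate_add_apply, Nat.add_comm]
            _ = f^[a] (f^[b] y2) := by rw [hb]
            _ = f^[a + b] y2 := by rw [← Function.iterate_add_apply]
        rcases hor with hor | hor
        · left
          exact ⟨x / y1, H c x y1 hx hp1 hor h10, div_mul_cancel₀ _ h10⟩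
        · right
          exact ⟨x / y2, H c x y2 hx hp2 hor h20, div_mul_cancel₀ _ h20⟩
      refine (Set.encard_le_encard hsub).trans ((Set.encard_union_le _ _).trans ?_)
      have hFn : F.encard = (F.ncard : ℕ∞) := hF.cast_ncard_eq.symm
      calc ((fun t => t * y1) '' F).encard + ((fun t => t * y2) '' F).encard
          ≤ F.encard + F.encard := add_le_add (Set.encard_image_le _ _) (Set.encard_image_le _ _)
        _ = ((F.ncard + F.ncard : ℕ) : ℕ∞) := by rw [hFn]; push_cast; rfl
        _ ≤ _ := by exact_mod_cast (by omega)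
    · -- at most one nonzero periodic point
      have huniq : ∀ y1 y2 : K, Per f y1 → Per f y2 → y1 ≠ 0 → y2 ≠ 0 → y1 = y2 := by
        intro y1 y2 h1 h2' h3 h4
        by_contra h5
        exact h2 ⟨y1, y2, h5, h3, h4, h1, h2'⟩
      have hcne : c ≠ 0 := fun h => hc0 (Or.inl h)
      have hc' : c ^ (d - 1) ≠ -1 := fun h => hc0 (Or.inr h)
      have hf0 : f 0 = c := by
        simp only [hf]; rw [zero_pow (by omega), zero_add]
      have h0 : ¬ Per f 0 := by
        intro h0
        have hcp : Per f c := by rw [← hf0]; exact h0.map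
        have hfc : Per f (f c) := hcp.map
        by_cases hfc0 : f c = 0
        · apply hc'
          simp only [hf] at hfc0
          have h1 : c * (c ^ (d - 1) + 1) = 0 := by
            rw [mul_add, ← pow_succ', Nat.sub_add_cancel (by omega), mul_one]
            exact hfc0
          rcases mul_eq_zero.mp h1 with h | h
          · exact absurd h hcne
          · linear_combination h
        · have h1 := huniq _ _ hfc hcp hfc0 hcne
          exact hcne (hcp.inj h0 (by rw [h1, hf0]))
      have hnz : ∀ y, Per f y → y ≠ 0 := by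
        rintro y hy rfl
        exact h0 hy
      have hun : ∀ y1 y2 : K, Per f y1 → Per f y2 → y1 = y2 := fun y1 y2 a b =>
        huniq y1 y2 a b (hnz y1 a) (hnz y2 b)
      by_cases hX : ∃ x, Pre f x
      · obtain ⟨x0, hx0⟩ := hX
        obtain ⟨n0, hy⟩ := hx0.ev
        set y := f^[n0] x0 with hydef
        have hy0 : y ≠ 0 := hnz y hy
        have hfy : f y = y := hun _ _ hy.map hy
        have hsub : {x : K | Pre f x} ⊆ ((nthRootsFinset d (y ^ d) : Finset K) : Set K) := by
          intro x hx
          have hex : ∃ n, f^[n] x = y := by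
            obtain ⟨n, hn⟩ := Pre.ev hx
            exact ⟨n, hun _ _ hn hy⟩
          set n := Nat.find hex with hn
          have hnP : f^[n] x = y := Nat.find_spec hex
          rw [Finset.mem_coe, Polynomial.mem_nthRootsFinset (by omega)]
          have hcc : c = y - y ^ d := by
            have := hfy
            simp only [hf] at this
            linear_combination this
          rcases Nat.eq_zero_or_pos n with h | h
          · rw [h] at hnP
            simp only [Function.iterate_zero, id_eq] at hnP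
            rw [hnP]
          · obtain ⟨k, hk⟩ : ∃ k, n = k + 1 := ⟨n - 1, by omega⟩
            have hkP : f^[k] x ≠ y := Nat.find_min hex (by omega)
            rw [hk, Function.iterate_succ_apply'] at hnP
            have hpw : ∀ z, f z = y → z ^ d = y ^ d := by
              intro z hz
              simp only [hf] at hz
              rw [hcc] at hz
              linear_combination hz
            rcases Nat.eq_zero_or_pos k with h' | h'
            · rw [h'] at hnP
              simp only [Function.iterate_zero, id_eq] at hnP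
              exact hpw _ hnP
            · exfalso
              obtain ⟨j, hj⟩ : ∃ j, k = j + 1 := ⟨k - 1, by omega⟩
              rw [hj, Function.iterate_succ_apply'] at hnP hkP
              set u := f^[j] x with hu
              have hyd : y ^ d ≠ 0 := pow_ne_zero _ hy0
              apply hc1
              refine ⟨f u / y, ?_, ?_, u / y, y⁻¹, inv_ne_zero hy0, ?_, ?_⟩
              · rw [div_pow, hpw _ hnP, div_self hyd]
              · intro h1
                exact hkP ((div_eq_one_iff_eq hy0).mp h1)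
              · obtain ⟨k', hk'⟩ : ∃ k', d = k' + 1 := ⟨d - 1, by omega⟩
                have hfu : f u = u ^ d + (y - y ^ d) := by rw [← hcc]
                rw [hfu, hk', Nat.add_sub_cancel, div_pow, inv_pow]
                field_simp
                ring
              · rw [inv_inv]; exact hcc
        refine (Set.encard_le_encard hsub).trans ?_
        rw [Set.encard_coe_eq_coe_finsetCard]
        have : (nthRootsFinset d (y ^ d) : Finset K).card ≤ d := by
          rw [nthRootsFinset_def]
          exact (Multiset.toFinset_card_le _).trans (card_nthRoots _ _)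
        exact_mod_cast (by omega)
      · have : {x : K | Pre f x} = ∅ := by
          ext x
          simp only [Set.mem_ofPred_eq, Set.mem_empty_iff_false, iff_false]
          exact fun hx => hX ⟨x, hx⟩
        rw [this]
        simp
  exact hle.trans (by exact_mod_cast le_max_right _ _)

end Pool.Agent.Helper80.UC
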