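import Mathlib
import Pool.Agent.Helper80.UC.Scalar

set_option autoImplicit false

open IsDedekindDomain NumberField Polynomial

namespace Pool.Agent.Helper80.UC

/-- only finitely many parameters with two periodic points -/
theorem exc_two (K : Type) [Field K] [NumberField K] {d : ℕ} (hd : 5 ≤ d) :
    {c : K | ∃ x y : K, x ≠ y ∧ Per (fun z => z ^ d + c) x ∧ Per (fun z => z ^ d + c) y}.Finite := by
  obtain ⟨F, hF, H⟩ := ratioK K hd
  set G : Set K := F ∪ {1} with hG
  have hGf : G.Finite := hF.union (Set.finite_singleton _)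
  have hfin : (⋃ t ∈ G, ⋃ t1 ∈ G, ⋃ t2 ∈ G, ((fun y : K => t2 * y - y ^ d) ''
      {y : K | y ^ (d - 1) = (t1 - t2) / (t ^ d - 1)})).Finite := by
    refine hGf.biUnion fun t _ => hGf.biUnion fun t1 _ => hGf.biUnion fun t2 _ =>
      Set.Finite.image _ ?_
    have hp0 : (X ^ (d - 1) - C ((t1 - t2) / (t ^ d - 1)) : K[X]) ≠ 0 :=
      X_pow_sub_C_ne_zero (by omega) _
    refine (Polynomial.finite_setOfPred_isRoot hp0).subset ?_
    intro s hs
    show (X ^ (d - 1) - C ((t1 - t2) / (t ^ d - 1)) : K[X]).eval s = 0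
    simp only [eval_sub, eval_pow, eval_X, eval_C]
    exact sub_eq_zero.mpr hs
  refine hfin.subset ?_
  rintro c ⟨x, y, hxy, hx, hy⟩
  -- wlog `y ≠ 0`
  obtain ⟨x, y, hxy, hx, hy, hy0⟩ : ∃ x y : K, x ≠ y ∧ Per (fun z => z ^ d + c) x ∧
      Per (fun z => z ^ d + c) y ∧ y ≠ 0 := by
    by_cases hy0 : y = 0
    · exact ⟨y, x, hxy.symm, hy, hx, fun h => hxy (by rw [h, hy0])⟩
    · exact ⟨x, y, hxy, hx, hy, hy0⟩
  set f : K → K := fun z => z ^ d + c with hf
  have key : ∀ z, Per f z → z / y ∈ G := by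
    intro z hz
    by_cases h : z = y
    · right; rw [h]; exact div_self hy0
    · left
      exact H c z y hz.pre hy (fun n hn => h (hz.inj_iter hy n hn)) hy0
  have hfxy : f x ≠ f y := fun h => hxy (hx.inj hy h)
  have hpow : x ^ d - y ^ d ≠ 0 := by
    intro h
    apply hfxy
    simp only [hf]
    linear_combination h
  have htd : (x / y) ^ d - 1 ≠ 0 := by
    intro h
    apply hpow
    rw [div_pow, sub_eq_zero, div_eq_one_iff_eq (pow_ne_zero _ hy0)] at h
    rw [h, sub_self]
  simp only [Set.mem_iUnion]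
  refine ⟨x / y, key x hx, f x / y, key _ hx.map, f y / y, key _ hy.map, y, ?_, ?_⟩
  · show y ^ (d - 1) = (f x / y - f y / y) / ((x / y) ^ d - 1)
    rw [eq_div_iff htd]
    have h1 : f x - f y = x ^ d - y ^ d := by simp [hf]
    rw [← sub_div, h1, div_pow]
    obtain ⟨k, rfl⟩ : ∃ k, d = k + 1 := ⟨d - 1, by omega⟩
    rw [Nat.add_sub_cancel]
    field_simp
    ring
  · show f y / y * y - y ^ d = c
    rw [div_mul_cancel₀ _ hy0]
    simp [hf]

/-- **structure of the preperiodic points for all but finitely many parameters** -/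
theorem exc_struct (K : Type) [Field K] [NumberField K] {d : ℕ} (hd : 5 ≤ d) :
    ∃ E : Set K, E.Finite ∧ ∀ c ∉ E, {x : K | Pre (fun z => z ^ d + c) x} = ∅ ∨
      ∃ a : K, a ^ d + c = a ∧ {x : K | Pre (fun z => z ^ d + c) x} = {x : K | x ^ d = a ^ d} := by
  classical
  refine ⟨{c : K | ∃ x y : K, x ≠ y ∧ Per (fun z => z ^ d + c) x ∧ Per (fun z => z ^ d + c) y} ∪
    ({0} ∪ {c : K | ∃ ζ : K, ζ ^ d = 1 ∧ ζ ≠ 1 ∧ ∃ t s : K, s ≠ 0 ∧
    t ^ d - 1 = (ζ - 1) * s ^ (d - 1) ∧ c = s⁻¹ - s⁻¹ ^ d}),
    (exc_two K hd).union ((Set.finite_singleton 0).union (exc_fin K hd)), ?_⟩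
  intro c hc
  simp only [Set.mem_union, Set.mem_singleton_iff, not_or] at hc
  obtain ⟨hc2, hc0, hc1⟩ := hc
  set f : K → K := fun z => z ^ d + c with hf
  have hun : ∀ y1 y2 : K, Per f y1 → Per f y2 → y1 = y2 := by
    intro y1 y2 h1 h2
    by_contra h
    exact hc2 ⟨y1, y2, h, h1, h2⟩
  by_cases hX : ∃ x, Pre f x
  · right
    obtain ⟨x0, hx0⟩ := hX
    obtain ⟨n0, hy⟩ := hx0.ev
    set y := f^[n0] x0 with hydef
    have hfy : f y = y := hun _ _ hy.map hy
    have hy0 : y ≠ 0 := by
      intro h0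
      rw [h0] at hfy
      apply hc0
      simp only [hf] at hfy
      rwa [zero_pow (by omega), zero_add] at hfy
    refine ⟨y, hfy, ?_⟩
    have hcc : c = y - y ^ d := by
      have := hfy
      simp only [hf] at this
      linear_combination this
    have hpw : ∀ z, f z = y ↔ z ^ d = y ^ d := by
      intro z
      simp only [hf]
      constructor
      · intro hz
        rw [hcc] at hz
        linear_combination hz
      · intro hz
        rw [hcc]
        linear_combination hz
    ext x
    simp only [Set.mem_ofPred_eq]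
    constructor
    · intro hx
      have hex : ∃ n, f^[n] x = y := by
        obtain ⟨n, hn⟩ := Pre.ev hx
        exact ⟨n, hun _ _ hn hy⟩
      set n := Nat.find hex with hn
      have hnP : f^[n] x = y := Nat.find_spec hex
      rcases Nat.eq_zero_or_pos n with h | h
      · rw [h] at hnP
        simp only [Function.iterate_zero, id_eq] at hnP
        rw [hnP]
      · obtain ⟨k, hk⟩ : ∃ k, n = k + 1 := ⟨n - 1, by omega⟩
        have hkP : f^[k] x ≠ y := Nat.find_min hex (by omega)
        rw [hk, Function.iterate_succ_apply'] at hnP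
        rcases Nat.eq_zero_or_pos k with h' | h'
        · rw [h'] at hnP
          simp only [Function.iterate_zero, id_eq] at hnP
          exact (hpw _).mp hnP
        · exfalso
          obtain ⟨j, hj⟩ : ∃ j, k = j + 1 := ⟨k - 1, by omega⟩
          rw [hj, Function.iterate_succ_apply'] at hnP hkP
          set u := f^[j] x with hu
          have hyd : y ^ d ≠ 0 := pow_ne_zero _ hy0
          apply hc1
          refine ⟨f u / y, ?_, ?_, u / y, y⁻¹, inv_ne_zero hy0, ?_, ?_⟩
          · rw [div_pow, (hpw _).mp hnP, div_self hyd]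
          · intro h1
            exact hkP ((div_eq_one_iff_eq hy0).mp h1)
          · obtain ⟨k', hk'⟩ : ∃ k', d = k' + 1 := ⟨d - 1, by omega⟩
            have hfu : f u = u ^ d + (y - y ^ d) := by rw [← hcc]
            rw [hfu, hk', Nat.add_sub_cancel, div_pow, inv_pow]
            field_simp
            ring
          · rw [inv_inv]; exact hcc
    · intro hx
      refine ⟨1, 2, by norm_num, ?_⟩
      have h1 : f x = y := (hpw x).mpr hx
      rw [Function.iterate_succ_apply, Function.iterate_succ_apply, Function.iterate_succ_apply,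
        Function.iterate_zero, id_eq, id_eq, h1, hfy]
  · left
    ext x
    simp only [Set.mem_ofPred_eq, Set.mem_empty_iff_false, iff_false]
    exact fun hx => hX ⟨x, hx⟩

end Pool.Agent.Helper80.UC
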