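import Mathlib
import Pool.Agent.Helper80.UC.Exc

set_option autoImplicit false

open IsDedekindDomain NumberField Polynomial

namespace Pool.Agent.Helper80.UC

variable {K : Type} [Field K] [NumberField K]

/-- `h` has `v`-integral coefficients, unit leading coefficient, and its degree is a `v`-unit -/
structure PG (v : Pl K) (h : K[X]) (e : ℕ) : Prop where
  deg : h.natDegree = e
  int : ∀ i, h.coeff i ∈ A v
  lead : h.coeff e ≠ 0
  leado : o v (h.coeff e) = 0
  eo : o v (e : K) = 0

lemma pow_one_add (v : Pl K) {ε : K} (hε : ε ∈ A v) (i : ℕ) :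
    ∃ s ∈ A v, (1 + ε) ^ i = 1 + i * ε + ε ^ 2 * s := by
  induction i with
  | zero => exact ⟨0, zero_mem _, by simp⟩
  | succ i ih =>
    obtain ⟨s, hs, h⟩ := ih
    refine ⟨i + s + ε * s, ?_, ?_⟩
    · exact add_mem (add_mem (natCast_mem _ _) hs) (mul_mem hε hs)
    · rw [pow_succ, h]
      push_cast
      ring

lemma sum_mem_A (v : Pl K) {ι : Type*} (s : Finset ι) (g : ι → K) (h : ∀ i ∈ s, g i ∈ A v) :
    ∑ i ∈ s, g i ∈ A v := sum_mem h

lemma lift_poly (v : Pl K) {h : K[X]} (hint : ∀ i, h.coeff i ∈ A v) :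
    ∃ p : (A v)[X], p.map (A v).subtype = h := by
  refine ⟨h.toSubring (A v) ?_, ?_⟩
  · intro a ha
    obtain ⟨n, hn, rfl⟩ := Polynomial.mem_coeffs_iff.mp ha
    exact hint n
  · exact Polynomial.map_toSubring _ _ _

theorem GH_poly {v : Pl K} {h : K[X]} {e : ℕ} (he : 1 ≤ e) (H : PG v h e) :
    GH v (fun x => h.eval x) e := by
  obtain ⟨p, hp⟩ := lift_poly v H.int
  have hpe : ∀ x : A v, h.eval (x : K) = ((p.eval x : A v) : K) := by
    intro x
    rw [← hp]
    exact Polynomial.eval_map_apply (f := (A v).subtype) x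
  have hsum : ∀ x : K, h.eval x = ∑ i ∈ Finset.range (e + 1), h.coeff i * x ^ i := by
    intro x
    rw [eval_eq_sum_range, H.deg]
  refine ⟨?_, ?_, ?_, ?_, ?_⟩
  · intro x hx
    have hx0 : x ≠ 0 := by rintro rfl; simp at hx
    have hw : x⁻¹ ∈ A v := mem_A_of v (by rw [o_inv]; omega)
    set r : K := ∑ i ∈ Finset.range e, h.coeff i * x⁻¹ ^ (e - 1 - i) with hr
    have hrA : r ∈ A v := sum_mem_A v _ _ fun i _ => mul_mem (H.int i) (pow_mem hw _)
    have hid : h.eval x = x ^ e * (h.coeff e + x⁻¹ * r) := by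
      rw [hsum, Finset.sum_range_succ, mul_add, mul_comm (x ^ e) (h.coeff e), add_comm]
      congr 1
      rw [hr, Finset.mul_sum, Finset.mul_sum]
      apply Finset.sum_congr rfl
      intro i hi
      have hie : i < e := Finset.mem_range.mp hi
      obtain ⟨k, hk⟩ : ∃ k, e = i + 1 + k := ⟨e - (i + 1), by omega⟩
      have hk' : e - 1 - i = k := by omega
      rw [hk', hk, inv_pow]
      field_simp
      ring
    have hs := o_add_lt' v H.lead (y := x⁻¹ * r) (by
      rcases eq_or_ne r 0 with h0 | h0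
      · left; rw [h0, mul_zero]
      · right
        rw [H.leado, o_mul v (inv_ne_zero hx0) h0, o_inv]
        have := o_nonneg v hrA
        omega)
    obtain ⟨s1, s2⟩ := hs
    refine ⟨by rw [hid]; exact mul_ne_zero (pow_ne_zero _ hx0) s1, ?_⟩
    rw [hid, o_mul v (pow_ne_zero _ hx0) s1, o_pow, s2, H.leado, add_zero]
  · intro x y hx hxy hne hlt
    have hy : o v y < 0 := by omega
    have hy0 : y ≠ 0 := by rintro rfl; simp at hy
    have hsub0 := sub_ne_zero.mpr hne
    have hw : y⁻¹ ∈ A v := mem_A_of v (by rw [o_inv]; omega)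
    set ε : K := (x - y) / y with hε
    have hε0 : ε ≠ 0 := div_ne_zero hsub0 hy0
    have hεo : o v ε = o v (x - y) - o v y := o_div v hsub0 hy0
    have hεA : ε ∈ A v := mem_A_of v (by omega)
    have hxe : x = y * (1 + ε) := by
      rw [hε]; field_simp; ring
    have hS : ∀ i : ℕ, ∃ s ∈ A v, (1 + ε) ^ i = 1 + i * ε + ε ^ 2 * s := pow_one_add v hεA
    choose s hs hse using hS
    -- coefficients
    set b : ℕ → K := fun i => h.coeff i * y⁻¹ ^ (e - i) with hb
    have hbA : ∀ i, b i ∈ A v := fun i => mul_mem (H.int i) (pow_mem hw _)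
    set r1 : K := ∑ i ∈ Finset.range e, h.coeff i * y⁻¹ ^ (e - 1 - i) * i with hr1
    have hr1A : r1 ∈ A v := sum_mem_A v _ _ fun i _ =>
      mul_mem (mul_mem (H.int i) (pow_mem hw _)) (natCast_mem _ _)
    set r2 : K := ∑ i ∈ Finset.range (e + 1), b i * s i with hr2
    have hr2A : r2 ∈ A v := sum_mem_A v _ _ fun i _ => mul_mem (hbA i) (hs i)
    have hid : h.eval x - h.eval y = y ^ e * (ε * (e * h.coeff e + (y⁻¹ * r1 + ε * r2))) := by
      have h1 : h.eval x - h.eval y = ∑ i ∈ Finset.range (e + 1),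
          y ^ e * (b i * ((1 + ε) ^ i - 1)) := by
        rw [hsum, hsum, ← Finset.sum_sub_distrib]
        apply Finset.sum_congr rfl
        intro i hi
        have hie : i ≤ e := Nat.lt_succ_iff.mp (Finset.mem_range.mp hi)
        obtain ⟨k, hk⟩ : ∃ k, e = i + k := ⟨e - i, by omega⟩
        have hk' : e - i = k := by omega
        simp only [hb]
        rw [hk', hk, hxe, mul_pow, pow_add, inv_pow]
        field_simp
      have h2 : ∀ i, b i * ((1 + ε) ^ i - 1) = ε * (b i * i) + ε * (ε * (b i * s i)) := by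
        intro i
        rw [hse i]; ring
      rw [h1, ← Finset.mul_sum]
      congr 1
      simp_rw [h2]
      rw [Finset.sum_add_distrib, ← Finset.mul_sum, ← Finset.mul_sum, ← Finset.mul_sum, ← hr2]
      rw [Finset.sum_range_succ]
      have h3 : ∑ i ∈ Finset.range e, b i * i = y⁻¹ * r1 := by
        rw [hr1, Finset.mul_sum]
        apply Finset.sum_congr rfl
        intro i hi
        have hie : i < e := Finset.mem_range.mp hi
        have hk' : e - i = (e - 1 - i) + 1 := by omega
        simp only [hb]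
        rw [hk', pow_succ]
        ring
      have h4 : b e * (e : K) = e * h.coeff e := by
        simp only [hb, Nat.sub_self, pow_zero]
        ring
      rw [h3, h4]
      ring
    have he0 : (e : K) ≠ 0 := by exact_mod_cast (by omega : e ≠ 0)
    have hl0 : (e : K) * h.coeff e ≠ 0 := mul_ne_zero he0 H.lead
    have hlo : o v ((e : K) * h.coeff e) = 0 := by
      rw [o_mul v he0 H.lead, H.eo, H.leado, add_zero]
    have hlt1 : v.valuation K (y⁻¹ * r1 + ε * r2) < 1 := by
      refine lt_one_add v (lt_one_mul v (lt_one_of v (Or.inr ?_)) hr1A)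
        (lt_one_mul v (lt_one_of v (Or.inr ?_)) hr2A)
      · rw [o_inv]; omega
      · omega
    rw [lt_one_iff] at hlt1
    obtain ⟨s1, s2⟩ := o_add_lt' v hl0 (y := y⁻¹ * r1 + ε * r2) (by rw [hlo]; exact hlt1)
    have hne' : h.eval x - h.eval y ≠ 0 := by
      rw [hid]; exact mul_ne_zero (pow_ne_zero _ hy0) (mul_ne_zero hε0 s1)
    refine ⟨sub_ne_zero.mp hne', ?_⟩
    rw [hid, o_mul v (pow_ne_zero _ hy0) (mul_ne_zero hε0 s1), o_mul v hε0 s1, s2, hlo, hεo, o_pow,
      ← hxy]
    ring
  · intro x hx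
    have := hpe ⟨x, hx⟩
    simp only at this
    rw [this]
    exact Subtype.coe_prop _
  · intro x y hx hy
    obtain ⟨q, hq⟩ := Polynomial.sub_dvd_eval_sub (⟨x, hx⟩ : A v) ⟨y, hy⟩ p
    refine ⟨q, q.2, ?_⟩
    have h1 := congrArg (Subtype.val) hq
    rw [hpe ⟨x, hx⟩, hpe ⟨y, hy⟩]
    simpa using h1
  · intro x y w hx hy hw hxw hhxw hpos hne
    have hroot : (p - C (p.eval ⟨w, hw⟩)).IsRoot (⟨w, hw⟩ : A v) := by simp
    obtain ⟨Q, hQ⟩ := Polynomial.dvd_iff_isRoot.mpr hroot
    have hev : ∀ z : A v, p.eval z - p.eval ⟨w, hw⟩ = (z - ⟨w, hw⟩) * Q.eval z := by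
      intro z
      have := congrArg (Polynomial.eval z) hQ
      simpa using this
    have hx' := hev ⟨x, hx⟩
    have hpx : p.eval ⟨x, hx⟩ = p.eval (⟨w, hw⟩ : A v) := by
      apply Subtype.ext
      rw [← hpe, ← hpe]
      exact hhxw
    have hQx : Q.eval (⟨x, hx⟩ : A v) = 0 := by
      rw [hpx, sub_self] at hx'
      rcases mul_eq_zero.mp hx'.symm with h | h
      · exact absurd (congrArg Subtype.val (sub_eq_zero.mp h)) hxw
      · exact h
    obtain ⟨q, hq⟩ := Polynomial.sub_dvd_eval_sub (⟨y, hy⟩ : A v) ⟨x, hx⟩ Q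
    rw [hQx, sub_zero] at hq
    have hy' := hev ⟨y, hy⟩
    rw [hq] at hy'
    have h1 : h.eval y - h.eval w = (y - w) * ((y - x) * q) := by
      rw [hpe ⟨y, hy⟩, hpe ⟨w, hw⟩]
      have := congrArg Subtype.val hy'
      simpa using this
    have hn0 : (y - w) * ((y - x) * (q : K)) ≠ 0 := by
      rw [← h1]; exact sub_ne_zero.mpr hne
    have hn1 := left_ne_zero_of_mul hn0
    have hn2 := right_ne_zero_of_mul hn0
    show o v (y - w) < o v (h.eval y - h.eval w)
    rw [h1, o_mul v hn1 hn2, o_mul v (left_ne_zero_of_mul hn2) (right_ne_zero_of_mul hn2),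
      o_sub_comm v y x]
    have := o_nonneg v q.2
    omega

lemma PG_ae (h : K[X]) (he : 1 ≤ h.natDegree) :
    ∃ S : Set (Pl K), S.Finite ∧ ∀ v ∉ S, PG v h h.natDegree := by
  have hl : h.coeff h.natDegree ≠ 0 := by
    intro h0
    rw [coeff_natDegree, leadingCoeff_eq_zero] at h0
    rw [h0] at he
    simp at he
  have he0 : ((h.natDegree : ℕ) : K) ≠ 0 := by exact_mod_cast (by omega : h.natDegree ≠ 0)
  refine ⟨(⋃ i ∈ Finset.range (h.natDegree + 1), {v | h.coeff i ∉ A v}) ∪
    {v | o v (h.coeff h.natDegree) ≠ 0} ∪ {v | o v ((h.natDegree : ℕ) : K) ≠ 0}, ?_, ?_⟩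
  · refine (Set.Finite.union ?_ (fin_o hl)).union (fin_o he0)
    exact (Finset.finite_toSet _).biUnion fun i _ => fin_A _
  · intro v hv
    simp only [Set.mem_union, Set.mem_iUnion, Set.mem_ofPred_eq, not_or, not_exists, not_not] at hv
    obtain ⟨⟨h1, h2⟩, h3⟩ := hv
    refine ⟨rfl, fun i => ?_, hl, h2, h3⟩
    by_cases hi : i ∈ Finset.range (h.natDegree + 1)
    · exact h1 i hi
    · rw [coeff_eq_zero_of_natDegree_lt (by simpa using hi)]
      exact zero_mem _

/-- **Finiteness of the ratios for `h(z)^d + c` over any number field.** -/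
theorem ratioH (h : K[X]) (he : 1 ≤ h.natDegree) {d : ℕ} (hd : 5 ≤ d) :
    ∃ F : Set K, F.Finite ∧ ∀ c x y : K, Pre (fun z => h.eval z ^ d + c) x →
      Per (fun z => h.eval z ^ d + c) y →
      (∀ n, (fun z => h.eval z ^ d + c)^[n] x ≠ (fun z => h.eval z ^ d + c)^[n] y) →
      h.eval y ≠ 0 → h.eval x / h.eval y ∈ F := by
  have : NeZero d := ⟨by omega⟩
  let L := CyclotomicField d K
  have hζ : IsPrimitiveRoot (IsCyclotomicExtension.zeta d K L) d :=
    IsCyclotomicExtension.zeta_spec d K L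
  obtain ⟨S, hS, HM⟩ := GM_of (by omega) hζ
  set hL : L[X] := h.map (algebraMap K L) with hhL
  have heL : 1 ≤ hL.natDegree := by rw [hhL, natDegree_map]; exact he
  obtain ⟨S', hS', HP⟩ := PG_ae hL heL
  obtain ⟨F, hF, H⟩ := ratio_fin (h := fun z : L => hL.eval z) (e := hL.natDegree)
    (GM0_of (by omega) hζ) (S := S ∪ S') (hS.union hS')
    (fun v hv => GH_poly heL (HP v (fun h => hv (Or.inr h)))) (fun v hv => HM v (fun h => hv (Or.inl h)))
    heL hd
  refine ⟨(algebraMap K L) ⁻¹' F, hF.preimage (algebraMap K L).injective.injOn, ?_⟩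
  intro c x y hx hy hne hy0
  have hev : ∀ z : K, hL.eval (algebraMap K L z) = algebraMap K L (h.eval z) := by
    intro z
    rw [hhL, eval_map_apply]
  have hsc : ∀ z : K, algebraMap K L ((fun z => h.eval z ^ d + c) z) =
      fc (fun z : L => hL.eval z) d (algebraMap K L c) (algebraMap K L z) := by
    intro z
    simp only [fc, hev, map_add, map_pow]
  show algebraMap K L (h.eval x / h.eval y) ∈ F
  rw [map_div₀]
  have := H (algebraMap K L c) (algebraMap K L x) (algebraMap K L y) (hx.push _ hsc)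
    (hy.push _ hsc) ?_ (by simpa only [hev] using fun h0 => hy0 ((algebraMap K L).injective (by rw [h0, map_zero])))
  · simpa only [hev] using this
  intro n h
  rw [← iter_map _ hsc, ← iter_map _ hsc] at h
  exact hne n ((algebraMap K L).injective h)

end Pool.Agent.Helper80.UC
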