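import Mathlib
import Pool.Agent.Helper80.UC.Poly

set_option autoImplicit false

open IsDedekindDomain NumberField Polynomial

namespace Pool.Agent.Helper80.UC

variable {K : Type} [Field K] [NumberField K]

lemma fin_root {p : K[X]} (hp : p ≠ 0) : {x : K | p.eval x = 0}.Finite :=
  (Polynomial.finite_setOfPred_isRoot hp).subset fun _ hx => hx

/-- only finitely many parameters with two periodic points, for `h(z)^d + c` -/
theorem exc_two_h (h : K[X]) (he : 1 ≤ h.natDegree) {d : ℕ} (hd : 5 ≤ d) :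
    {c : K | ∃ x y : K, x ≠ y ∧ Per (fun z => h.eval z ^ d + c) x ∧
      Per (fun z => h.eval z ^ d + c) y}.Finite := by
  obtain ⟨F, hF, H⟩ := ratioH h he hd
  have hh0 : h ≠ 0 := by rintro rfl; simp at he
  set G : Set K := F ∪ {1} with hG
  have hGf : G.Finite := hF.union (Set.finite_singleton _)
  -- first family
  let R : K → K → K → K[X] := fun t t1 t2 =>
    h.comp (X + C ((t ^ d - 1) / t2 ^ d) * h ^ d) - C (t1 / t2) * h
  have hR : ∀ t t1 t2, t ^ d - 1 ≠ 0 → t2 ≠ 0 → R t t1 t2 ≠ 0 := by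
    intro t t1 t2 ht ht2 h0
    have ha : (t ^ d - 1) / t2 ^ d ≠ 0 := div_ne_zero ht (pow_ne_zero _ ht2)
    have hdeg1 : (C ((t ^ d - 1) / t2 ^ d) * h ^ d).natDegree = d * h.natDegree := by
      rw [natDegree_C_mul ha, natDegree_pow]
    have hde : 5 ≤ d * h.natDegree := by nlinarith
    have hdeg2 : (X + C ((t ^ d - 1) / t2 ^ d) * h ^ d : K[X]).natDegree = d * h.natDegree := by
      rw [natDegree_add_eq_right_of_natDegree_lt, hdeg1]
      rw [hdeg1, natDegree_X]; omega
    have h1 : h.comp (X + C ((t ^ d - 1) / t2 ^ d) * h ^ d) = C (t1 / t2) * h := sub_eq_zero.mp h0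
    have h2 := congrArg natDegree h1
    rw [natDegree_comp, hdeg2] at h2
    have h3 : (C (t1 / t2) * h).natDegree ≤ h.natDegree := natDegree_C_mul_le _ _
    nlinarith
  -- second family
  let R2 : K → K → K → K[X] := fun t t1 y =>
    h.comp (C y + C (t ^ d - 1) * X ^ d) - C t1 * X
  have hR2 : ∀ t t1 y, t ^ d - 1 ≠ 0 → R2 t t1 y ≠ 0 := by
    intro t t1 y ht h0
    have hdeg2 : (C y + C (t ^ d - 1) * X ^ d : K[X]).natDegree = d := by
      rw [add_comm, natDegree_add_C, natDegree_C_mul_X_pow _ _ ht]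
    have h1 : h.comp (C y + C (t ^ d - 1) * X ^ d) = C t1 * X := sub_eq_zero.mp h0
    have h2 := congrArg natDegree h1
    rw [natDegree_comp, hdeg2] at h2
    have h3 : (C t1 * X : K[X]).natDegree ≤ 1 := by
      refine (natDegree_C_mul_le _ _).trans ?_
      rw [natDegree_X]
    nlinarith
  have hfin1 : (⋃ t ∈ G, ⋃ t1 ∈ G, ⋃ t2 ∈ G, ((fun y : K => y - (h.eval y / t2) ^ d) ''
      {y : K | t ^ d - 1 ≠ 0 ∧ t2 ≠ 0 ∧ (R t t1 t2).eval y = 0})).Finite := by
    refine hGf.biUnion fun t _ => hGf.biUnion fun t1 _ => hGf.biUnion fun t2 _ =>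
      Set.Finite.image _ ?_
    by_cases hc : t ^ d - 1 ≠ 0 ∧ t2 ≠ 0
    · exact (fin_root (hR t t1 t2 hc.1 hc.2)).subset fun y hy => hy.2.2
    · convert Set.finite_empty
      ext y
      simp only [Set.mem_ofPred_eq, Set.mem_empty_iff_false, iff_false]
      exact fun hy => hc ⟨hy.1, hy.2.1⟩
  have hfin2 : (⋃ t ∈ G, ⋃ t1 ∈ G, ⋃ y ∈ {y : K | h.eval y = 0}, ((fun Y : K => y - Y ^ d) ''
      {Y : K | t ^ d - 1 ≠ 0 ∧ (R2 t t1 y).eval Y = 0})).Finite := by
    refine hGf.biUnion fun t _ => hGf.biUnion fun t1 _ => (fin_root hh0).biUnion fun y _ =>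
      Set.Finite.image _ ?_
    by_cases hc : t ^ d - 1 ≠ 0
    · exact (fin_root (hR2 t t1 y hc)).subset fun y hy => hy.2
    · convert Set.finite_empty
      ext y
      simp only [Set.mem_ofPred_eq, Set.mem_empty_iff_false, iff_false]
      exact fun hy => hc hy.1
  refine (hfin1.union hfin2).subset ?_
  rintro c ⟨x, y, hxy, hx, hy⟩
  -- wlog `h y ≠ 0`
  obtain ⟨x, y, hxy, hx, hy, hy0⟩ : ∃ x y : K, x ≠ y ∧ Per (fun z => h.eval z ^ d + c) x ∧
      Per (fun z => h.eval z ^ d + c) y ∧ h.eval y ≠ 0 := by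
    by_cases hy0 : h.eval y = 0
    · refine ⟨y, x, hxy.symm, hy, hx, fun h0 => hxy (hx.inj hy ?_)⟩
      simp only [h0, hy0]
    · exact ⟨x, y, hxy, hx, hy, hy0⟩
  set f : K → K := fun z => h.eval z ^ d + c with hf
  have key : ∀ z, Per f z → h.eval z / h.eval y ∈ G := by
    intro z hz
    by_cases hzy : z = y
    · right; rw [hzy]; exact div_self hy0
    · left
      exact H c z y hz.pre hy (fun n hn => hzy (hz.inj_iter hy n hn)) hy0
  have hfxy : f x ≠ f y := fun h => hxy (hx.inj hy h)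
  have hpow : h.eval x ^ d - h.eval y ^ d ≠ 0 := by
    intro h0
    apply hfxy
    simp only [hf]
    linear_combination h0
  have htd : (h.eval x / h.eval y) ^ d - 1 ≠ 0 := by
    intro h0
    apply hpow
    rw [div_pow, sub_eq_zero, div_eq_one_iff_eq (pow_ne_zero _ hy0)] at h0
    rw [h0, sub_self]
  set t := h.eval x / h.eval y with ht
  set t1 := h.eval (f x) / h.eval y with ht1
  set t2 := h.eval (f y) / h.eval y with ht2
  have hfx : f x = f y + (t ^ d - 1) * h.eval y ^ d := by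
    rw [ht, div_pow]
    have : f x - f y = h.eval x ^ d - h.eval y ^ d := by simp [hf]
    field_simp
    linear_combination this
  have hc : c = f y - h.eval y ^ d := by simp [hf]
  have ht1' : h.eval (f x) = t1 * h.eval y := by rw [ht1, div_mul_cancel₀ _ hy0]
  have ht2' : h.eval (f y) = t2 * h.eval y := by rw [ht2, div_mul_cancel₀ _ hy0]
  by_cases h20 : t2 = 0
  · right
    simp only [Set.mem_iUnion]
    refine ⟨t, key x hx, t1, key _ hx.map, f y, ?_, h.eval y, ⟨htd, ?_⟩, hc.symm⟩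
    · show h.eval (f y) = 0
      rw [ht2', h20, zero_mul]
    · simp only [R2, eval_sub, eval_comp, eval_add, eval_mul, eval_C, eval_pow, eval_X]
      rw [← hfx, ht1', sub_self]
  · left
    simp only [Set.mem_iUnion]
    have hY : h.eval (f y) / t2 = h.eval y := by
      rw [ht2']; field_simp
    refine ⟨t, key x hx, t1, key _ hx.map, t2, key _ hy.map, f y, ⟨htd, h20, ?_⟩, ?_⟩
    · simp only [R, eval_sub, eval_comp, eval_add, eval_mul, eval_C, eval_pow, eval_X]
      have h5 : f y + (t ^ d - 1) / t2 ^ d * h.eval (f y) ^ d = f x := by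
        have h6 : (t ^ d - 1) / t2 ^ d * h.eval (f y) ^ d =
            (t ^ d - 1) * (h.eval (f y) / t2) ^ d := by rw [div_pow]; ring
        rw [h6, hY, ← hfx]
      rw [h5, ht1', ht2']
      field_simp
      ring
    · show f y - (h.eval (f y) / t2) ^ d = c
      rw [hY, ← hc]

end Pool.Agent.Helper80.UC
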