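import Mathlib
import Pool.Agent.Helper80.UC.ExcH

set_option autoImplicit false

open IsDedekindDomain NumberField Polynomial

namespace Pool.Agent.Helper80.UC

/-- all unicritical polynomials whose leading coefficient lies in finitely many classes modulo
`(d-1)`-th powers -/
theorem UB_twist (K : Type) [Field K] [NumberField K] {d : ℕ} (hd : 5 ≤ d) (T : Finset K)
    (hT : ∀ τ ∈ T, τ ≠ 0) : ∃ B : ℕ, ∀ τ ∈ T, ∀ b : K, b ≠ 0 → ∀ β γ : K,
      {x : K | Pre (fun z => τ * b ^ (d - 1) * (z - β) ^ d + γ) x}.encard ≤ B := by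
  obtain ⟨L, i1, i2, φ, hφ⟩ := ext_pow T (d - 1) (by omega)
  obtain ⟨B, hB⟩ := UB1 L hd
  refine ⟨B, fun τ hτ b hb β γ => ?_⟩
  obtain ⟨ρ, hρ⟩ := hφ τ hτ
  have hρ0 : ρ ≠ 0 := by
    rintro rfl
    rw [zero_pow (by omega)] at hρ
    exact hT τ hτ (φ.injective (by rw [← hρ, map_zero]))
  have hb' : φ b ≠ 0 := by simpa using hb
  set α : L := ρ * φ b with hα
  have hα0 : α ≠ 0 := mul_ne_zero hρ0 hb'
  set g : K → L := fun x => α * φ (x - β) with hg
  have hginj : Function.Injective g := by
    intro x y h
    have := φ.injective (mul_left_cancel₀ hα0 h)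
    linear_combination this
  have hsc : ∀ x, g ((fun z => τ * b ^ (d - 1) * (z - β) ^ d + γ) x) =
      (fun z => z ^ d + α * φ (γ - β)) (g x) := by
    intro x
    simp only [hg, map_sub, map_add, map_mul, map_pow, ← hρ]
    obtain ⟨k, rfl⟩ : ∃ k, d = k + 1 := ⟨d - 1, by omega⟩
    rw [Nat.add_sub_cancel, hα, mul_pow (ρ * φ b) (φ x - φ β), mul_pow ρ (φ b)]
    ring
  have hsub : g '' {x : K | Pre (fun z => τ * b ^ (d - 1) * (z - β) ^ d + γ) x} ⊆
      {x : L | Pre (fun z => z ^ d + α * φ (γ - β)) x} := by
    rintro _ ⟨x, hx, rfl⟩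
    exact Pre.push g hsc hx
  rw [← hginj.encard_image]
  exact (Set.encard_le_encard hsub).trans (hB _)

/-- uniform bound for periodic points of `h(z)^d + c` -/
theorem UB_per (K : Type) [Field K] [NumberField K] {d : ℕ} (hd : 5 ≤ d) (h : K[X])
    (he : 1 ≤ h.natDegree) : ∃ B : ℕ, ∀ c : K,
      {x : K | Per (fun z => h.eval z ^ d + c) x}.encard ≤ B := by
  classical
  obtain ⟨F, hF, H⟩ := ratioH h he hd
  have hh0 : h ≠ 0 := by rintro rfl; simp at he
  refine ⟨F.ncard * h.natDegree + 2, fun c => ?_⟩
  set f : K → K := fun z => h.eval z ^ d + c with hf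
  by_cases hy : ∃ y, Per f y ∧ h.eval y ≠ 0
  · obtain ⟨y, hy, hy0⟩ := hy
    let R : K → Finset K := fun g => (h - C (g * h.eval y)).roots.toFinset
    have hRne : ∀ g, h - C (g * h.eval y) ≠ 0 := by
      intro g h0
      have h1 : h = C (g * h.eval y) := sub_eq_zero.mp h0
      have h2 := congrArg natDegree h1
      rw [natDegree_C] at h2
      omega
    have hRc : ∀ g, (R g).card ≤ h.natDegree := by
      intro g
      refine (Multiset.toFinset_card_le _).trans ((card_roots' _).trans ?_)
      exact (natDegree_sub_C).le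
    have hsub : {x : K | Per f x} ⊆ ((insert y (hF.toFinset.biUnion R) : Finset K) : Set K) := by
      intro x hx
      rw [Finset.mem_coe, Finset.mem_insert, Finset.mem_biUnion]
      by_cases hxy : x = y
      · exact Or.inl hxy
      · right
        refine ⟨h.eval x / h.eval y, ?_, ?_⟩
        · rw [hF.mem_toFinset]
          exact H c x y (Per.pre hx) hy (fun n hn => hxy (Per.inj_iter hx hy n hn)) hy0
        · rw [Multiset.mem_toFinset, mem_roots (hRne _)]
          show (h - C (h.eval x / h.eval y * h.eval y)).eval x = 0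
          rw [div_mul_cancel₀ _ hy0]
          simp
    refine (Set.encard_le_encard hsub).trans ?_
    rw [Set.encard_coe_eq_coe_finsetCard]
    have h1 : (insert y (hF.toFinset.biUnion R) : Finset K).card ≤
        hF.toFinset.card * h.natDegree + 1 := by
      refine (Finset.card_insert_le _ _).trans ?_
      have := Finset.card_biUnion_le_card_mul hF.toFinset R h.natDegree (fun g _ => hRc g)
      omega
    have h2 : hF.toFinset.card = F.ncard := (Set.ncard_eq_toFinset_card F hF).symm
    rw [h2] at h1
    exact_mod_cast (by omega)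
  · -- all periodic points are zeros of `h`; `f` is injective on them
    have hall : ∀ y, Per f y → h.eval y = 0 := by
      intro y hy'
      by_contra h0
      exact hy ⟨y, hy', h0⟩
    have hsubs : {x : K | Per f x}.Subsingleton := by
      intro x hx y hy'
      refine Per.inj hx hy' ?_
      simp only [hf, hall x hx, hall y hy']
    refine (Set.encard_le_one_iff_subsingleton.mpr hsubs).trans ?_
    exact_mod_cast (by omega)

end Pool.Agent.Helper80.UC
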