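import Mathlib
import Pool.Agent.Helper80.UC.Fin1

set_option autoImplicit false

open IsDedekindDomain NumberField Polynomial

namespace Pool.Agent.Helper80.UC

/-- uniform bound and generic structure for `τ z^d + c` -/
theorem UB_struct (K : Type) [Field K] [NumberField K] {d : ℕ} (hd : 5 ≤ d) (τ : K) (hτ : τ ≠ 0) :
    ∃ (B : ℕ) (E : Set K), E.Finite ∧ ∀ c : K,
      {x : K | Pre (fun z => τ * z ^ d + c) x}.encard ≤ B ∧
      (c ∉ E → {x : K | Pre (fun z => τ * z ^ d + c) x} = ∅ ∨
        ∃ a : K, τ * a ^ d + c = a ∧
          {x : K | Pre (fun z => τ * z ^ d + c) x} = {x : K | x ^ d = a ^ d}) := by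
  classical
  obtain ⟨L, i1, i2, φ, hφ⟩ := ext_pow ({τ} : Finset K) (d - 1) (by omega)
  obtain ⟨ρ, hρ⟩ := hφ τ (Finset.mem_singleton_self _)
  have hρ0 : ρ ≠ 0 := by
    rintro rfl
    rw [zero_pow (by omega)] at hρ
    exact hτ (φ.injective (by rw [← hρ, map_zero]))
  obtain ⟨B, hB⟩ := UB1 L hd
  obtain ⟨E, hE, HE⟩ := exc_struct L hd
  set g : K → L := fun x => ρ * φ x with hg
  have hginj : Function.Injective g := by
    intro x y h
    exact φ.injective (mul_left_cancel₀ hρ0 h)
  have hsc : ∀ c x, g ((fun z => τ * z ^ d + c) x) = (fun z => z ^ d + g c) (g x) := by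
    intro c x
    simp only [hg, map_add, map_mul, map_pow, ← hρ]
    obtain ⟨k, rfl⟩ : ∃ k, d = k + 1 := ⟨d - 1, by omega⟩
    rw [Nat.add_sub_cancel, mul_pow]
    ring
  refine ⟨B, g ⁻¹' E, hE.preimage hginj.injOn, fun c => ⟨?_, fun hc => ?_⟩⟩
  · rw [← hginj.encard_image]
    refine (Set.encard_le_encard ?_).trans (hB (g c))
    rintro _ ⟨x, hx, rfl⟩
    exact Pre.push g (hsc c) hx
  · set f : K → K := fun z => τ * z ^ d + c with hf
    by_cases hX : ∃ x, Pre f x
    · right
      obtain ⟨x0, hx0⟩ := hX
      obtain ⟨n0, ha⟩ := hx0.ev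
      set a := f^[n0] x0 with hadef
      have hga : Per (fun z => z ^ d + g c) (g a) := Per.push g (hsc c) ha
      rcases HE (g c) hc with h | ⟨b, hb, h⟩
      · exfalso
        have : g a ∈ ({x : L | Pre (fun z => z ^ d + g c) x} : Set L) := hga.pre
        rw [h] at this
        exact this
      · -- `b` is the only periodic point
        have hbper : Per (fun z => z ^ d + g c) b := ⟨1, one_pos, by simpa using hb⟩
        have hfb : ∀ w : L, Pre (fun z => z ^ d + g c) w → w ^ d + g c = b := by
          intro w hw
          have hw' : w ∈ ({x : L | Pre (fun z => z ^ d + g c) x} : Set L) := hw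
          rw [h] at hw'
          have hw'' : w ^ d = b ^ d := hw'
          rw [hw'', hb]
        have hgab : g a = b := by
          obtain ⟨w, hw, hwe⟩ := hga.preimage
          rw [← hwe]
          exact hfb w hw.pre
        have hfa : f a = a := by
          apply hginj
          rw [hsc, hgab]
          exact hb
        refine ⟨a, hfa, ?_⟩
        ext x
        simp only [Set.mem_ofPred_eq]
        constructor
        · intro hx
          have h1 : g x ^ d = b ^ d := by
            have : g x ∈ ({x : L | Pre (fun z => z ^ d + g c) x} : Set L) := Pre.push g (hsc c) hx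
            rw [h] at this
            exact this
          rw [← hgab] at h1
          simp only [hg, mul_pow] at h1
          have h2 := mul_left_cancel₀ (pow_ne_zero _ hρ0) h1
          rw [← map_pow, ← map_pow] at h2
          exact φ.injective h2
        · intro hx
          have h1 : f x = a := by
            have : f x = f a := by simp only [hf, hx]
            rw [this, hfa]
          refine ⟨1, 2, by norm_num, ?_⟩
          rw [Function.iterate_succ_apply, Function.iterate_succ_apply,
            Function.iterate_succ_apply, Function.iterate_zero, id_eq, id_eq, h1, hfa]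
    · left
      ext x
      simp only [Set.mem_ofPred_eq, Set.mem_empty_iff_false, iff_false]
      exact fun hx => hX ⟨x, hx⟩

end Pool.Agent.Helper80.UC
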