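import Mathlib
import Pool.Agent.Helper80.UC.Scalar

set_option autoImplicit false

open NumberField Matrix

namespace Pool.Agent.Helper80.UC

variable {K : Type} [Field K]

/-- `[x₀^d : x₁^d + c₁ x₀^d : ⋯ : x_N^d + c_N x₀^d]` on homogeneous coordinates -/
def splitMap {N : ℕ} (d : ℕ) (c : Fin N → K) (x : Fin (N + 1) → K) : Fin (N + 1) → K :=
  Fin.cons (x 0 ^ d) fun i => x i.succ ^ d + c i * x 0 ^ d

lemma splitMap_smul {N d : ℕ} (c : Fin N → K) (a : K) (x : Fin (N + 1) → K) :
    splitMap d c (a • x) = a ^ d • splitMap d c x := by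
  ext i
  refine Fin.cases ?_ (fun i => ?_) i
  · simp [splitMap, mul_pow]
  · simp [splitMap, mul_pow]; ring

lemma splitMap_iter_smul {N d : ℕ} (c : Fin N → K) (n : ℕ) (a : K) (ha : a ≠ 0)
    (x : Fin (N + 1) → K) : ∃ b : K, b ≠ 0 ∧ (splitMap d c)^[n] (a • x) = b • (splitMap d c)^[n] x := by
  induction n with
  | zero => exact ⟨a, ha, by simp⟩
  | succ n ih =>
    obtain ⟨b, hb, h⟩ := ih
    refine ⟨b ^ d, pow_ne_zero _ hb, ?_⟩
    rw [Function.iterate_succ_apply', Function.iterate_succ_apply', h, splitMap_smul]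

/-- iterates when `x₀ = 1` -/
lemma splitMap_iter_one {N d : ℕ} (c : Fin N → K) (n : ℕ) (x : Fin (N + 1) → K)
    (hx : x 0 = 1) : ((splitMap d c)^[n] x) 0 = 1 ∧
      ∀ i : Fin N, ((splitMap d c)^[n] x) i.succ = (fun z => z ^ d + c i)^[n] (x i.succ) := by
  induction n with
  | zero => simpa using hx
  | succ n ih =>
    obtain ⟨h0, h1⟩ := ih
    refine ⟨?_, fun i => ?_⟩
    · rw [Function.iterate_succ_apply']
      simp [splitMap, h0]
    · rw [Function.iterate_succ_apply', Function.iterate_succ_apply', ← h1 i]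
      simp [splitMap, h0]

/-- iterates when `x₀ = 0` -/
lemma splitMap_iter_zero {N d : ℕ} (hd : d ≠ 0) (c : Fin N → K) (n : ℕ) (x : Fin (N + 1) → K)
    (hx : x 0 = 0) : ((splitMap d c)^[n] x) 0 = 0 ∧
      ∀ i : Fin (N + 1), ((splitMap d c)^[n] x) i = (fun z => z ^ d + 0)^[n] (x i) := by
  induction n with
  | zero => simpa using hx
  | succ n ih =>
    obtain ⟨h0, h1⟩ := ih
    have h2 : ((splitMap d c)^[n + 1] x) 0 = 0 := by
      rw [Function.iterate_succ_apply']
      simp [splitMap, h0, hd]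
    refine ⟨h2, fun i => ?_⟩
    rw [Function.iterate_succ_apply', Function.iterate_succ_apply', ← h1 i]
    refine Fin.cases ?_ (fun i => ?_) i
    · simp [splitMap]
    · simp [splitMap, h0, hd]

lemma pre_zero_one {d : ℕ} (hd : d ≠ 0) : Pre (fun z : K => z ^ d + 0) 0 ∧
    Pre (fun z : K => z ^ d + 0) 1 := by
  refine ⟨⟨0, 1, by norm_num, ?_⟩, ⟨0, 1, by norm_num, ?_⟩⟩ <;> simp [hd]

/-- normalised preperiodic vectors have preperiodic coordinates -/
lemma split_norm {N d : ℕ} (hd : d ≠ 0) (c : Fin N → K) (x : Fin (N + 1) → K) (hx : x ≠ 0)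
    (m n : ℕ) (hmn : m < n) (a : K) (h : (splitMap d c)^[n] x = a • (splitMap d c)^[m] x) :
    ∃ (b : K) (y : Fin (N + 1) → K), b ≠ 0 ∧ x = b • y ∧
      ((Pre (fun z : K => z ^ d + 0) (y 0) ∧ ∀ i : Fin N, Pre (fun z => z ^ d + c i) (y i.succ)) ∨
        ∀ i, Pre (fun z : K => z ^ d + 0) (y i)) := by
  by_cases h0 : x 0 = 0
  · -- choose any nonzero coordinate
    obtain ⟨j, hj⟩ : ∃ j, x j ≠ 0 := by
      by_contra hcon
      push Not at hcon
      exact hx (funext hcon)
    refine ⟨x j, (x j)⁻¹ • x, hj, ?_, Or.inr ?_⟩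
    · rw [smul_smul, mul_inv_cancel₀ hj, one_smul]
    · set y := (x j)⁻¹ • x with hy
      have hy0 : y 0 = 0 := by simp [hy, h0]
      have hyj : y j = 1 := by simp [hy, hj]
      obtain ⟨b1, hb1, e1⟩ := splitMap_iter_smul (d := d) c n (x j)⁻¹ (inv_ne_zero hj) x
      obtain ⟨b2, hb2, e2⟩ := splitMap_iter_smul (d := d) c m (x j)⁻¹ (inv_ne_zero hj) x
      rw [← hy] at e1 e2
      have key : (splitMap d c)^[n] y = (b1 * a * b2⁻¹) • (splitMap d c)^[m] y := by
        rw [e1, e2, h, smul_smul, smul_smul]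
        congr 1
        field_simp
      have hn := (splitMap_iter_zero hd c n y hy0).2
      have hm := (splitMap_iter_zero hd c m y hy0).2
      have hone : ∀ k : ℕ, (fun z : K => z ^ d + 0)^[k] 1 = 1 := by
        intro k
        apply Function.iterate_fixed
        simp
      have hkj := congrFun key j
      rw [Pi.smul_apply, hn, hm, hyj, hone, hone, smul_eq_mul, mul_one] at hkj
      rw [← hkj, one_smul] at key
      intro i
      refine ⟨m, n, hmn, ?_⟩
      rw [← hn i, ← hm i, key]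
  · refine ⟨x 0, (x 0)⁻¹ • x, h0, ?_, Or.inl ?_⟩
    · rw [smul_smul, mul_inv_cancel₀ h0, one_smul]
    · set y := (x 0)⁻¹ • x with hy
      have hy0 : y 0 = 1 := by simp [hy, h0]
      obtain ⟨b1, hb1, e1⟩ := splitMap_iter_smul (d := d) c n (x 0)⁻¹ (inv_ne_zero h0) x
      obtain ⟨b2, hb2, e2⟩ := splitMap_iter_smul (d := d) c m (x 0)⁻¹ (inv_ne_zero h0) x
      rw [← hy] at e1 e2
      have key : (splitMap d c)^[n] y = (b1 * a * b2⁻¹) • (splitMap d c)^[m] y := by
        rw [e1, e2, h, smul_smul, smul_smul]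
        congr 1
        field_simp
      obtain ⟨n0, hn⟩ := splitMap_iter_one (d := d) c n y hy0
      obtain ⟨m0, hm⟩ := splitMap_iter_one (d := d) c m y hy0
      have hkj := congrFun key 0
      rw [Pi.smul_apply, n0, m0, smul_eq_mul, mul_one] at hkj
      rw [← hkj, one_smul] at key
      refine ⟨by rw [hy0]; exact (pre_zero_one hd).2, fun i => ⟨m, n, hmn, ?_⟩⟩
      rw [← hn i, ← hm i, key]

variable [NumberField K]

/-- counting projective preperiodic points of split unicritical maps up to linear conjugacy -/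
theorem UBN (N d : ℕ) (hd : 5 ≤ d) : ∃ C : ℕ, ∀ (c : Fin N → K) (P : Matrix.GeneralLinearGroup (Fin (N + 1)) K)
    (F : (Fin (N + 1) → K) → (Fin (N + 1) → K)) (u : K) (_ : u ≠ 0)
    (_ : ∀ x, (P : Matrix (Fin (N + 1)) (Fin (N + 1)) K) *ᵥ (F x) =
      u • splitMap d c ((P : Matrix (Fin (N + 1)) (Fin (N + 1)) K) *ᵥ x))
    (S : Finset (Fin (N + 1) → K)),
    (∀ x ∈ S, x ≠ 0) →
    (∀ x ∈ S, ∀ y ∈ S, ∀ a : K, x = a • y → x = y) →
    (∀ x ∈ S, ∃ m n : ℕ, m < n ∧ ∃ a : K, a ≠ 0 ∧ F^[n] x = a • F^[m] x) →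
    S.card ≤ C := by
  classical
  obtain ⟨B, hB⟩ := UB1 K hd
  have hfin : ∀ c : K, {x : K | Pre (fun z => z ^ d + c) x}.Finite := fun c =>
    Set.finite_of_encard_le_coe (hB c)
  let E : K → Finset K := fun c => (hfin c).toFinset
  have hE : ∀ c x, x ∈ E c ↔ Pre (fun z => z ^ d + c) x := by
    intro c x
    simp [E]
  have hEc : ∀ c, (E c).card ≤ B := by
    intro c
    have h1 := hB c
    rw [(hfin c).encard_eq_coe_toFinset_card] at h1
    exact_mod_cast h1
  refine ⟨2 * B ^ (N + 1), ?_⟩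
  intro c P F u hu hF S hS0 hSp hS
  set M : Matrix (Fin (N + 1)) (Fin (N + 1)) K := (P : Matrix (Fin (N + 1)) (Fin (N + 1)) K) with hM
  -- iterates
  have hiter : ∀ (n : ℕ) (x : Fin (N + 1) → K), ∃ b : K, b ≠ 0 ∧
      M *ᵥ (F^[n] x) = b • (splitMap d c)^[n] (M *ᵥ x) := by
    intro n x
    induction n with
    | zero => exact ⟨1, one_ne_zero, by simp⟩
    | succ n ih =>
      obtain ⟨b, hb, h⟩ := ih
      refine ⟨u * b ^ d, mul_ne_zero hu (pow_ne_zero _ hb), ?_⟩
      rw [Function.iterate_succ_apply', Function.iterate_succ_apply', hF, h, splitMap_smul,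
        smul_smul]
  have hMinj : Function.Injective (fun x => M *ᵥ x) := by
    have := Matrix.mulVec_injective_of_isUnit (A := M) P.isUnit
    exact this
  -- normal forms
  have hnorm : ∀ x ∈ S, ∃ (b : K) (y : Fin (N + 1) → K), b ≠ 0 ∧ M *ᵥ x = b • y ∧
      ((Pre (fun z : K => z ^ d + 0) (y 0) ∧ ∀ i : Fin N, Pre (fun z => z ^ d + c i) (y i.succ)) ∨
        ∀ i, Pre (fun z : K => z ^ d + 0) (y i)) := by
    intro x hx
    obtain ⟨m, n, hmn, a, ha, h⟩ := hS x hx
    obtain ⟨b1, hb1, e1⟩ := hiter n x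
    obtain ⟨b2, hb2, e2⟩ := hiter m x
    have h1 : (splitMap d c)^[n] (M *ᵥ x) = (b1⁻¹ * a * b2) • (splitMap d c)^[m] (M *ᵥ x) := by
      have h2 := congrArg (fun z => M *ᵥ z) h
      simp only [Matrix.mulVec_smul, e1, e2] at h2
      have h3 : (splitMap d c)^[n] (M *ᵥ x) = b1⁻¹ • (b1 • (splitMap d c)^[n] (M *ᵥ x)) := by
        rw [smul_smul, inv_mul_cancel₀ hb1, one_smul]
      rw [h3, h2, smul_smul, smul_smul, mul_assoc]
    refine split_norm (by omega) c (M *ᵥ x) ?_ m n hmn _ h1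
    intro h0
    apply hS0 x hx
    apply hMinj
    simpa using h0
  choose! b y hb hy hpre using hnorm
  have hyinj : Set.InjOn y S := by
    intro x hx x' hx' h
    have h1 : M *ᵥ x = (b x * (b x')⁻¹) • (M *ᵥ x') := by
      rw [hy x hx, hy x' hx', h, smul_smul, mul_assoc, inv_mul_cancel₀ (hb x' hx'), mul_one]
    rw [← Matrix.mulVec_smul] at h1
    exact hSp x hx x' hx' _ (hMinj h1)
  let E1 : Fin (N + 1) → Finset K := Fin.cons (E 0) (fun i => E (c i))
  let E2 : Fin (N + 1) → Finset K := fun _ => E 0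
  have hsub : S.image y ⊆ Fintype.piFinset E1 ∪ Fintype.piFinset E2 := by
    intro z hz
    obtain ⟨x, hx, rfl⟩ := Finset.mem_image.mp hz
    rw [Finset.mem_union, Fintype.mem_piFinset, Fintype.mem_piFinset]
    rcases hpre x hx with ⟨h0, h1⟩ | h0
    · left
      intro i
      refine Fin.cases ?_ (fun i => ?_) i
      · simpa [E1, hE] using h0
      · simpa [E1, hE] using h1 i
    · right
      intro i
      simpa [E2, hE] using h0 i
  have hcard1 : (Fintype.piFinset E1).card ≤ B ^ (N + 1) := by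
    rw [Fintype.card_piFinset]
    calc ∏ i, (E1 i).card ≤ ∏ _i : Fin (N + 1), B := by
          apply Finset.prod_le_prod' 
          intro i _
          refine Fin.cases ?_ (fun i => ?_) i
          · simpa [E1] using hEc 0
          · simpa [E1] using hEc (c i)
      _ = B ^ (N + 1) := by simp
  have hcard2 : (Fintype.piFinset E2).card ≤ B ^ (N + 1) := by
    rw [Fintype.card_piFinset]
    calc ∏ i, (E2 i).card ≤ ∏ _i : Fin (N + 1), B := by
          apply Finset.prod_le_prod' 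
          intro i _
          exact hEc 0
      _ = B ^ (N + 1) := by simp
  calc S.card = (S.image y).card := (Finset.card_image_of_injOn hyinj).symm
    _ ≤ (Fintype.piFinset E1 ∪ Fintype.piFinset E2).card := Finset.card_le_card hsub
    _ ≤ (Fintype.piFinset E1).card + (Fintype.piFinset E2).card := Finset.card_union_le _ _
    _ ≤ 2 * B ^ (N + 1) := by omega

end Pool.Agent.Helper80.UC
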